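import Pool.Agent.SOW.Defs

/-! Project SOW, module ThmV (size 3): Theorem A for a family of functions: rigid pairs are separated by a COMMON split.

PROOF of `thmV`: copy Pool/Agent/SOC/ThmA.lean (`Lev`, `Lev.ne`, `Lev.mk_succ`, `Lev.base`, `not_lev`, `thmA`) and replace everywhere
`sep w .. = 0` by `Nc w ..` and `sep w .. = 1` by `¬ Nc w ..`. The proof only uses: Nc.left, Nc.right, Nc.sl, Nc.sr, Nc.refl_left, Nc.refl_right,
and (h : Rigid G a b c d) → Nc w a b c d (from hs); e.g. `zmod2_cases (sep w x a y c)` becomes `by_cases (Nc w x a y c)`, and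
`rw [← sep_add_left w y a p c d, hy.2.2.2, h0, add_zero]` (y a | c d not crossed would follow from y p | c d and a p | c d) becomes
`fun h => hy.2.2.2 (h.left h0.sl)`. No skewness is needed. -/

set_option autoImplicit false

open Set

namespace Pool.Agent.SOW

open Pool.Agent.SOC Pool.Agent.SOS

variable {V ι : Type} {w : ι → V → V → ZMod 2} {G : SimpleGraph V} {π : V → Set V}

/-- the levels of the forcing relation -/
def ThmV_Lev (w : ι → V → V → ZMod 2) (a c d : V) : ℕ → V → Prop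
  | 0, y => y ≠ a ∧ y ≠ c ∧ y ≠ d ∧ ¬ Nc w y a c d
  | k + 1, y => y ≠ a ∧ y ≠ c ∧ y ≠ d ∧ ∃ y', ThmV_Lev w a c d k y' ∧ y' ≠ y ∧ ¬ Nc w y a y' c

theorem ThmV_Lev.ne {a c d : V} {k : ℕ} {y : V} (h : ThmV_Lev w a c d k y) :
    y ≠ a ∧ y ≠ c ∧ y ≠ d := by
  cases k with
  | zero => exact ⟨h.1, h.2.1, h.2.2.1⟩
  | succ k => exact ⟨h.1, h.2.1, h.2.2.1⟩

theorem ThmV_Lev.mk_succ {a c d : V} {k : ℕ} {y y' : V} (h1 : y ≠ a) (h2 : y ≠ c)
    (h3 : y ≠ d) (h : ThmV_Lev w a c d k y') (h4 : y' ≠ y) (h5 : ¬ Nc w y a y' c) :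
    ThmV_Lev w a c d (k + 1) y := ⟨h1, h2, h3, y', h, h4, h5⟩

/-- change of the base point -/
theorem ThmV_Lev.base {a c d p : V} {M : ℕ} (h0 : Nc w a p c d)
    (h1 : ∀ j, j < M → ∀ y, ThmV_Lev w a c d j y → Nc w a p y c)
    (h2 : ∀ j, j ≤ M → ∀ y, ThmV_Lev w a c d j y → y ≠ p) :
    ∀ j, j ≤ M → ∀ y, ThmV_Lev w a c d j y → ThmV_Lev w p c d j y := by
  intro j
  induction j with
  | zero =>
    intro hj y hy
    refine ⟨h2 0 hj y hy, hy.2.1, hy.2.2.1, ?_⟩
    exact fun h => hy.2.2.2 (h.left h0.sl)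
  | succ j ih =>
    intro hj y hy
    obtain ⟨_, e2, e3, y', e4, e5, e6⟩ := id hy
    refine ⟨h2 (j + 1) hj y hy, e2, e3, y', ih (by omega) y' e4, e5, ?_⟩
    exact fun h => e6 (h.left (h1 j (by omega) y' e4).sl)

theorem ThmV_not_lev (hG : G.Preconnected) (hs : ∀ a b c d, Rigid G a b c d → Nc w a b c d) (k : ℕ) :
    ∀ a b c d, Rigid G a b c d → ¬ ThmV_Lev w a c d k b := by
  induction k using Nat.strong_induction_on with
  | _ k ih =>
  intro a b c d h hb
  have hab0 : Nc w a b c d := hs a b c d h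
  have hba0 : Nc w b a c d := hab0.sl
  cases k with
  | zero => exact hb.2.2.2 hba0
  | succ m =>
  obtain ⟨b1, b2, b3, z0, hz0, hz0b, hz0s⟩ := hb
  -- minimality
  have hmin : ∀ j, j ≤ m → ¬ ThmV_Lev w a c d j b := fun j hj => ih j (by omega) a b c d h
  have hmin2 : ∀ j, j < m → ∀ y, ThmV_Lev w a c d j y → Nc w b a y c := by
    intro j hj y hy
    by_cases h' : Nc w b a y c
    · exact h'
    · exact absurd (ThmV_Lev.mk_succ b1 b2 b3 hy (fun e => hmin j hj.le (e ▸ hy)) h')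
        (hmin (j + 1) hj)
  -- the set W
  let W : V → Prop := fun z => ThmV_Lev w a c d m z ∧ z ≠ b ∧ ¬ Nc w b a z c
  have hWd : ∀ z, W z → ¬ Nc w b a z d := fun z hz h' => hz.2.2 (h'.right hba0.sr)
  -- z in W and a level j < m : different from z
  have hWne : ∀ z, W z → ∀ j, j < m → ∀ y, ThmV_Lev w a c d j y → y ≠ z := by
    intro z hz j hj y hy e
    subst e
    exact hz.2.2 (hmin2 j hj y hy)
  have hWlev : ∀ z, W z → ∀ j, j < m → ¬ ThmV_Lev w a c d j z := fun z hz j hj hy =>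
    hWne z hz j hj z hy rfl
  -- (gamma)
  have hgc : ∀ z, W z → ¬ Rigid G a b z c := fun z hz hr => hz.2.2 (hs _ _ _ _ hr).sl
  have hgd : ∀ z, W z → ¬ Rigid G a b z d := fun z hz hr => hWd z hz (hs _ _ _ _ hr).sl
  -- (alpha)
  have halpha : ∀ z, W z → ¬ G.Adj a z → ¬ G.Adj b z → ∀ z', G.Adj z z' → W z' := by
    intro z hz haz hbz z' hzz'
    obtain ⟨za, zc, zd⟩ := hz.1.ne
    have zb := hz.2.1
    have z'a : z' ≠ a := fun e => haz (e ▸ hzz'.symm)
    have z'b : z' ≠ b := fun e => hbz (e ▸ hzz'.symm)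
    have hzc : ¬ G.Adj z c := fun k => hgc z hz
      ⟨h.ab, k, za.symm, h.ac, zb.symm, h.bc, fun t => haz t.1, fun t => hbz t.2⟩
    have hzd : ¬ G.Adj z d := fun k => hgd z hz
      ⟨h.ab, k, za.symm, h.ad, zb.symm, h.bd, fun t => haz t.1, fun t => hbz t.2⟩
    have z'c : z' ≠ c := fun e => hzc (e ▸ hzz')
    have z'd : z' ≠ d := fun e => hzd (e ▸ hzz')
    have r1 : Rigid G a b z z' := ⟨h.ab, hzz', za.symm, z'a.symm, zb.symm, z'b.symm,
      fun t => haz t.1, fun t => hbz t.2⟩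
    have r2 : Rigid G z z' c d := ⟨hzz', h.cd, zc, zd, z'c, z'd, fun t => hzc t.1,
      fun t => hzd t.1⟩
    have s1 : ¬ Nc w b a z' c := fun h' => hz.2.2 ((hs _ _ _ _ r1).sl.right h')
    refine ⟨?_, z'b, s1⟩
    cases m with
    | zero =>
      refine ⟨z'a, z'c, z'd, ?_⟩
      exact fun h' => hz.1.2.2.2 ((hs _ _ _ _ r2).left h')
    | succ n =>
      obtain ⟨_, _, _, y, hy, hyz, hys⟩ := hz.1
      have hyz' : y ≠ z' := by
        intro e
        subst e
        exact s1 (hmin2 n (by omega) _ hy)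
      refine ThmV_Lev.mk_succ z'a z'c z'd hy hyz' ?_
      intro h'a
      by_cases h' : Nc w z' z y c
      · exact hys (h'.sl.left h'a)
      · -- base change to z
        have hb1 : ThmV_Lev w z c d n y := by
          refine ThmV_Lev.base (M := n) ?_ ?_ ?_ n le_rfl y hy
          · by_cases t : Nc w a z c d
            · exact t
            · exfalso
              exact hWlev z hz 0 (by omega) ⟨za, zc, zd, fun u => t u.sl⟩
          · intro j hj x hx
            by_cases t : Nc w a z x c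
            · exact t
            · exfalso
              exact hWlev z hz (j + 1) (by omega) (ThmV_Lev.mk_succ za zc zd hx
                (hWne z hz j (by omega) x hx) (fun u => t u.sl))
          · intro j hj x hx
            exact hWne z hz j (by omega) x hx
        exact ih (n + 1) (by omega) z z' c d r2
          (ThmV_Lev.mk_succ hzz'.ne' z'c z'd hb1 hyz' h')
  -- (conn)
  have hconn : ∃ z, W z ∧ (G.Adj a z ∨ G.Adj b z) := by
    by_contra hcon
    push Not at hcon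
    have hcl : ∀ z z', W z → G.Adj z z' → W z' := fun z z' hz hzz' =>
      halpha z hz (hcon z hz).1 (hcon z hz).2 z' hzz'
    have hall : ∀ z x, G.Reachable z x → W z → W x := by
      intro z x ⟨p⟩
      induction p with
      | nil => exact id
      | cons hadj p ih' => exact fun hz => ih' (hcl _ _ hz hadj)
    exact (hall z0 a (hG z0 a) ⟨hz0, hz0b, hz0s⟩).1.ne.1 rfl
  -- (beta)
  have hba : ∀ z, W z → ¬ Rigid G a z c d := fun z hz hr =>
    ih m (by omega) a z c d hr hz.1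
  have hbb : ∀ z, W z → ¬ Rigid G b z c d := by
    intro z hz hr
    refine ih m (by omega) b z c d hr ?_
    refine ThmV_Lev.base (M := m) hab0 ?_ ?_ m le_rfl z hz.1
    · intro j hj y hy
      exact (hmin2 j hj y hy).sl
    · intro j hj y hy e
      exact hmin j hj (e ▸ hy)
  obtain ⟨z, hz, hadj⟩ := hconn
  obtain ⟨za, zc, zd⟩ := hz.1.ne
  have zb := hz.2.1
  have f1 : G.Adj a z → (G.Adj a c ∧ G.Adj z d) ∨ (G.Adj a d ∧ G.Adj z c) := by
    intro t
    by_contra hc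
    push Not at hc
    exact hba z hz ⟨t, h.cd, h.ac, h.ad, zc, zd, fun u => hc.1 u.1 u.2, fun u => hc.2 u.1 u.2⟩
  have f2 : G.Adj b z → (G.Adj b c ∧ G.Adj z d) ∨ (G.Adj b d ∧ G.Adj z c) := by
    intro t
    by_contra hc
    push Not at hc
    exact hbb z hz ⟨t, h.cd, h.bc, h.bd, zc, zd, fun u => hc.1 u.1 u.2, fun u => hc.2 u.1 u.2⟩
  have f3 : G.Adj z c → (G.Adj a z ∧ G.Adj b c) ∨ (G.Adj a c ∧ G.Adj b z) := by
    intro t
    by_contra hc
    push Not at hc
    exact hgc z hz ⟨h.ab, t, za.symm, h.ac, zb.symm, h.bc, fun u => hc.1 u.1 u.2,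
      fun u => hc.2 u.1 u.2⟩
  have f4 : G.Adj z d → (G.Adj a z ∧ G.Adj b d) ∨ (G.Adj a d ∧ G.Adj b z) := by
    intro t
    by_contra hc
    push Not at hc
    exact hgd z hz ⟨h.ab, t, za.symm, h.ad, zb.symm, h.bd, fun u => hc.1 u.1 u.2,
      fun u => hc.2 u.1 u.2⟩
  have n1 := h.n1
  have n2 := h.n2
  rcases hadj with ha | hb
  · rcases f1 ha with ⟨u1, u2⟩ | ⟨u1, u2⟩
    · rcases f4 u2 with ⟨_, v2⟩ | ⟨v1, v2⟩
      · exact n1 ⟨u1, v2⟩
      · rcases f2 v2 with ⟨t1, _⟩ | ⟨t1, _⟩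
        · exact n2 ⟨v1, t1⟩
        · exact n1 ⟨u1, t1⟩
    · rcases f3 u2 with ⟨_, v2⟩ | ⟨v1, v2⟩
      · exact n2 ⟨u1, v2⟩
      · rcases f2 v2 with ⟨t1, _⟩ | ⟨t1, _⟩
        · exact n2 ⟨u1, t1⟩
        · exact n1 ⟨v1, t1⟩
  · rcases f2 hb with ⟨u1, u2⟩ | ⟨u1, u2⟩
    · rcases f4 u2 with ⟨v1, v2⟩ | ⟨v1, _⟩
      · rcases f1 v1 with ⟨t1, _⟩ | ⟨t1, _⟩
        · exact n1 ⟨t1, v2⟩
        · exact n2 ⟨t1, u1⟩
      · exact n2 ⟨v1, u1⟩
    · rcases f3 u2 with ⟨v1, v2⟩ | ⟨v1, _⟩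
      · rcases f1 v1 with ⟨t1, _⟩ | ⟨t1, _⟩
        · exact n1 ⟨t1, u1⟩
        · exact n2 ⟨t1, v2⟩
      · exact n1 ⟨v1, u1⟩

theorem thmV (hG : G.Preconnected) (hs : ∀ i, IsSol G (w i)) {a b c d : V} (h : Rigid G a b c d) :
    ∃ X : Set V, a ∈ X ∧ b ∈ X ∧ c ∉ X ∧ d ∉ X ∧ CSpl w X := by
  have hs' : ∀ a b c d, Rigid G a b c d → Nc w a b c d := fun a b c d hr i => hs i a b c d hr
  have hk := fun k => ThmV_not_lev hG hs' k a b c d h
  refine ⟨{x | x ≠ c ∧ x ≠ d ∧ ∀ k, ¬ ThmV_Lev w a c d k x}, ?_, ?_, ?_, ?_, ?_⟩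
  · exact ⟨h.ac, h.ad, fun k hk' => hk'.ne.1 rfl⟩
  · exact ⟨h.bc, h.bd, hk⟩
  · exact fun t => t.1 rfl
  · exact fun t => t.2.1 rfl
  · have key : ∀ x, (x ≠ c ∧ x ≠ d ∧ ∀ k, ¬ ThmV_Lev w a c d k x) →
        ∀ y, ¬ (y ≠ c ∧ y ≠ d ∧ ∀ k, ¬ ThmV_Lev w a c d k y) → Nc w x a y c := by
      intro x hx y hy
      by_cases hxa : x = a
      · subst hxa; exact Nc.refl_left _ _ _
      by_cases hyc : y = c
      · subst hyc; exact Nc.refl_right _ _ _
      by_cases t : Nc w x a y c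
      · exact t
      exfalso
      by_cases hyd : y = d
      · subst hyd
        exact hx.2.2 0 ⟨hxa, hx.1, hx.2.1, fun u => t u.sr⟩
      · have : ∃ k, ThmV_Lev w a c d k y := by
          by_contra hc
          push Not at hc
          exact hy ⟨hyc, hyd, hc⟩
        obtain ⟨k, hk1⟩ := this
        refine hx.2.2 (k + 1) (ThmV_Lev.mk_succ hxa hx.1 hx.2.1 hk1 ?_ t)
        intro e
        subst e
        exact hx.2.2 k hk1
    rw [cspl_iff]
    intro x hx x' hx' y hy y' hy'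
    have k1 := key x hx y hy
    have k2 := key x hx y' hy'
    have k3 := key x' hx' y hy
    have k4 := key x' hx' y' hy'
    exact (k1.right k2.sr).left (k3.right k4.sr).sl

/-- PROOF: thmV and PP.prime: the split X or its complement is contained in a part. -/
theorem hub_of_pp (hG : G.Preconnected) (hs : ∀ i, IsSol G (w i)) (hπ : PP w π) : Hub G π := by
  intro a b c d h
  obtain ⟨X, ha, hb, hc, hd, hX⟩ := thmV hG hs h
  rcases hπ.prime X hX with ⟨v, hv⟩ | ⟨v, hv⟩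
  · exact Or.inl ((hv a ha).trans (hv b hb).symm)
  · exact Or.inr ((hv c hc).trans (hv d hd).symm)

end Pool.Agent.SOW
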