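import Pool.Agent.SOW.Pts

/-! Project SOW, module Tour (size 4): tournaments: cuts and paths. `N x y = nrm w y₀ x y` is the tournament seen from `y₀`. -/

set_option autoImplicit false

open Set

namespace Pool.Agent.SOW

open Pool.Agent.SOC Pool.Agent.SOS

variable {V : Type} {w : V → V → ZMod 2}

/-- PROOF: unfold sep, nrm; hw x o, hw y o. -/
theorem sep_root (hw : Skew 1 w) {o x y z : V} (hx : x ≠ o) (hy : y ≠ o) :
    sep w x y z o = nrm w o x z + nrm w o y z := by
  have e1 := hw x o hx
  have e2 := hw y o hy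
  have t1 := zadd_self (w o x)
  have t2 := zadd_self (w o y)
  have t3 := zadd_self (w o z)
  have h2 : (1 : ZMod 2) + 1 = 0 := by decide
  unfold sep nrm
  linear_combination e1 + e2 - t1 - t2 - t3 + h2

/-- PROOF: hw x y. -/
theorem nrm_skew (hw : Skew 1 w) {o x y : V} (h : x ≠ y) : nrm w o x y = nrm w o y x + 1 := by
  have e1 := hw x y h
  have t1 := zadd_self (w y x)
  unfold nrm
  linear_combination e1 - t1

/-- `x → y` in the set `M`, seen from `o`: the value is not `c` -/
def St (w : V → V → ZMod 2) (o : V) (c : ZMod 2) (M : Set V) (x y : V) : Prop :=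
  x ∈ M ∧ y ∈ M ∧ x ≠ y ∧ nrm w o x y ≠ c

/-- a split from two cuts. PROOF. c := nrm w p' p q, c' := nrm w p p' q'. unfold: c + c' = sep w p p' q q' + (w p' p + w p p') = 0 + 1, so c' = c + 1. S := the vertices of M reachable from p by St w p' c M (q ∉ S), S' := the vertices outside M reachable from p' by St w p c' Mᶜ (q' ∉ S'). For x ∈ S, y ∈ M \ S: nrm w p' x y = c [otherwise St x y, y ∈ S]. For x ∈ S', y ∉ M, y ∉ S': nrm w p x y = c'.
X := S ∪ S'. p, p' ∈ X, q, q' ∉ X. Split: it is enough that sep w x p y q = 0 for x ∈ X, y ∉ X (then sep w x x' y y' = sum of four such terms as at the end of thmA in SOC/ThmA.lean). We may assume x ≠ p, y ≠ q (sep_self). Four cases. M is a split of w (hM), and its complement.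
(1) x ∈ S, y ∈ M \ S: sep w x p y q = nrm w p' x y + nrm w p' x q + nrm w p' p y + nrm w p' p q = 4 c = 0 (the terms w p' _ cancel). (2) x ∈ S, y ∉ M: sep w x p y q = sep w x p y p' + sep w x p p' q (sep_add_right); the first is 0 (hM), the second is sep w x p q p' = nrm w p' x q + nrm w p' p q = c + c (sep_root). (3) x ∈ S', y ∈ M \ S: sep w x p y q = sep w y q x p (sep_comm) = sep w y q x p' + sep w y q p' p; the
first is 0 (hM), the second is sep w y q p p' = nrm w p' y p + nrm w p' q p = (c + 1) + (c + 1) (nrm_skew). (4) x ∈ S', y ∉ M, y ∉ S': sep w x p y q = sep w x p' y q + sep w p' p y q (sep_add_left). First term: sep w x p' y q = sep w x p' y q' + sep w x p' q' p + sep w x p' p q (sep_add_right twice); sep w x p' y q' = nrm w p x y + nrm w p x q' + nrm w p p' y + nrm w p p' q' = 4 c' = 0; sep w x p' q' p = nrm w p x q' +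
nrm w p p' q' = 0 (sep_root, root p); sep w x p' p q = 0 (complement of M: x, p' ∉ M, p, q ∈ M). Second term: sep w p' p y q = sep w p' p y q' + sep w p' p q' q; the last is 0 by h0 (swaps); sep w p' p y q' = sep w y q' p' p (sep_comm) = nrm w p y p' + nrm w p q' p' = (c' + 1) + (c' + 1) = 0. -/
theorem cut_cut (hw : Skew 1 w) {M : Set V} (hM : IsSplit w M) {p p' q q' : V} (hp : p ∈ M) (hq : q ∈ M) (hp' : p' ∉ M)
    (hq' : q' ∉ M) (hpq : p ≠ q) (hpq' : p' ≠ q') (h0 : sep w p p' q q' = 0)
    (h1 : ¬ Relation.ReflTransGen (St w p' (nrm w p' p q) M) p q)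
    (h2 : ¬ Relation.ReflTransGen (St w p (nrm w p p' q') Mᶜ) p' q') :
    ∃ X, p ∈ X ∧ p' ∈ X ∧ q ∉ X ∧ q' ∉ X ∧ IsSplit w X := by
  have e01 : ∀ t : ZMod 2, t + 1 + (t + 1) = 0 := by decide
  have hpp' : p ≠ p' := fun e => hp' (e ▸ hp)
  obtain ⟨c, hc⟩ : ∃ c, c = nrm w p' p q := ⟨_, rfl⟩
  obtain ⟨c', hc'⟩ : ∃ c', c' = nrm w p p' q' := ⟨_, rfl⟩
  rw [← hc] at h1
  rw [← hc'] at h2
  have hMc := hM.compl hw
  obtain ⟨S, hS⟩ : ∃ S : Set V, S = {y | Relation.ReflTransGen (St w p' c M) p y} := ⟨_, rfl⟩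
  obtain ⟨S', hS'⟩ : ∃ S' : Set V, S' = {y | Relation.ReflTransGen (St w p c' Mᶜ) p' y} := ⟨_, rfl⟩
  have hSM : ∀ x ∈ S, x ∈ M := by
    intro x hx
    rw [hS] at hx
    rcases Relation.ReflTransGen.cases_tail hx with h | ⟨z, _, h⟩
    · exact h ▸ hp
    · exact h.2.1
  have hSM' : ∀ x ∈ S', x ∉ M := by
    intro x hx
    rw [hS'] at hx
    rcases Relation.ReflTransGen.cases_tail hx with h | ⟨z, _, h⟩
    · exact h ▸ hp'
    · exact h.2.1
  have hSc : ∀ x ∈ S, ∀ y, y ∈ M → y ∉ S → nrm w p' x y = c := by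
    intro x hx y hy hyS
    by_contra hne
    apply hyS
    have h3 : St w p' c M x y := ⟨hSM x hx, hy, fun e => hyS (e ▸ hx), hne⟩
    rw [hS] at hx ⊢
    exact Relation.ReflTransGen.tail hx h3
  have hSc' : ∀ x ∈ S', ∀ y, y ∉ M → y ∉ S' → nrm w p x y = c' := by
    intro x hx y hy hyS
    by_contra hne
    apply hyS
    have h3 : St w p c' Mᶜ x y := ⟨hSM' x hx, hy, fun e => hyS (e ▸ hx), hne⟩
    rw [hS'] at hx ⊢
    exact Relation.ReflTransGen.tail hx h3
  have hpS : p ∈ S := by rw [hS]; exact Relation.ReflTransGen.refl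
  have hpS' : p' ∈ S' := by rw [hS']; exact Relation.ReflTransGen.refl
  have hqS : q ∉ S := by rw [hS]; exact h1
  have hqS' : q' ∉ S' := by rw [hS']; exact h2
  have key : ∀ x ∈ S ∪ S', ∀ y, y ∉ S ∪ S' → sep w x p y q = 0 := by
    intro x hx y hy
    have hyS : y ∉ S := fun h => hy (Or.inl h)
    have hyS' : y ∉ S' := fun h => hy (Or.inr h)
    have hpy : p ≠ y := fun e => hyS (e ▸ hpS)
    have hpy' : p' ≠ y := fun e => hyS' (e ▸ hpS')
    rcases hx with hx | hx
    · have hxM := hSM x hx
      by_cases hyM : y ∈ M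
      · have a1 := hSc x hx y hyM hyS
        have a2 := hSc x hx q hq hqS
        have a3 := hSc p hpS y hyM hyS
        have t1 := zadd_self (w p' x)
        have t2 := zadd_self (w p' y)
        have t3 := zadd_self (w p' p)
        have t4 := zadd_self (w p' q)
        have t5 := zadd_self c
        unfold nrm at a1 a2 a3 hc
        unfold sep
        linear_combination a1 + a2 + a3 - hc - t1 - t2 - t3 - t4 + t5 + t5
      · have b1 := hM x hxM p hp y hyM p' hp'
        have hxp' : x ≠ p' := fun e => hp' (e ▸ hxM)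
        have b2 := sep_root hw (z := q) hxp' hpp'
        rw [hSc x hx q hq hqS, ← hc, zadd_self] at b2
        rw [← sep_add_right w x p y p' q, b1, sep_swap_right w x p p' q, b2, add_zero]
    · have hxM := hSM' x hx
      have hxp : x ≠ p := fun e => hxM (e ▸ hp)
      by_cases hyM : y ∈ M
      · have hxy : x ≠ y := fun e => hxM (e ▸ hyM)
        have hxq : x ≠ q := fun e => hxM (e ▸ hq)
        have hyp' : y ≠ p' := fun e => hp' (e ▸ hyM)
        have hqp' : q ≠ p' := fun e => hp' (e ▸ hq)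
        rw [sep_comm hw hxy hxq hpy hpq, ← sep_add_right w y q x p' p, hM y hyM q hq x hxM p' hp', zero_add,
          sep_swap_right, sep_root hw hyp' hqp', nrm_skew hw hpy.symm, nrm_skew hw hpq.symm,
          hSc p hpS y hyM hyS, ← hc]
        exact e01 c
      · have hyp : y ≠ p := hpy.symm
        have hq'p : q' ≠ p := fun e => hq' (e ▸ hp)
        have a1 := hSc' x hx y hyM hyS'
        have a2 := hSc' x hx q' hq' hqS'
        have a3 := hSc' p' hpS' y hyM hyS'
        have b1 : sep w x p' y q' = 0 := by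
          have t1 := zadd_self (w p x)
          have t2 := zadd_self (w p y)
          have t3 := zadd_self (w p p')
          have t4 := zadd_self (w p q')
          have t5 := zadd_self c'
          unfold nrm at a1 a2 a3 hc'
          unfold sep
          linear_combination a1 + a2 + a3 - hc' - t1 - t2 - t3 - t4 + t5 + t5
        have b2 : sep w x p' q' p = 0 := by
          rw [sep_root hw hxp hpp'.symm, a2, ← hc']
          exact zadd_self c'
        have b3 : sep w x p' p q = 0 := hMc x hxM p' hp' p (fun h => h hp) q (fun h => h hq)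
        have b4 : sep w p' p q' q = 0 := by
          rw [sep_swap_left, sep_swap_right]
          exact h0
        have b5 : sep w p' p y q' = 0 := by
          rw [sep_comm hw hpy' hpq' hpy hq'p.symm, sep_root hw hyp hq'p, nrm_skew hw hpy'.symm,
            nrm_skew hw hpq'.symm, a3, ← hc']
          exact e01 c'
        rw [← sep_add_left w x p' p y q, ← sep_add_right w x p' y q' q, ← sep_add_right w x p' q' p q,
          ← sep_add_right w p' p y q' q, b1, b2, b3, b4, b5]
        simp
  refine ⟨S ∪ S', Or.inl hpS, Or.inr hpS', fun h => h.elim hqS (fun h => hSM' q h hq),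
    fun h => h.elim (fun h => hq' (hSM q' h)) hqS', ?_⟩
  intro x hx x' hx' y hy y' hy'
  rw [← sep_add_left w x p x' y y', ← sep_add_right w x p y q y', ← sep_add_right w p x' y q y',
    key x hx y hy, sep_swap_right w x p q y', key x hx y' hy', sep_swap_left w p x' y q, key x' hx' y hy,
    sep_swap_left w p x' q y', sep_swap_right w x' p q y', key x' hx' y' hy']
  simp

/-- a path gives a prime partition. PROOF. c := nrm w o p q. Take a shortest path p = x_0, .., x_m = q, St x_k x_(k+1) (e.g. f : ℕ → V, m minimal with f 0 = p, f m = q, steps). m ≥ 2, since nrm w o p q = c (m = 0: p ≠ q; m = 1: St p q is false). By minimality nrm w o x_i x_j = c for i + 2 ≤ j (x_i ≠ x_j, and otherwise the step x_i → x_j makes the path shorter). All x_k are in M, ≠ o.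
Q := {x_0, x_1, x_2, o}: nrm x_0 x_1 = c + 1, nrm x_1 x_2 = c + 1, nrm x_0 x_2 = c (all seen from o), so (sep_root, nrm_skew) sep x_0 x_1 x_2 o = c + (c + 1) = 1, sep x_0 x_2 x_1 o = (c + 1) + c = 1, sep x_1 x_2 x_0 o = c + (c + 1) = 1. So a split of w contains at most one or at least three points of Q: PPS (fun _ : Unit => w) Q (with sep_comm / complements). pp_of_pps: π. 
pp_small for the complement of M (it avoids x_0, x_1, in different parts): π v = π o for v ∉ M. π p ≠ π o (p = x_0). Claim: π x_k ≠ π o for all k ≤ m: k ≤ 2 clear; k ≥ 3: suppose π x_(k-1) ≠ π o, π x_k = π o. Z := {v | π v = π o} is a split, so is its complement: x_(k-1), x_0 ∉ Z, x_k, o ∈ Z: sep w x_(k-1) x_0 x_k o = 0, but it is nrm x_(k-1) x_k + nrm x_0 x_k = (c + 1) + c = 1. -/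
theorem path_pp (hw : Skew 1 w) {M : Set V} (hM : IsSplit w M) {o p q : V} (ho : o ∉ M) (hp : p ∈ M) (hq : q ∈ M) (hpq : p ≠ q)
    (h : Relation.ReflTransGen (St w o (nrm w o p q) M) p q) :
    ∃ π : V → Set V, PP (fun _ : Unit => w) π ∧ π p ≠ π o ∧ π q ≠ π o ∧ ∀ v, v ∉ M → π v = π o := by
  have e1 : ∀ a b : ZMod 2, a ≠ b → a = b + 1 := by decide
  have e2 : ∀ a : ZMod 2, a + (a + 1) = 1 := by decide
  have e3 : ∀ a : ZMod 2, (a + 1) + a = 1 := by decide
  have e4 : ∀ a : ZMod 2, a + 1 + 1 = a := by decide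
  have e5 : (1 : ZMod 2) ≠ 0 := by decide
  obtain ⟨c, hc⟩ : ∃ c, c = nrm w o p q := ⟨_, rfl⟩
  rw [← hc] at h
  -- the last vertex of the path after p
  have hlast : ∀ r, Relation.ReflTransGen (St w o c M) p r → (r = p ∨ St w o c M p r) ∨
      ∃ z y, St w o c M p z ∧ St w o c M z y ∧ ¬ (y = p ∨ St w o c M p y) ∧
        Relation.ReflTransGen (fun a b => St w o c M a b ∧ ¬ (b = p ∨ St w o c M p b)) y r := by
    intro r hr
    induction hr with
    | refl => exact Or.inl (Or.inl rfl)
    | tail h1 h2 ih =>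
      rename_i b d
      by_cases hd : d = p ∨ St w o c M p d
      · exact Or.inl hd
      · refine Or.inr ?_
        rcases ih with (hb | hb) | ⟨z, y, hz, hy, hyn, hyr⟩
        · subst hb
          exact absurd (Or.inr h2) hd
        · exact ⟨b, d, hb, h2, hd, Relation.ReflTransGen.refl⟩
        · exact ⟨z, y, hz, hy, hyn, Relation.ReflTransGen.tail hyr ⟨h2, hd⟩⟩
  rcases hlast q h with (hqp | hst) | ⟨z, y, hz, hy, hyn, hyq⟩
  · exact absurd hqp.symm hpq
  · exact absurd hc.symm hst.2.2.2
  rw [not_or] at hyn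
  obtain ⟨-, hzM, hpz, hnz⟩ := hz
  obtain ⟨-, hyM, hzy, hny⟩ := hy
  have hpy : p ≠ y := fun e => hyn.1 e.symm
  have hmO : ∀ {v : V}, v ∈ M → v ≠ o := fun hv e => ho (e ▸ hv)
  have hpo := hmO hp
  have hzo := hmO hzM
  have hyo := hmO hyM
  have n1 : nrm w o p z = c + 1 := e1 _ _ hnz
  have n2 : nrm w o z y = c + 1 := e1 _ _ hny
  have n3 : nrm w o p y = c := by
    by_contra hne
    exact hyn.2 ⟨hp, hyM, hpy, hne⟩
  have n1' : nrm w o z p = c := by rw [nrm_skew hw hpz.symm, n1, e4]
  have n2' : nrm w o y z = c := by rw [nrm_skew hw hzy.symm, n2, e4]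
  have n3' : nrm w o y p = c + 1 := by rw [nrm_skew hw hpy.symm, n3]
  have s1 : sep w p z y o = 1 := by rw [sep_root hw hpo hzo, n3, n2, e2]
  have s2 : sep w p y z o = 1 := by rw [sep_root hw hpo hyo, n1, n2', e3]
  have s3 : sep w z y p o = 1 := by rw [sep_root hw hzo hyo, n1', n3', e2]
  have hA : ∀ X, IsSplit w X → o ∉ X →
      (∀ x ∈ ({p, z, y, o} : Set V), x ∈ X → ∀ x' ∈ ({p, z, y, o} : Set V), x' ∈ X → x = x') ∨
      (∀ x ∈ ({p, z, y, o} : Set V), x ∉ X → ∀ x' ∈ ({p, z, y, o} : Set V), x' ∉ X → x = x') := by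
    intro X hX hoX
    by_cases hpX : p ∈ X <;> by_cases hzX : z ∈ X <;> by_cases hyX : y ∈ X
    · right
      rintro x (rfl | rfl | rfl | rfl) hx x' (rfl | rfl | rfl | rfl) hx' <;> first | rfl | contradiction
    · exact absurd (s1.symm.trans (hX p hpX z hzX y hyX o hoX)) e5
    · exact absurd (s2.symm.trans (hX p hpX y hyX z hzX o hoX)) e5
    · left
      rintro x (rfl | rfl | rfl | rfl) hx x' (rfl | rfl | rfl | rfl) hx' <;> first | rfl | contradiction
    · exact absurd (s3.symm.trans (hX z hzX y hyX p hpX o hoX)) e5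
    · left
      rintro x (rfl | rfl | rfl | rfl) hx x' (rfl | rfl | rfl | rfl) hx' <;> first | rfl | contradiction
    · left
      rintro x (rfl | rfl | rfl | rfl) hx x' (rfl | rfl | rfl | rfl) hx' <;> first | rfl | contradiction
    · left
      rintro x (rfl | rfl | rfl | rfl) hx x' (rfl | rfl | rfl | rfl) hx' <;> first | rfl | contradiction
  have hsk : Sk (fun _ : Unit => w) := fun _ => ⟨1, hw⟩
  have hQ : PPS (fun _ : Unit => w) ({p, z, y, o} : Set V) := by
    intro X hX
    by_cases hoX : o ∈ X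
    · rcases hA Xᶜ ((hX ()).compl hw) (fun h => h hoX) with h | h
      · exact Or.inr h
      · exact Or.inl fun x hx hxX x' hx' hxX' => h x hx (fun hh => hh hxX) x' hx' (fun hh => hh hxX')
    · exact hA X (hX ()) hoX
  have mp : p ∈ ({p, z, y, o} : Set V) := Or.inl rfl
  have mz : z ∈ ({p, z, y, o} : Set V) := Or.inr (Or.inl rfl)
  have my : y ∈ ({p, z, y, o} : Set V) := Or.inr (Or.inr (Or.inl rfl))
  have mo : o ∈ ({p, z, y, o} : Set V) := Or.inr (Or.inr (Or.inr rfl))
  obtain ⟨π, hπ, hsepπ⟩ := pp_of_pps hsk hQ mp mz my mo hpz hpy hpo hzy hzo hyo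
  have hpo' : π p ≠ π o := hsepπ p mp o mo hpo
  refine ⟨π, hπ, hpo', ?_, ?_⟩
  · have hall : ∀ r, Relation.ReflTransGen (fun a b => St w o c M a b ∧ ¬ (b = p ∨ St w o c M p b)) y r →
        π r ≠ π o := by
      intro r hr
      induction hr with
      | refl => exact hsepπ y my o mo hyo
      | tail h1 h2 ih =>
        rename_i b d
        intro hd
        obtain ⟨⟨hbM, hdM, hbd, hnbd⟩, hdn⟩ := h2
        rw [not_or] at hdn
        have hspl := (hπ.part o ()).compl hw
        have h3 : sep w b p d o = 0 := hspl b ih p hpo' d (fun h => h hd) o (fun h => h rfl)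
        rw [sep_root hw (hmO hbM) hpo, e1 _ _ hnbd] at h3
        have h4 : nrm w o p d = c := by
          by_contra hne
          exact hdn.2 ⟨hp, hdM, fun e => hdn.1 e.symm, hne⟩
        rw [h4, e3] at h3
        exact e5 h3
    exact hall q hyq
  · intro v hv
    have hMs : CSpl (fun _ : Unit => w) Mᶜ := fun _ => hM.compl hw
    exact pp_small hπ hMs (a := p) (b := z) (fun h => h hp) (fun h => h hzM) (hsepπ p mp z mz hpz) hv ho

end Pool.Agent.SOW
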