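import Pool.Agent.SOW.NoW4
import Pool.Agent.SOW.Tour

/-! Project SOW, module APlus (size 3): Theorem A+: every pair of W4 is separated by a split of every tournament which solves the equations. -/

set_option autoImplicit false

open Set

namespace Pool.Agent.SOW

open Pool.Agent.SOC Pool.Agent.SOS

variable {V : Type} {G : SimpleGraph V} {w : V → V → ZMod 2}

theorem aplus_aux (hw : Skew 1 w) {p p' q q' : V} (h3 : p ≠ q) (h6 : p' ≠ q')
    (h0 : sep w p p' q q' = 0) (hno : ¬ ∃ X, p ∈ X ∧ p' ∈ X ∧ q ∉ X ∧ q' ∉ X ∧ IsSplit w X) {M : Set V} (hM : IsSplit w M)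
    (hp : p ∈ M) (hq : q ∈ M) (hp' : p' ∉ M) (hq' : q' ∉ M) :
    ∃ π : V → Set V, PP (fun _ : Unit => w) π ∧ π p ≠ π p' ∧ π q ≠ π q' := by
  by_cases k1 : Relation.ReflTransGen (St w p' (nrm w p' p q) M) p q
  · obtain ⟨π, a1, a2, a3, a4⟩ := path_pp hw hM hp' hp hq h3 k1
    exact ⟨π, a1, a2, by rw [a4 q' hq']; exact a3⟩
  · by_cases k2 : Relation.ReflTransGen (St w p (nrm w p p' q') Mᶜ) p' q'
    · obtain ⟨π, a1, a2, a3, a4⟩ := path_pp hw (IsSplit.compl hw hM) (o := p) (fun h => h hp) hp' hq' h6 k2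
      exact ⟨π, a1, a2.symm, by rw [a4 q (fun h => h hq)]; exact a3.symm⟩
    · exact absurd (cut_cut hw hM hp hq hp' hq' h3 h6 h0 k1 k2) hno

/-- PROOF. Q := {p, p', q, q'}. If PPS (fun _ => w) Q: pp_of_pps (four different points) separates all of them. Otherwise there is a split X of w with two points of Q in X and two not in X. By hno (for X and for its complement, IsSplit.compl) these are not the pairs {p, p'}, {q, q'}. So (replace X by its complement if necessary) p, q ∈ X, p', q' ∉ X, or p, q' ∈ X, p', q ∉ X. In the second case exchange q and q' (sep_swap_right; the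
conclusion is symmetric). First case: by cut_cut one of the two paths exists. path_pp with M = X, o = p': π p ≠ π p', π q ≠ π p' = π q' (q' ∉ M). Or path_pp with M = Xᶜ, o = p (p' , q' in place of p, q): π p' ≠ π p, π q' ≠ π p = π q. -/
theorem lem_t (hw : Skew 1 w) {p p' q q' : V} (h1 : p ≠ p') (h2 : q ≠ q') (h3 : p ≠ q) (h4 : p ≠ q') (h5 : p' ≠ q) (h6 : p' ≠ q')
    (h0 : sep w p p' q q' = 0) (hno : ¬ ∃ X, p ∈ X ∧ p' ∈ X ∧ q ∉ X ∧ q' ∉ X ∧ IsSplit w X) :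
    ∃ π : V → Set V, PP (fun _ : Unit => w) π ∧ π p ≠ π p' ∧ π q ≠ π q' := by
  have hno' : ¬ ∃ X, p ∈ X ∧ p' ∈ X ∧ q' ∉ X ∧ q ∉ X ∧ IsSplit w X := by
    rintro ⟨X, a1, a2, a3, a4, a5⟩
    exact hno ⟨X, a1, a2, a4, a3, a5⟩
  have h0' : sep w p p' q' q = 0 := by rw [sep_swap_right]; exact h0
  have sw : (∃ π : V → Set V, PP (fun _ : Unit => w) π ∧ π p ≠ π p' ∧ π q' ≠ π q) →
      ∃ π : V → Set V, PP (fun _ : Unit => w) π ∧ π p ≠ π p' ∧ π q ≠ π q' := by
    rintro ⟨π, a1, a2, a3⟩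
    exact ⟨π, a1, a2, a3.symm⟩
  by_cases hQ : PPS (fun _ : Unit => w) ({p, p', q, q'} : Set V)
  · obtain ⟨π, a1, a2⟩ := pp_of_pps (w := fun _ : Unit => w) (fun _ => ⟨1, hw⟩) hQ (a := p) (b := p') (c := q) (d := q')
      (by simp) (by simp) (by simp) (by simp) h1 h3 h4 h5 h6 h2
    exact ⟨π, a1, a2 p (by simp) p' (by simp) h1, a2 q (by simp) q' (by simp) h2⟩
  · unfold PPS at hQ
    push Not at hQ
    obtain ⟨X, hX, ⟨x, hx, hxX, x', hx', hxX', hxx⟩, ⟨y, hy, hyX, y', hy', hyX', hyy⟩⟩ := hQ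
    have hS : IsSplit w X := hX ()
    have hS' : IsSplit w Xᶜ := IsSplit.compl hw hS
    have i1 : (p ∈ X ∧ p' ∈ X) ∨ (p ∈ X ∧ q ∈ X) ∨ (p ∈ X ∧ q' ∈ X) ∨ (p' ∈ X ∧ q ∈ X) ∨ (p' ∈ X ∧ q' ∈ X) ∨
        (q ∈ X ∧ q' ∈ X) := by
      simp only [mem_insert_iff, mem_singleton_iff] at hx hx'
      rcases hx with rfl | rfl | rfl | rfl <;> rcases hx' with rfl | rfl | rfl | rfl <;>
        first
        | exact absurd rfl hxx
        | simp only [hxX, hxX', and_self, true_or, or_true]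
    have i2 : (p ∉ X ∧ p' ∉ X) ∨ (p ∉ X ∧ q ∉ X) ∨ (p ∉ X ∧ q' ∉ X) ∨ (p' ∉ X ∧ q ∉ X) ∨ (p' ∉ X ∧ q' ∉ X) ∨
        (q ∉ X ∧ q' ∉ X) := by
      simp only [mem_insert_iff, mem_singleton_iff] at hy hy'
      rcases hy with rfl | rfl | rfl | rfl <;> rcases hy' with rfl | rfl | rfl | rfl <;>
        first
        | exact absurd rfl hyy
        | simp only [hyX, hyX', not_false_eq_true, and_self, true_or, or_true]
    by_cases j1 : p ∈ X <;> by_cases j2 : p' ∈ X <;> by_cases j3 : q ∈ X <;> by_cases j4 : q' ∈ X <;>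
      first
      | exact (hno ⟨X, j1, j2, j3, j4, hS⟩).elim
      | exact (hno ⟨Xᶜ, j1, j2, fun h => h j3, fun h => h j4, hS'⟩).elim
      | exact aplus_aux hw h3 h6 h0 hno hS j1 j3 j2 j4
      | exact aplus_aux hw h3 h6 h0 hno hS' j1 j3 (fun h => h j2) (fun h => h j4)
      | exact sw (aplus_aux hw h4 h5 h0' hno' hS j1 j4 j2 j3)
      | exact sw (aplus_aux hw h4 h5 h0' hno' hS' j1 j4 (fun h => h j2) (fun h => h j3))
      | (exfalso; simp only [j1, j2, j3, j4, not_true_eq_false, not_false_eq_true, and_self, and_true, true_and, and_false,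
          false_and, or_false, or_self] at i1 i2)

/-- PROOF: lem_t and no_w4 for the family fun _ : Unit => w. -/
theorem aplus (hG : PrimeG G) (hw : Skew 1 w) (hs : IsSol G w) (h4 : ∀ p p' q q' r, W4 G p p' q q' r → sep w p p' q q' = 0)
    (hfree : ∀ π : V → Set V, PP (fun _ : Unit => w) π → ∀ z, ¬ FreeC G π z) {p p' q q' r : V} (h : W4 G p p' q q' r) :
    ∃ X, p ∈ X ∧ p' ∈ X ∧ q ∉ X ∧ q' ∉ X ∧ IsSplit w X := by
  by_contra hno
  obtain ⟨π, hπ, k1, k2⟩ := lem_t hw h.d1 h.d2 h.pq.ne h.pq'.ne h.p'q.ne h.p'q'.ne (h4 _ _ _ _ _ h) hno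
  exact no_w4 (w := fun _ : Unit => w) hG ⟨fun _ => ⟨1, hw⟩, fun _ => hs, fun hh _ => h4 _ _ _ _ _ hh⟩ hfree hπ h k1 k2

end Pool.Agent.SOW
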