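import Pool.Agent.SOC.Strong
import Pool.Agent.SOS.Defs

/-! Project SOW (MP_66ba69_lc, wheels and the linear system), module Defs.

`w : ι → V → V → ZMod 2` is a family of functions (all of them are symmetric or tournaments), e.g. all solutions of a linear
system. `Nc w a b c d`: no function of the family crosses the pairs ab, cd. `CSpl w X`: `X` is a split of all of them. -/

set_option autoImplicit false

open Set

namespace Pool.Agent.SOW

open Pool.Agent.SOC Pool.Agent.SOS

/-- `p p'` and `q q'` are the opposite pairs of an induced 4-cycle, `r` is adjacent to its four vertices -/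
structure W4 {V : Type} (G : SimpleGraph V) (p p' q q' r : V) : Prop where
  n1 : ¬ G.Adj p p'
  n2 : ¬ G.Adj q q'
  d1 : p ≠ p'
  d2 : q ≠ q'
  pq : G.Adj p q
  pq' : G.Adj p q'
  p'q : G.Adj p' q
  p'q' : G.Adj p' q'
  rp : G.Adj r p
  rp' : G.Adj r p'
  rq : G.Adj r q
  rq' : G.Adj r q'

variable {V ι : Type}

/-- no function of the family crosses the pairs -/
def Nc (w : ι → V → V → ZMod 2) (a b c d : V) : Prop := ∀ i, sep (w i) a b c d = 0

/-- `X` is a split of all functions of the family -/
def CSpl (w : ι → V → V → ZMod 2) (X : Set V) : Prop := ∀ i, IsSplit (w i) X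

/-- every function of the family is symmetric or a tournament -/
def Sk (w : ι → V → V → ZMod 2) : Prop := ∀ i, ∃ e, Skew e (w i)

/-- a family of solutions of the linear equations given by the rigid pairs and the pairs of W4 -/
structure Fam (G : SimpleGraph V) (w : ι → V → V → ZMod 2) : Prop where
  sk : Sk w
  sol : ∀ i, IsSol G (w i)
  w4 : ∀ {p p' q q' r}, W4 G p p' q q' r → Nc w p p' q q'

/-- the fibres of `π` are at least four common splits, and every common split or its complement is contained in a fibre -/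
structure PP (w : ι → V → V → ZMod 2) (π : V → Set V) : Prop where
  part : ∀ v, CSpl w {u | π u = π v}
  prime : ∀ X, CSpl w X → (∃ v, ∀ x ∈ X, π x = π v) ∨ (∃ v, ∀ x, x ∉ X → π x = π v)
  four : ∃ a b c d, π a ≠ π b ∧ π a ≠ π c ∧ π a ≠ π d ∧ π b ≠ π c ∧ π b ≠ π d ∧ π c ≠ π d

/-- `v` is attached: it has a neighbour in another part -/
def Att (G : SimpleGraph V) (π : V → Set V) (v : V) : Prop := ∃ u, G.Adj v u ∧ π u ≠ π v

/-- nonadjacent attached vertices in different parts -/
def RR (G : SimpleGraph V) (π : V → Set V) (u v : V) : Prop := Att G π u ∧ Att G π v ∧ π u ≠ π v ∧ ¬ G.Adj u v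

/-- `u` and `v` are in the same letter -/
def Lt (G : SimpleGraph V) (π : V → Set V) : V → V → Prop := Relation.ReflTransGen (RR G π)

/-- disjoint edges between different parts are not rigid -/
def Hub (G : SimpleGraph V) (π : V → Set V) : Prop := ∀ a b c d, Rigid G a b c d → π a = π b ∨ π c = π d

/-- `z` is a free centre: `z` is alone in its part, and adjacent to all attached vertices -/
def FreeC (G : SimpleGraph V) (π : V → Set V) (z : V) : Prop :=
  (∀ u, π u = π z → u = z) ∧ ∀ u, Att G π u → u ≠ z → G.Adj z u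

/-- the link graph on the parts is connected -/
def LC (G : SimpleGraph V) (π : V → Set V) : Prop := ∀ u v,
  Relation.ReflTransGen (fun κ κ' => ∃ a b, π a = κ ∧ π b = κ' ∧ RR G π a b) (π u) (π v)

/-- pairs in different letters are not crossed -/
def ND (G : SimpleGraph V) (w : ι → V → V → ZMod 2) (π : V → Set V) : Prop :=
  ∀ x x' y y', RR G π x x' → RR G π y y' → ¬ Lt G π x y → Nc w x x' y y'

/-- all links go through the part `c`, every other part is linked to `c`, links at different parts are not crossed -/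
structure Star (G : SimpleGraph V) (w : ι → V → V → ZMod 2) (π : V → Set V) (c : Set V) : Prop where
  mem : ∃ v, π v = c
  all : ∀ u v, RR G π u v → π u = c ∨ π v = c
  leaf : ∀ v, π v ≠ c → ∃ a b, π a = c ∧ π b = π v ∧ RR G π a b
  diff : ∀ a b a' b', RR G π a b → RR G π a' b' → π a = c → π a' = c → π b ≠ π b' →
    G.Adj a a' ∧ G.Adj b b' ∧ G.Adj a b' ∧ G.Adj a' b ∧ Nc w a b a' b'

/-- every common split contains at most one or all but at most one of the points of `Q` -/
def PPS (w : ι → V → V → ZMod 2) (Q : Set V) : Prop := ∀ X, CSpl w X →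
  (∀ x ∈ Q, x ∈ X → ∀ x' ∈ Q, x' ∈ X → x = x') ∨ (∀ x ∈ Q, x ∉ X → ∀ x' ∈ Q, x' ∉ X → x = x')

/-! ### basic facts -/

variable {w : ι → V → V → ZMod 2} {G : SimpleGraph V} {π : V → Set V}

theorem Nc.left {a b c p q : V} (h : Nc w a b p q) (h' : Nc w b c p q) : Nc w a c p q := fun i => by
  rw [← sep_add_left (w i) a b c p q, h i, h' i, add_zero]

theorem Nc.right {a b p q r : V} (h : Nc w a b p q) (h' : Nc w a b q r) : Nc w a b p r := fun i => by
  rw [← sep_add_right (w i) a b p q r, h i, h' i, add_zero]

theorem Nc.sl {a b p q : V} (h : Nc w a b p q) : Nc w b a p q := fun i => by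
  rw [sep_swap_left]; exact h i

theorem Nc.sr {a b p q : V} (h : Nc w a b p q) : Nc w a b q p := fun i => by
  rw [sep_swap_right]; exact h i

theorem Nc.comm (hw : Sk w) {a b c d : V} (h1 : a ≠ c) (h2 : a ≠ d) (h3 : b ≠ c) (h4 : b ≠ d) (h : Nc w a b c d) :
    Nc w c d a b := fun i => by
  obtain ⟨e, he⟩ := hw i
  rw [← sep_comm he h1 h2 h3 h4]; exact h i

theorem Nc.refl_left (a p q : V) : Nc w a a p q := fun i => sep_self_left (w i) a p q

theorem Nc.refl_right (a b p : V) : Nc w a b p p := fun i => sep_self_right (w i) a b p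

theorem cspl_iff {X : Set V} : CSpl w X ↔ ∀ x ∈ X, ∀ x' ∈ X, ∀ y, y ∉ X → ∀ y', y' ∉ X → Nc w x x' y y' :=
  ⟨fun h x hx x' hx' y hy y' hy' i => h i x hx x' hx' y hy y' hy',
    fun h i x hx x' hx' y hy y' hy' => h x hx x' hx' y hy y' hy' i⟩

theorem cspl_compl (hw : Sk w) {X : Set V} (h : CSpl w X) : CSpl w Xᶜ := fun i => by
  obtain ⟨e, he⟩ := hw i
  exact IsSplit.compl he (h i)

theorem RR.symm {u v : V} (h : RR G π u v) : RR G π v u :=
  ⟨h.2.1, h.1, fun e => h.2.2.1 e.symm, fun e => h.2.2.2 e.symm⟩

theorem Lt.symm {u v : V} (h : Lt G π u v) : Lt G π v u := by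
  induction h with
  | refl => exact Relation.ReflTransGen.refl
  | tail _ h2 ih => exact Relation.ReflTransGen.head h2.symm ih

theorem Lt.trans {u v x : V} (h : Lt G π u v) (h' : Lt G π v x) : Lt G π u x := Relation.ReflTransGen.trans h h'

theorem RR.lt {u v : V} (h : RR G π u v) : Lt G π u v := Relation.ReflTransGen.single h

end Pool.Agent.SOW
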