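import Pool.Agent.SOW.Defs

/-! Project SOW, module Hubs (size 3): nonadjacent attached vertices and letters. -/

set_option autoImplicit false

open Set

namespace Pool.Agent.SOW

open Pool.Agent.SOC Pool.Agent.SOS

variable {V : Type} {G : SimpleGraph V} {π : V → Set V}

/-- PROOF. x ≠ x' (¬ G.Adj x' y), y ≠ y', x ≠ y', y ≠ x' (parts). Rigid G x y x' y' is impossible (hH: π x ≠ π y, π x' ≠ π y'), so
(x ~ x' ∧ y ~ y') or (x ~ y' ∧ y ~ x'); the second contradicts hn. -/
theorem nbr_diff (hH : Hub G π) {x x' y y' : V} (h : π x = π x') (h1 : G.Adj x y) (h2 : π y ≠ π x) (h3 : G.Adj x' y')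
    (h4 : π y' ≠ π x') (hn : ¬ G.Adj x' y) : G.Adj x x' ∧ G.Adj y y' := by
  by_contra hcon
  have hr : Rigid G x y x' y' := by
    refine ⟨h1, h3, ?_, ?_, ?_, ?_, hcon, fun hc => hn hc.2.symm⟩
    · rintro rfl; exact hn h1
    · rintro rfl; exact h4 h
    · rintro rfl; exact h2 h.symm
    · rintro rfl; exact hn h3
  rcases hH _ _ _ _ hr with h5 | h5
  · exact h2 h5.symm
  · exact h4 h5.symm

/-- PROOF. x' is attached: x' ~ y', π y' ≠ π x'. If y = y' done. Otherwise the edges x y and x' y' are disjoint (x ≠ y' and y ≠ x' since x, x' are not adjacent), not rigid; the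
alternative x ~ x' is false, so x ~ y' and y ~ x'. -/
theorem rr_nbr (hH : Hub G π) {x x' y : V} (h : RR G π x x') (h1 : G.Adj x y) (h2 : π y ≠ π x) : G.Adj x' y := by
  obtain ⟨_, ⟨u, hu1, hu2⟩, hne, hna⟩ := h
  by_contra hn
  have hr : Rigid G x y x' u := by
    refine ⟨h1, hu1, ?_, ?_, ?_, ?_, fun hc => hna hc.1, fun hc => hn hc.2.symm⟩
    · rintro rfl; exact hne rfl
    · rintro rfl; exact hna hu1.symm
    · rintro rfl; exact hna h1
    · rintro rfl; exact hn hu1
  rcases hH _ _ _ _ hr with h5 | h5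
  · exact h2 h5.symm
  · exact hu2 h5.symm

/-- PROOF: otherwise x ~ z; rr_nbr for RR z y and z ~ x gives y ~ x. -/
theorem rr_trans (hH : Hub G π) {x y z : V} (h1 : RR G π x y) (h2 : RR G π y z) (h3 : π x ≠ π z) : RR G π x z := by
  refine ⟨h1.1, h2.2.1, h3, fun hxz => ?_⟩
  have := rr_nbr hH h2.symm hxz.symm h3
  exact h1.2.2.2 this.symm

theorem hubs_adj1 (hH : Hub G π) {x x' u : V} (h : RR G π x x') (hu : Att G π u) (hn : ¬ Lt G π x u) :
    G.Adj x u := by
  by_cases hp : π x = π u
  · have h1 : G.Adj x' u := by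
      by_contra h2
      have h3 : RR G π x' u := ⟨h.2.1, hu, fun e => h.2.2.1 (hp.trans e.symm), h2⟩
      exact hn (h.lt.trans h3.lt)
    obtain ⟨y, hy1, hy2⟩ := h.1
    exact (nbr_diff hH hp.symm h1.symm (fun e => h.2.2.1 (hp.trans e.symm)) hy1 hy2 h.2.2.2).1.symm
  · by_contra h2
    exact hn (RR.lt ⟨h.1, hu, hp, h2⟩)

/-- PROOF. (i) G.Adj x u. If π x ≠ π u: otherwise RR x u, so Lt x u. If π x = π u: first x' ~ u (otherwise RR x' u [π x' ≠ π u], so Lt x u). x is attached: x ~ y, π y ≠ π x. nbr_diff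
with u, x (u ~ x', x ~ y, ¬ x ~ x'): u ~ x. (ii) G.Adj x' u: the same for RR x' x (¬ Lt x' u, since Lt x x'). -/
theorem rr_adj (hH : Hub G π) {x x' u : V} (h : RR G π x x') (hu : Att G π u) (hn : ¬ Lt G π x u) :
    G.Adj x u ∧ G.Adj x' u :=
  ⟨hubs_adj1 hH h hu hn, hubs_adj1 hH h.symm hu fun e => hn (h.lt.trans e)⟩

/-- inside two parts `i, j` a vertex `t` of a third part which is related to `u` is related to everything reachable. PROOF: induction on the path; step: RR t u', RR u' u'', π t ≠ π u'':
rr_trans. -/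
theorem rr_comp (hH : Hub G π) {i j : Set V} {t u v : V} (hi : π t ≠ i) (hj : π t ≠ j) (h : RR G π t u)
    (hp : Relation.ReflTransGen (fun x y => RR G π x y ∧ (π y = i ∨ π y = j)) u v) : RR G π t v := by
  induction hp with
  | refl => exact h
  | tail _ hs ih =>
    refine rr_trans hH ih hs.1 ?_
    rcases hs.2 with e | e
    · rw [e]; exact hi
    · rw [e]; exact hj

theorem hubs_exit (hH : Hub G π) {i j : Set V} {a t : V} (ht : π t ≠ i) (ht' : π t ≠ j)
    (hl : Lt G π a t) (ha : π a = i ∨ π a = j) : ∃ t', π t' ≠ i ∧ π t' ≠ j ∧ RR G π t' a := by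
  induction hl using Relation.ReflTransGen.head_induction_on with
  | refl =>
    rcases ha with e | e
    · exact absurd e ht
    · exact absurd e ht'
  | head hac hct ih =>
    rename_i a c
    clear hct
    by_cases hc : π c = i ∨ π c = j
    · obtain ⟨t', h1, h2, h3⟩ := ih hc
      refine ⟨t', h1, h2, rr_trans hH h3 hac.symm ?_⟩
      rcases ha with e | e
      · rw [e]; exact h1
      · rw [e]; exact h2
    · push Not at hc
      exact ⟨c, hc.1, hc.2, hac.symm⟩

/-- paths of length `n` -/
def hubs_path (G : SimpleGraph V) (π : V → Set V) : ℕ → V → V → Prop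
  | 0, a, b => a = b
  | n + 1, a, b => ∃ c, RR G π a c ∧ hubs_path G π n c b

theorem hubs_path_exists {a b : V} (h : Lt G π a b) : ∃ n, hubs_path G π n a b := by
  induction h using Relation.ReflTransGen.head_induction_on with
  | refl => exact ⟨0, rfl⟩
  | head hac _ ih =>
    obtain ⟨n, hn⟩ := ih
    exact ⟨n + 1, _, hac, hn⟩

theorem hubs_wide (hH : Hub G π) (n : ℕ) : ∀ a b t : V, hubs_path G π n a b → Lt G π a t →
    π a ≠ π b → π t ≠ π a → π t ≠ π b → RR G π a b := by
  induction n using Nat.strong_induction_on with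
  | _ n ih =>
    intro a b t hp hat hab hta htb
    match n, ih, hp with
    | 0, _, hp => exact absurd (congrArg π hp) hab
    | 1, _, hp =>
      obtain ⟨c, hc, hcb⟩ := hp
      have e : c = b := hcb
      rw [← e]; exact hc
    | k + 2, ih, hp =>
      obtain ⟨a₁, h01, hp1⟩ := hp
      obtain ⟨a₂, h12, hp2⟩ := id hp1
      by_cases h1b : π a₁ = π b
      · by_cases h2a : π a₂ = π a
        · have h2b : RR G π a₂ b := by
            refine ih k (by omega) a₂ b t hp2 ((h12.symm.lt.trans h01.symm.lt).trans hat) ?_ ?_ htb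
            · rw [h2a]; exact hab
            · rw [h2a]; exact hta
          obtain ⟨t', g1, g2, g3⟩ := hubs_exit hH hta htb hat (Or.inl rfl)
          have g4 : RR G π t' a₁ := rr_trans hH g3 h01 (by rw [h1b]; exact g2)
          have g5 : RR G π t' a₂ := rr_trans hH g4 h12 (by rw [h2a]; exact g1)
          have g6 : RR G π t' b := rr_trans hH g5 h2b g2
          exact rr_trans hH g3.symm g6 hab
        · have h02 : RR G π a a₂ := rr_trans hH h01 h12 fun e => h2a e.symm
          exact ih (k + 1) (by omega) a b t ⟨a₂, h02, hp2⟩ hat hab hta htb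
      · have h1b' : RR G π a₁ b := by
          by_cases ht1 : π t = π a₁
          · exact ih (k + 1) (by omega) a₁ b a hp1 h01.symm.lt h1b h01.2.2.1 hab
          · exact ih (k + 1) (by omega) a₁ b t hp1 (h01.symm.lt.trans hat) h1b ht1 htb
        exact rr_trans hH h01 h1b' hab

/-- PROOF. (0) For a letter containing a and t with π t ∉ {i, j}, π a ∈ {i, j}: there is t' with RR t' u, π t' ∉ {i, j}, and u reachable from a inside {i, j}: first exit of a path from a to t (induction on
the path). By symmetry (reverse the path; all its vertices are in {i, j}) and rr_comp: RR t' a. (1) Claim for all n, for all a b with π a ≠ π b and an RR-path of length n from a to b, and a vertex t with Lt a t,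
π t ≠ π a, π t ≠ π b: RR a b. Strong induction on n (state the claim with a path given by a function f : ℕ → V, f 0 = a, f n = b, RR (f k) (f (k+1))). n = 0 impossible, n = 1 clear. n ≥ 2: a₁ = f 1. If
π a₁ ≠ π b: [if π t ≠ π a₁ the induction hypothesis for a₁, b, t gives RR a₁ b; if π t = π a₁: π a is a third part: use a as the third vertex for the pair a₁, b: π a ≠ π a₁, π a ≠ π b: induction hypothesis RR a₁ b]; then
rr_trans: RR a b. If π a₁ = π b: a₂ = f 2, π a₂ ≠ π a₁ = π b, so n ≥ 3. If π a₂ ≠ π a: RR a a₂ (rr_trans), so there is a path of length n - 1 from a to b: a, a₂, f 3, .., b. Induction hypothesis. If π a₂ = π a: the pair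
a₂, b, path of length n - 2, third vertex t: RR a₂ b. So a, a₁, a₂, b is a path inside the parts i = π a, j = π b, and t is outside: by (0) RR t' a for some t', π t' ∉ {i, j}; rr_comp: RR t' b; rr_trans: RR a b. -/
theorem wide_rr (hH : Hub G π) {a b t : V} (hab : Lt G π a b) (hat : Lt G π a t) (h1 : π a ≠ π b) (h2 : π t ≠ π a)
    (h3 : π t ≠ π b) : RR G π a b := by
  obtain ⟨n, hn⟩ := hubs_path_exists hab
  exact hubs_wide hH n a b t hn hat h1 h2 h3

end Pool.Agent.SOW
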