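import Pool.Agent.SOW.Pts

/-! Project SOW, module Iso (size 3): in a star the centre ends of the links form a prime set of points. -/

set_option autoImplicit false

open Set

namespace Pool.Agent.SOW

open Pool.Agent.SOC Pool.Agent.SOS

variable {V ι : Type} {w : ι → V → V → ZMod 2} {G : SimpleGraph V} {π : V → Set V}

/-- a choice of links in a star: `p κ` in the centre, `p' κ` in the leaf `κ` -/
structure Ch (G : SimpleGraph V) (w : ι → V → V → ZMod 2) (π : V → Set V) (c : Set V) (p p' : Set V → V) : Prop where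
  hp : ∀ v, π v ≠ c → π (p (π v)) = c
  hp' : ∀ v, π v ≠ c → π (p' (π v)) = π v
  rr : ∀ v, π v ≠ c → RR G π (p (π v)) (p' (π v))

/-- PROOF: Star.leaf and choice. One link can be prescribed: see ch_exists'. -/
theorem ch_exists {c : Set V} (hs : Star G w π c) : ∃ p p', Ch G w π c p p' := by
  classical
  obtain ⟨v₀, hv₀⟩ := hs.mem
  have key : ∀ κ : Set V, ∃ a b : V, (∃ v, π v = κ ∧ κ ≠ c) → π a = c ∧ π b = κ ∧ RR G π a b := by
    intro κ
    by_cases h : ∃ v, π v = κ ∧ κ ≠ c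
    · obtain ⟨v, rfl, hv⟩ := h
      obtain ⟨a, b, h1, h2, h3⟩ := hs.leaf v hv
      exact ⟨a, b, fun _ => ⟨h1, h2, h3⟩⟩
    · exact ⟨v₀, v₀, fun h' => absurd h' h⟩
  choose p p' h using key
  exact ⟨p, p', fun v hv => (h (π v) ⟨v, rfl, hv⟩).1, fun v hv => (h (π v) ⟨v, rfl, hv⟩).2.1,
    fun v hv => (h (π v) ⟨v, rfl, hv⟩).2.2⟩

/-- links can be prescribed at some leaves. PROOF: ch_exists and: p κ := if κ ∈ K then a κ else .., the same for p' (a leaf κ = π v ≠ c; for κ ∈ K use h). -/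
theorem ch_extend {c : Set V} (hs : Star G w π c) (K : Set (Set V)) (a b : Set V → V)
    (h : ∀ κ ∈ K, π (a κ) = c ∧ π (b κ) = κ ∧ RR G π (a κ) (b κ)) :
    ∃ p p', Ch G w π c p p' ∧ ∀ κ ∈ K, p κ = a κ ∧ p' κ = b κ := by
  classical
  obtain ⟨p, p', hp⟩ := ch_exists hs
  refine ⟨fun κ => if κ ∈ K then a κ else p κ, fun κ => if κ ∈ K then b κ else p' κ, ⟨?_, ?_, ?_⟩, ?_⟩
  · intro v hv
    by_cases hk : π v ∈ K
    · simp only [if_pos hk]
      exact (h _ hk).1
    · simp only [if_neg hk]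
      exact hp.hp v hv
  · intro v hv
    by_cases hk : π v ∈ K
    · simp only [if_pos hk]
      exact (h _ hk).2.1
    · simp only [if_neg hk]
      exact hp.hp' v hv
  · intro v hv
    by_cases hk : π v ∈ K
    · simp only [if_pos hk]
      exact (h _ hk).2.2
    · simp only [if_neg hk]
      exact hp.rr v hv
  · intro κ hκ
    exact ⟨if_pos hκ, if_pos hκ⟩

/-- two links at different leaves t, s against a third one u: PROOF: Star.diff gives Nc (p t) (p' t) (p u) (p' u) and Nc (p s) (p' s) (p u) (p' u), where p t = p (π t) etc. Nc.left. Both directions. -/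
theorem ch_three {c : Set V} {p p' : Set V → V} (hs : Star G w π c) (h : Ch G w π c p p') {t s u : V} (ht : π t ≠ c) (hs' : π s ≠ c)
    (hu : π u ≠ c) (h1 : π t ≠ π u) (h2 : π s ≠ π u) :
    Nc w (p (π t)) (p (π s)) (p (π u)) (p' (π u)) ↔ Nc w (p' (π t)) (p' (π s)) (p (π u)) (p' (π u)) := by
  have d1 := (hs.diff _ _ _ _ (h.rr t ht) (h.rr u hu) (h.hp t ht) (h.hp u hu)
    (by rw [h.hp' t ht, h.hp' u hu]; exact h1)).2.2.2.2
  have d2 := (hs.diff _ _ _ _ (h.rr s hs') (h.rr u hu) (h.hp s hs') (h.hp u hu)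
    (by rw [h.hp' s hs', h.hp' u hu]; exact h2)).2.2.2.2
  exact ⟨fun h3 => (d1.sl.left h3).left d2, fun h3 => (d1.left h3).left d2.sl⟩

/-- PROOF. Write p_t for p (π t). For every i: sep (w i) p_t p_s p_u p_v = sep p_t p_s p_u p'_u + sep p_t p_s p'_u p'_v + sep p_t p_s p'_v p_v (sep_add_right). The middle term is 0 (the part c is a common split, p'_u, p'_v ∉ c). By Star.diff (as an identity of
values: sep p_t p'_t p_u p'_u = 0, sep p_s p'_s p_u p'_u = 0 and sep_add_left) sep p_t p_s p_u p'_u = sep p'_t p'_s p_u p'_u, the same for v. So the sum is sep p'_t p'_s p_u p'_u + sep p'_t p'_s p'_v p_v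
= sep p'_t p'_s p'_u p'_v + sep p'_t p'_s p_u p_v (sep_add_right) and the last term is 0 (c is a common split, comm). -/
theorem ch_four (hw : Sk w) (hπ : PP w π) {c : Set V} {p p' : Set V → V} (hs : Star G w π c) (h : Ch G w π c p p') {t s u v : V}
    (ht : π t ≠ c) (hs' : π s ≠ c) (hu : π u ≠ c) (hv : π v ≠ c) (h1 : π t ≠ π u) (h2 : π s ≠ π u) (h3 : π t ≠ π v) (h4 : π s ≠ π v) :
    Nc w (p (π t)) (p (π s)) (p (π u)) (p (π v)) ↔ Nc w (p' (π t)) (p' (π s)) (p' (π u)) (p' (π v)) := by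
  obtain ⟨v₀, hv₀⟩ := hs.mem
  have hc := hπ.part v₀
  have hin : ∀ {x : V}, π x = c → x ∈ {u | π u = π v₀} := fun hx => hx.trans hv₀.symm
  have hout : ∀ {x : V}, π x ≠ c → x ∉ {u | π u = π v₀} := fun hx h => hx (h.trans hv₀)
  have pt := h.hp t ht
  have ps := h.hp s hs'
  have pu := h.hp u hu
  have pv := h.hp v hv
  have pt' : π (p' (π t)) ≠ c := by rw [h.hp' t ht]; exact ht
  have ps' : π (p' (π s)) ≠ c := by rw [h.hp' s hs']; exact hs'
  have pu' : π (p' (π u)) ≠ c := by rw [h.hp' u hu]; exact hu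
  have pv' : π (p' (π v)) ≠ c := by rw [h.hp' v hv]; exact hv
  have m1 : Nc w (p (π t)) (p (π s)) (p' (π u)) (p' (π v)) :=
    cspl_iff.1 hc _ (hin pt) _ (hin ps) _ (hout pu') _ (hout pv')
  have m2 : Nc w (p (π u)) (p (π v)) (p' (π t)) (p' (π s)) :=
    cspl_iff.1 hc _ (hin pu) _ (hin pv) _ (hout pt') _ (hout ps')
  have ne : ∀ {x y : V}, π x = c → π y ≠ c → x ≠ y := fun hx hy e => hy (e ▸ hx)
  have m3 : Nc w (p' (π t)) (p' (π s)) (p (π u)) (p (π v)) :=
    m2.comm hw (ne pu pt') (ne pu ps') (ne pv pt') (ne pv ps')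
  have dtu := (hs.diff _ _ _ _ (h.rr t ht) (h.rr u hu) pt pu (by rw [h.hp' t ht, h.hp' u hu]; exact h1)).2.2.2.2
  have dsu := (hs.diff _ _ _ _ (h.rr s hs') (h.rr u hu) ps pu (by rw [h.hp' s hs', h.hp' u hu]; exact h2)).2.2.2.2
  have dtv := (hs.diff _ _ _ _ (h.rr t ht) (h.rr v hv) pt pv (by rw [h.hp' t ht, h.hp' v hv]; exact h3)).2.2.2.2
  have dsv := (hs.diff _ _ _ _ (h.rr s hs') (h.rr v hv) ps pv (by rw [h.hp' s hs', h.hp' v hv]; exact h4)).2.2.2.2
  have key : ∀ i, sep (w i) (p (π t)) (p (π s)) (p (π u)) (p (π v)) =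
      sep (w i) (p' (π t)) (p' (π s)) (p' (π u)) (p' (π v)) := by
    intro i
    have a1 := m1 i
    have a3 := m3 i
    have b1 := dtu i
    have b2 := dsu i
    have b3 := dtv i
    have b4 := dsv i
    -- reduce everything to values
    have c1 := sep_add_right (w i) (p (π t)) (p (π s)) (p (π u)) (p' (π u)) (p (π v))
    have c2 := sep_add_right (w i) (p (π t)) (p (π s)) (p' (π u)) (p' (π v)) (p (π v))
    have c3 : sep (w i) (p (π t)) (p (π s)) (p (π u)) (p' (π u)) =
        sep (w i) (p' (π t)) (p' (π s)) (p (π u)) (p' (π u)) := by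
      rw [← sep_add_left (w i) (p (π t)) (p' (π t)) (p (π s)), b1, zero_add,
        ← sep_add_left (w i) (p' (π t)) (p' (π s)) (p (π s)), sep_swap_left (w i) (p' (π s)) (p (π s)), b2,
        add_zero]
    have c4 : sep (w i) (p (π t)) (p (π s)) (p (π v)) (p' (π v)) =
        sep (w i) (p' (π t)) (p' (π s)) (p (π v)) (p' (π v)) := by
      rw [← sep_add_left (w i) (p (π t)) (p' (π t)) (p (π s)), b3, zero_add,
        ← sep_add_left (w i) (p' (π t)) (p' (π s)) (p (π s)), sep_swap_left (w i) (p' (π s)) (p (π s)), b4,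
        add_zero]
    rw [← c1, ← c2, a1, zero_add, c3, sep_swap_right (w i) (p (π t)) (p (π s)) (p' (π v)) (p (π v)), c4,
      ← sep_add_right (w i) (p' (π t)) (p' (π s)) (p (π u)) (p (π v)) (p' (π u)), a3, zero_add,
      add_comm, sep_swap_right (w i) (p' (π t)) (p' (π s)) (p (π v)) (p' (π v)),
      sep_add_right, sep_swap_right]
  exact ⟨fun hh i => (key i).symm.trans (hh i), fun hh i => (key i).trans (hh i)⟩

/-- PROOF. Q := the points p κ (κ a leaf) and y. Let X be a common split; we may assume y ∉ X (otherwise take the complement, which exchanges the two alternatives; cspl_compl). J := the set of all leaves κ with p κ ∈ X. Claim: {v | π v ∈ J} is a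
common split: cspl_of_reps with the representatives ρ v := p' (π v) for π v ≠ c and ρ v := any fixed vertex of c for π v = c. Let a, b have parts in J and c', d' not in J. If both π c', π d' ≠ c: p a, p b ∈ X, p c', p d' ∉ X, so Nc w (p a) (p b) (p c') (p d'),
ch_four. If π c' ≠ c = π d': Nc w (p a) (p b) (p c') y since X is a split; y and p' (π c') are both not in the part c, so Nc w (p c')... more precisely Nc w (p a) (p b) y (p' (π c')) (the part c is a common split), so Nc w (p a) (p b) (p c') (p' (π c'))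
(Nc.right), so Nc w (p' a) (p' b) (p c') (p' c') (ch_three), and Nc w (p' a) (p' b) (p c') (ρ d') as p c' and ρ d' are both in c (c is a common split, comm): so Nc w (p' a) (p' b) (ρ d') (p' c'). If both are c: ρ c' = ρ d', Nc.refl_right. pp_union: at most
one part in J: then at most one point of Q in X (first alternative). Or at most one part outside J: it is c (c ∉ J), so all leaves are in J, and only y is not in X (second alternative). -/
theorem pps_star (hw : Sk w) (hπ : PP w π) {c : Set V} {p p' : Set V → V} (hs : Star G w π c) (h : Ch G w π c p p') {y : V}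
    (hy : π y ≠ c) : PPS w ({x | ∃ v, π v ≠ c ∧ x = p (π v)} ∪ {y}) := by
  classical
  obtain ⟨v₀, hv₀⟩ := hs.mem
  have hc := hπ.part v₀
  have hin : ∀ {x : V}, π x = c → x ∈ {u | π u = π v₀} := fun hx => hx.trans hv₀.symm
  have hout : ∀ {x : V}, π x ≠ c → x ∉ {u | π u = π v₀} := fun hx h => hx (h.trans hv₀)
  have ne : ∀ {x y : V}, π x = c → π y ≠ c → x ≠ y := fun hx hy e => hy (e ▸ hx)
  have hp'c : ∀ {v : V}, π v ≠ c → π (p' (π v)) ≠ c := fun {v} hv => by rw [h.hp' v hv]; exact hv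
  have main : ∀ X, CSpl w X → y ∉ X →
      (∀ x ∈ ({x | ∃ v, π v ≠ c ∧ x = p (π v)} ∪ {y} : Set V), x ∈ X →
        ∀ x' ∈ ({x | ∃ v, π v ≠ c ∧ x = p (π v)} ∪ {y} : Set V), x' ∈ X → x = x') ∨
      (∀ x ∈ ({x | ∃ v, π v ≠ c ∧ x = p (π v)} ∪ {y} : Set V), x ∉ X →
        ∀ x' ∈ ({x | ∃ v, π v ≠ c ∧ x = p (π v)} ∪ {y} : Set V), x' ∉ X → x = x') := by
    intro X hX hyX
    obtain ⟨J, hJ⟩ : ∃ J : Set (Set V), J = {κ | κ ≠ c ∧ p κ ∈ X} := ⟨_, rfl⟩
    obtain ⟨ρ, hρd⟩ : ∃ ρ : V → V, ρ = fun v => if π v = c then v₀ else p' (π v) := ⟨_, rfl⟩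
    have hρ1 : ∀ {v}, π v = c → ρ v = v₀ := fun {v} hv => by rw [hρd]; exact if_pos hv
    have hρ2 : ∀ {v}, π v ≠ c → ρ v = p' (π v) := fun {v} hv => by rw [hρd]; exact if_neg hv
    have hρ : ∀ v, π (ρ v) = π v := by
      intro v
      by_cases hv : π v = c
      · rw [hρ1 hv, hv₀, hv]
      · rw [hρ2 hv, h.hp' v hv]
    -- one part is the centre
    have one : ∀ a b e d, π a ∈ J → π b ∈ J → π e ∉ J → π e ≠ c → π d = c →
        Nc w (ρ a) (ρ b) (ρ e) (ρ d) := by
      intro a b e d ha hb he hec hdc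
      rw [hJ] at ha hb he
      have heX : p (π e) ∉ X := fun h => he ⟨hec, h⟩
      have hae : π a ≠ π e := fun e' => heX (e' ▸ ha.2)
      have hbe : π b ≠ π e := fun e' => heX (e' ▸ hb.2)
      have n1 : Nc w (p (π a)) (p (π b)) (p (π e)) y := cspl_iff.1 hX _ ha.2 _ hb.2 _ heX _ hyX
      have n2 : Nc w (p (π a)) (p (π b)) y (p' (π e)) :=
        cspl_iff.1 hc _ (hin (h.hp a ha.1)) _ (hin (h.hp b hb.1)) _ (hout hy) _ (hout (hp'c hec))
      have n3 := (ch_three hs h ha.1 hb.1 hec hae hbe).1 (n1.right n2)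
      have n4 : Nc w v₀ (p (π e)) (p' (π a)) (p' (π b)) :=
        cspl_iff.1 hc _ (hin hv₀) _ (hin (h.hp e hec)) _ (hout (hp'c ha.1)) _ (hout (hp'c hb.1))
      have n5 := n4.comm hw (ne hv₀ (hp'c ha.1)) (ne hv₀ (hp'c hb.1)) (ne (h.hp e hec) (hp'c ha.1))
        (ne (h.hp e hec) (hp'c hb.1))
      rw [hρ2 ha.1, hρ2 hb.1, hρ2 hec, hρ1 hdc]
      exact (n5.right n3).sr
    have hspl : CSpl w {v | π v ∈ J} := by
      refine cspl_of_reps hw hπ.part hρ ?_
      intro a b e d ha hb he hd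
      by_cases hec : π e = c
      · by_cases hdc : π d = c
        · rw [hρ1 hec, hρ1 hdc]
          exact Nc.refl_right _ _ _
        · exact (one a b d e ha hb hd hdc hec).sr
      · by_cases hdc : π d = c
        · exact one a b e d ha hb he hec hdc
        · rw [hJ] at ha hb he hd
          have heX : p (π e) ∉ X := fun h => he ⟨hec, h⟩
          have hdX : p (π d) ∉ X := fun h => hd ⟨hdc, h⟩
          have hae : π a ≠ π e := fun e' => heX (e' ▸ ha.2)
          have hbe : π b ≠ π e := fun e' => heX (e' ▸ hb.2)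
          have had : π a ≠ π d := fun e' => hdX (e' ▸ ha.2)
          have hbd : π b ≠ π d := fun e' => hdX (e' ▸ hb.2)
          rw [hρ2 ha.1, hρ2 hb.1, hρ2 hec, hρ2 hdc]
          exact (ch_four hw hπ hs h ha.1 hb.1 hec hdc hae hbe had hbd).1
            (cspl_iff.1 hX _ ha.2 _ hb.2 _ heX _ hdX)
    rcases pp_union hπ hspl with h5 | h5
    · left
      rintro x (⟨v, hv, rfl⟩ | rfl) hx x' (⟨v', hv', rfl⟩ | rfl) hx'
      · rw [h5 v v' (by rw [hJ]; exact ⟨hv, hx⟩) (by rw [hJ]; exact ⟨hv', hx'⟩)]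
      · exact absurd hx' hyX
      · exact absurd hx hyX
      · exact absurd hx hyX
    · right
      have hcJ : π v₀ ∉ J := by
        rw [hJ]
        exact fun h => h.1 hv₀
      have hyx : ∀ x ∈ ({x | ∃ v, π v ≠ c ∧ x = p (π v)} ∪ {y} : Set V), x ∉ X → x = y := by
        rintro x (⟨v, hv, rfl⟩ | rfl) hx
        · have hvJ : π v ∉ J := by
            rw [hJ]
            exact fun h => hx h.2
          exact absurd ((h5 v v₀ hvJ hcJ).trans hv₀) hv
        · rfl
      intro x hx hxX x' hx' hxX'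
      rw [hyx x hx hxX, hyx x' hx' hxX']
  intro X hX
  by_cases hyX : y ∈ X
  · rcases main Xᶜ (cspl_compl hw hX) (fun h => h hyX) with h | h
    · exact Or.inr h
    · exact Or.inl fun x hx hxX x' hx' hxX' => h x hx (fun hh => hh hxX) x' hx' (fun hh => hh hxX')
  · exact main X hX hyX

/-- the other partition. PROOF. pps_star for y, pp_of_pps: there are at least three leaves (PP.four: three of the four parts are ≠ c), the points p κ of different leaves are different (Star.diff: adjacent), and different from y (parts). Get π'. Last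
claim: the complement of the part c is a common split (cspl_compl, PP.part); it avoids the points p κ, at least two of which have different values of π'; pp_small: π' v = π' y for π v ≠ c. -/
theorem twin_exists (hw : Sk w) (hπ : PP w π) {c : Set V} {p p' : Set V → V} (hs : Star G w π c) (h : Ch G w π c p p') {y : V}
    (hy : π y ≠ c) : ∃ π' : V → Set V, PP w π' ∧ (∀ u v, π u ≠ c → π v ≠ c → π u ≠ π v → π' (p (π u)) ≠ π' (p (π v))) ∧
      (∀ u, π u ≠ c → π' (p (π u)) ≠ π' y) ∧ ∀ v, π v ≠ c → π' v = π' y := by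
  have hadj : ∀ u v, π u ≠ c → π v ≠ c → π u ≠ π v → p (π u) ≠ p (π v) := by
    intro u v hu hv huv
    have := (hs.diff _ _ _ _ (h.rr u hu) (h.rr v hv) (h.hp u hu) (h.hp v hv)
      (by rw [h.hp' u hu, h.hp' v hv]; exact huv)).1
    exact this.ne
  have hne : ∀ u, π u ≠ c → p (π u) ≠ y := fun u hu e => hy (e ▸ h.hp u hu)
  have hthree : ∃ t s u, π t ≠ c ∧ π s ≠ c ∧ π u ≠ c ∧ π t ≠ π s ∧ π t ≠ π u ∧ π s ≠ π u := by
    obtain ⟨a, b, e, d, h1, h2, h3, h4, h5, h6⟩ := hπ.four
    by_cases ha : π a = c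
    · refine ⟨b, e, d, fun h => h1 (ha.trans h.symm), fun h => h2 (ha.trans h.symm),
        fun h => h3 (ha.trans h.symm), h4, h5, h6⟩
    · by_cases hb : π b = c
      · exact ⟨a, e, d, ha, fun h => h4 (hb.trans h.symm), fun h => h5 (hb.trans h.symm), h2, h3, h6⟩
      · by_cases he : π e = c
        · exact ⟨a, b, d, ha, hb, fun h => h6 (he.trans h.symm), h1, h3, h5⟩
        · exact ⟨a, b, e, ha, hb, he, h1, h2, h4⟩
  obtain ⟨t, s, u, ht, hs', hu, hts, htu, hsu⟩ := hthree
  have mem : ∀ v, π v ≠ c → p (π v) ∈ ({x | ∃ v, π v ≠ c ∧ x = p (π v)} ∪ {y} : Set V) :=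
    fun v hv => Or.inl ⟨v, hv, rfl⟩
  have memy : y ∈ ({x | ∃ v, π v ≠ c ∧ x = p (π v)} ∪ {y} : Set V) := Or.inr rfl
  obtain ⟨π', hπ', hsep⟩ := pp_of_pps hw (pps_star hw hπ hs h hy) (mem t ht) (mem s hs') (mem u hu) memy
    (hadj t s ht hs' hts) (hadj t u ht hu htu) (hne t ht) (hadj s u hs' hu hsu) (hne s hs') (hne u hu)
  refine ⟨π', hπ', fun a b ha hb hab => hsep _ (mem a ha) _ (mem b hb) (hadj a b ha hb hab),
    fun a ha => hsep _ (mem a ha) _ memy (hne a ha), fun v hv => ?_⟩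
  obtain ⟨v₀, hv₀⟩ := hs.mem
  have hc := cspl_compl hw (hπ.part v₀)
  exact pp_small hπ' hc (a := p (π t)) (b := p (π s)) (fun h' => h' ((h.hp t ht).trans hv₀.symm))
    (fun h' => h' ((h.hp s hs').trans hv₀.symm)) (hsep _ (mem t ht) _ (mem s hs') (hadj t s ht hs' hts))
    (fun h' => hv (h'.trans hv₀)) (fun h' => hy (h'.trans hv₀))

end Pool.Agent.SOW
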