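import Pool.Agent.SOW.Hubs

/-! Project SOW, module Link (size 3): the link graph is connected. -/

set_option autoImplicit false

open Set

namespace Pool.Agent.SOW

open Pool.Agent.SOC Pool.Agent.SOS

variable {V : Type} {G : SimpleGraph V} {π : V → Set V}

/-- PROOF. Suppose π v is not reachable from π u. C := {x | π x is reachable from π u}: a union of parts, u ∈ C, v ∉ C. For attached x ∈ C and attached y ∉ C: x ~ y, since otherwise RR x y (π x ≠ π y) and π y is
reachable. An edge between x ∈ C and y ∉ C has attached ends. So for x ∈ C, y ∉ C: x ~ y ↔ Att x ∧ Att y. G is connected: there is an edge a b, a ∈ C, b ∉ C. IsSpl G C a b: rect: Att a, Att b. PrimeG: C = {a} or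
Cᶜ = {b}. If C = {a}: FreeC G π a: π x = π a → x ∈ C → x = a; an attached x ≠ a is not in C, so a ~ x. If Cᶜ = {b}: FreeC G π b in the same way. Contradiction to hfree. -/
theorem link_conn (hG : PrimeG G) (hfree : ∀ z, ¬ FreeC G π z) : LC G π := by
  intro u v
  by_contra hnr
  obtain ⟨C, hC⟩ : ∃ C : Set V, C = {x | Relation.ReflTransGen
    (fun κ κ' => ∃ a b, π a = κ ∧ π b = κ' ∧ RR G π a b) (π u) (π x)} := ⟨_, rfl⟩
  have memC : ∀ x, x ∈ C ↔ Relation.ReflTransGen
      (fun κ κ' => ∃ a b, π a = κ ∧ π b = κ' ∧ RR G π a b) (π u) (π x) := by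
    intro x; rw [hC]; rfl
  have hpi : ∀ x y, π x = π y → x ∈ C → y ∈ C := by
    intro x y e hx
    rw [memC] at hx ⊢
    rw [← e]; exact hx
  have huC : u ∈ C := (memC u).2 Relation.ReflTransGen.refl
  have hvC : v ∉ C := fun h => hnr ((memC v).1 h)
  have hcomp : ∀ x y, x ∈ C → y ∉ C → Att G π x → Att G π y → G.Adj x y := by
    intro x y hx hy ax ay
    by_contra hn
    have hr : RR G π x y := ⟨ax, ay, fun e => hy (hpi x y e hx), hn⟩
    exact hy ((memC y).2 (((memC x).1 hx).tail ⟨x, y, rfl, rfl, hr⟩))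
  have hadj : ∀ x y, x ∈ C → y ∉ C → (G.Adj x y ↔ Att G π x ∧ Att G π y) := by
    intro x y hx hy
    constructor
    · intro h
      exact ⟨⟨y, h, fun e => hy (hpi x y e.symm hx)⟩, ⟨x, h.symm, fun e => hy (hpi x y e hx)⟩⟩
    · intro h
      exact hcomp x y hx hy h.1 h.2
  have hedge : ∃ a b, a ∈ C ∧ b ∉ C ∧ G.Adj a b := by
    by_contra hno
    push Not at hno
    have hreach := (SimpleGraph.reachable_iff_reflTransGen u v).1 (hG.1.preconnected u v)
    apply hvC
    clear hvC hnr
    induction hreach with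
    | refl => exact huC
    | tail _ hs ih =>
      rename_i b c _
      by_contra hc
      exact hno b c ih hc hs
  obtain ⟨a, b, ha, hb, hab⟩ := hedge
  have hatt := (hadj a b ha hb).1 hab
  have hspl : IsSpl G C a b := by
    refine ⟨ha, hb, hab, ?_⟩
    intro a' b' ha' hb'
    rw [hadj a' b' ha' hb', hadj a' b ha' hb, hadj a b' ha hb']
    constructor
    · rintro ⟨h1, h2⟩
      exact ⟨⟨h1, hatt.2⟩, ⟨hatt.1, h2⟩⟩
    · rintro ⟨⟨h1, _⟩, ⟨_, h2⟩⟩
      exact ⟨h1, h2⟩
  rcases hG.2 C a b hspl with hc | hc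
  · refine hfree a ⟨fun x hx => ?_, fun x hx hxa => ?_⟩
    · have : x ∈ C := hpi a x hx.symm ha
      rw [hc] at this
      exact this
    · have hxC : x ∉ C := by
        rw [hc]; exact hxa
      exact hcomp a x ha hxC hatt.1 hx
  · have hb' : ∀ x, x ∉ C → x = b := by
      intro x hx
      have : x ∈ Cᶜ := hx
      rw [hc] at this
      exact this
    refine hfree b ⟨fun x hx => ?_, fun x hx hxb => ?_⟩
    · exact hb' x fun h => hb (hpi x b hx h)
    · have hxC : x ∈ C := by
        by_contra h
        exact hxb (hb' x h)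
      exact (hcomp x b hxC hb hx hatt.2).symm

/-- every part is linked to another part, if there are two parts. PROOF: first step of the path from π u to π v. -/
theorem lc_link (h : LC G π) {u v : V} (hn : π u ≠ π v) : ∃ a b, π a = π u ∧ RR G π a b := by
  rcases Relation.ReflTransGen.cases_head (h u v) with e | ⟨κ, ⟨a, b, h1, _, h3⟩, _⟩
  · exact absurd e hn
  · exact ⟨a, b, h1, h3⟩

/-- a link leaves every set of parts. PROOF: the path from π u to π v leaves J at some step (induction). -/
theorem lc_exit (h : LC G π) {J : Set (Set V)} {u v : V} (hu : π u ∈ J) (hv : π v ∉ J) :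
    ∃ a b, π a ∈ J ∧ π b ∉ J ∧ RR G π a b := by
  by_contra hno
  push Not at hno
  have key : ∀ κ, Relation.ReflTransGen (fun κ κ' => ∃ a b, π a = κ ∧ π b = κ' ∧ RR G π a b) (π u) κ →
      κ ∈ J := by
    intro κ hκ
    induction hκ with
    | refl => exact hu
    | tail _ hs ih =>
      obtain ⟨a, b, h1, h2, h3⟩ := hs
      by_contra hc
      rw [← h2] at hc
      rw [← h1] at ih
      exact hno a b ih hc h3
  exact hv (key _ (h u v))

end Pool.Agent.SOW
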