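import Pool.Agent.SOW.Spl
import Pool.Agent.SOW.Link

/-! Project SOW, module Meet (size 4): links of different letters have a common part. -/

set_option autoImplicit false

open Set

namespace Pool.Agent.SOW

open Pool.Agent.SOC Pool.Agent.SOS

variable {V ι : Type} {w : ι → V → V → ZMod 2} {G : SimpleGraph V} {π : V → Set V}

/-- PROOF. Let i = π p, j = π p', L = the letter of p (all x with Lt p x), and suppose π q, π q' ∉ {i, j}. Write (κ κ' | λ λ') for: Nc w x x' y y' for all x, x', y, y' in these parts (by nc_parts it is enough to have it for one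
choice, if κ, κ' ≠ λ, λ'). D := the set of parts reachable from π q by steps κ → κ' with κ' ∉ {i, j} and: there are a, b with π a = κ, π b = κ', RR a b, ¬ Lt p a. (A D-step.) All parts in D are ∉ {i, j}; π q' ∈ D.
(1) (i j | κ κ') for a D-step κ → κ' inside D: hE for the pairs p p', a b (¬ Lt p a). By Nc.right: (i j | κ κ') for all κ, κ' ∈ D (through π q).
(2) Claim: for a vertex m with π m ∉ D: (π m i | κ κ') for all κ, κ' ∈ D. It is enough (Nc.right) to show it for D-steps κ → κ' with RR a b, ¬ Lt p a, π a = κ, π b = κ'. If π m ∈ {i, j}: clear / (1). Otherwise: say that a part μ ∉ D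
is good if (μ i | κ κ') for all D-steps κ → κ' of D. i, j are good. If μ ∉ D ∪ {i, j}, ν ∉ D, RR x y with π x = μ, π y = ν: then μ is good iff ν is good, since hE gives (μ ν | κ κ'): we need ¬ Lt x a: if Lt x a, then ¬ Lt p x, and
x, a, b are in one letter, in three different parts μ, κ, κ' (κ ≠ κ' as RR a b), so RR a x (wide_rr with third vertex b), which is a D-step from κ to μ: μ ∈ D, contradiction.
Every μ ∉ D ∪ {i, j} is good: there is a link path from μ to i (hc); follow it to the first part in D ∪ {i, j}: μ = μ_0, .., μ_t; μ_0, .., μ_(t-1) are not in D ∪ {i, j}, all good or none. If μ_t ∈ {i, j}: good. If μ_t ∈ D: RR x y with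
π x = μ_(t-1), π y = μ_t ∈ D: Lt p x (otherwise y → x is a D-step and μ_(t-1) ∈ D [¬ Lt p y as well, RR y x]). So x, p, p', y are in one letter with different parts μ_(t-1), i, j, μ_t: RR x p (wide_rr, third vertex p'): a link from μ_(t-1) to i:
so μ_(t-1) is good. [Formal: induction on the path with the statement: if π m ∉ D ∪ {i, j} then π m is good.]
(3) So {v | π v ∈ D} is a common split (cspl_of_reps or cspl_iff directly: x, x' ∉, y, y' ∈ the union: (π x i | ..), (π x' i | ..) and Nc.left; then Nc.comm). pp_union: at most one part in D: but π q ≠ π q' are both in D; or at most one part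
outside D: but i ≠ j. Contradiction. -/
theorem meet (hw : Sk w) (hπ : PP w π) (hH : Hub G π) (hc : LC G π) (hE : ND G w π) {p p' q q' : V} (hp : RR G π p p')
    (hq : RR G π q q') (hn : ¬ Lt G π p q) : π q = π p ∨ π q = π p' ∨ π q' = π p ∨ π q' = π p' := by
  by_contra hcon
  push Not at hcon
  obtain ⟨c1, c2, c3, c4⟩ := hcon
  have hpart := hπ.part
  -- the steps and the set of reachable parts
  let St : Set V → Set V → Prop := fun κ κ' => κ' ≠ π p ∧ κ' ≠ π p' ∧ ∃ a b, π a = κ ∧ π b = κ' ∧ RR G π a b ∧ ¬ Lt G π p a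
  let D : Set V → Prop := fun κ => Relation.ReflTransGen St (π q) κ
  have hDi : ∀ κ, D κ → κ ≠ π p ∧ κ ≠ π p' := by
    intro κ h
    rcases Relation.ReflTransGen.cases_tail h with h | ⟨_, _, h⟩
    · rw [h]; exact ⟨c1, c2⟩
    · exact ⟨h.1, h.2.1⟩
  have hDq : D (π q) := Relation.ReflTransGen.refl
  have hDq' : D (π q') := Relation.ReflTransGen.single ⟨c3, c4, q, q', rfl, rfl, hq, hn⟩
  have hDstep : ∀ a b, D (π a) → RR G π a b → ¬ Lt G π p a → π b ≠ π p → π b ≠ π p' → D (π b) := by
    intro a b h1 h2 h3 h4 h5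
    exact Relation.ReflTransGen.tail h1 ⟨h4, h5, a, b, rfl, rfl, h2, h3⟩
  -- goodness with respect to the steps
  let GS : V → Prop := fun m => ∀ a b, D (π a) → RR G π a b → ¬ Lt G π p a → π b ≠ π p → π b ≠ π p' → Nc w m p a b
  have hGSpart : ∀ m m', π m = π m' → ¬ D (π m) → GS m' → GS m := by
    intro m m' hm hD hg a b h1 h2 h3 h4 h5
    have hb := hDstep a b h1 h2 h3 h4 h5
    have hne : ∀ κ, D κ → π m ≠ κ := fun κ hκ e => hD (e ▸ hκ)
    refine nc_parts hw hpart hm rfl rfl rfl ?_ ?_ ?_ ?_ (hg a b h1 h2 h3 h4 h5)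
    · rw [← hm]; exact hne _ h1
    · rw [← hm]; exact hne _ hb
    · exact fun e => (hDi _ h1).1 e.symm
    · exact fun e => h4 e.symm
  have hGSp : GS p := fun a b _ _ _ _ _ => Nc.refl_left p a b
  have hGSp' : GS p' := fun a b _ h2 h3 _ _ => (hE p p' a b hp h2 h3).sl
  have hpD : ¬ D (π p) := fun h => (hDi _ h).1 rfl
  have hp'D : ¬ D (π p') := fun h => (hDi _ h).2 rfl
  -- the link step
  have hlink : ∀ x y, RR G π x y → ¬ D (π x) → π x ≠ π p → π x ≠ π p' → ¬ D (π y) → GS y → GS x := by
    intro x y hxy hx hxi hxj hy hg a b h1 h2 h3 h4 h5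
    have hb := hDstep a b h1 h2 h3 h4 h5
    have hxa : ¬ Lt G π x a := by
      intro hxa
      have e1 : π a ≠ π x := fun e => hx (e ▸ h1)
      have e2 : π b ≠ π x := fun e => hx (e ▸ hb)
      have e3 : π b ≠ π a := fun e => h2.2.2.1 e.symm
      have h6 : RR G π a x := wide_rr hH hxa.symm h2.lt e1 e3 e2
      exact hx (hDstep a x h1 h6 h3 hxi hxj)
    exact (hE x y a b hxy h2 hxa).left (hg a b h1 h2 h3 h4 h5)
  -- all vertices outside of `D` are good
  have hall : ∀ κ, Relation.ReflTransGen (fun κ κ' => ∃ a b, π a = κ ∧ π b = κ' ∧ RR G π a b) κ (π p) →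
      ∀ m, π m = κ → ¬ D κ → GS m := by
    intro κ hκ
    induction hκ using Relation.ReflTransGen.head_induction_on with
    | refl => exact fun m hm _ => hGSpart m p hm (hm ▸ hpD) hGSp
    | head hst _ ih =>
      obtain ⟨x, y, hx, hy, hxy⟩ := hst
      intro m hm hD
      have hmx : π m = π x := hm.trans hx.symm
      rw [← hm] at hD
      have hxD : ¬ D (π x) := hmx ▸ hD
      by_cases hi : π m = π p
      · exact hGSpart m p hi hD hGSp
      by_cases hj : π m = π p'
      · exact hGSpart m p' hj hD hGSp'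
      have hxi : π x ≠ π p := hmx ▸ hi
      have hxj : π x ≠ π p' := hmx ▸ hj
      refine hGSpart m x hmx hD ?_
      by_cases hyD : D (π y)
      · have hpx : Lt G π p x := by
          by_contra hpx
          have hpy : ¬ Lt G π p y := fun h => hpx (h.trans hxy.symm.lt)
          exact hxD (hDstep y x hyD hxy.symm hpy hxi hxj)
        have h6 : RR G π x p :=
          wide_rr hH hpx.symm (hpx.symm.trans hp.lt) hxi (fun e => hxj e.symm) (fun e => hp.2.2.1 e.symm)
        exact hlink x p h6 hxD hxi hxj hpD hGSp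
      · exact hlink x y hxy hxD hxi hxj hyD (ih y hy (hy ▸ hyD))
  -- goodness for all pairs of `D`
  have hgood : ∀ m, ¬ D (π m) → ∀ y y', D (π y) → D (π y') → Nc w m p y y' := by
    intro m hm
    have hg : GS m := hall (π m) (hc m p) m rfl hm
    have hne : ∀ κ, D κ → π m ≠ κ := fun κ hκ e => hm (e ▸ hκ)
    have hnp : ∀ κ, D κ → π p ≠ κ := fun κ hκ e => hpD (e ▸ hκ)
    have key : ∀ κ, D κ → ∀ y, π y = κ → Nc w m p q y := by
      intro κ hκ
      induction hκ with
      | refl =>
        intro y hy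
        exact nc_parts hw hpart rfl rfl rfl hy (hne _ hDq) (hne _ hDq) (hnp _ hDq) (hnp _ hDq) (Nc.refl_right m p q)
      | tail h1 h2 ih =>
        obtain ⟨h4, h5, a, b, ha, hb, hab, hpa⟩ := h2
        intro y hy
        have hDa : D (π a) := ha ▸ h1
        rw [← hb] at h4 h5 hy
        have hDb := hDstep a b hDa hab hpa h4 h5
        have h7 : Nc w m p q b := (ih a ha).right (hg a b hDa hab hpa h4 h5)
        exact nc_parts hw hpart rfl rfl rfl hy (hne _ hDq) (hne _ hDb) (hnp _ hDq) (hnp _ hDb) h7
    intro y y' hy hy'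
    exact (key _ hy y rfl).sr.right (key _ hy' y' rfl)
  -- the union is a common split
  have hspl : CSpl w {v | π v ∈ {κ | D κ}} := by
    rw [cspl_iff]
    intro x hx x' hx' y hy y' hy'
    have hx : D (π x) := hx
    have hx' : D (π x') := hx'
    have hy : ¬ D (π y) := hy
    have hy' : ¬ D (π y') := hy'
    have h1 := hgood y hy x x' hx hx'
    have h2 := hgood y' hy' x x' hx hx'
    have h3 : Nc w y y' x x' := h1.left h2.sl
    refine Nc.comm hw ?_ ?_ ?_ ?_ h3
    · rintro rfl; exact hy hx
    · rintro rfl; exact hy hx'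
    · rintro rfl; exact hy' hx
    · rintro rfl; exact hy' hx'
  rcases pp_union hπ hspl with h | h
  · exact hq.2.2.1 (h q q' hDq hDq')
  · exact hp.2.2.1 (h p p' hpD hp'D)

end Pool.Agent.SOW
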