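import Pool.Agent.SOW.TwC

/-! Project SOW, module TwD (size 4): twin stars contradict primality. Notation: p_u = p (π u), p'_u = p' (π u). -/

set_option autoImplicit false

open Set

namespace Pool.Agent.SOW

open Pool.Agent.SOC Pool.Agent.SOS

variable {V ι : Type} {w : ι → V → V → ZMod 2} {G : SimpleGraph V} {π π' : V → Set V} {c c' : Set V} {p p' : Set V → V}

/-- adjacencies of the links at two leaves -/
theorem twd_adj (h : Tw G w π π' c c' p p') {t s : V} (ht : π t ≠ c) (hs : π s ≠ c) (hts : π t ≠ π s) :
    G.Adj (p (π t)) (p (π s)) ∧ G.Adj (p' (π t)) (p' (π s)) ∧ G.Adj (p (π t)) (p' (π s)) ∧ G.Adj (p' (π t)) (p (π s)) := by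
  have h1 := h.st.diff _ _ _ _ (h.ch.rr t ht) (h.ch.rr s hs) (h.ch.hp t ht) (h.ch.hp s hs)
    (by rw [h.ch.hp' t ht, h.ch.hp' s hs]; exact hts)
  exact ⟨h1.1, h1.2.1, h1.2.2.1, h1.2.2.2.1.symm⟩

theorem twd_inn (h : Tw G w π π' c c' p p') {t : V} (ht : π t ≠ c) : π' (p' (π t)) = c' :=
  h.inn _ (by rw [h.ch.hp' t ht]; exact ht)

/-- PROOF. There are leaves 1, 2 of π (three_leaves). Case π x ≠ c, say π x = π u: Let x be attached at π; choose a leaf s ≠ u. x ~ p_s: otherwise RR π p_s x (p_s is attached at π), so π' p_s = π' p_u (tw_match'), contradiction to `sep`. π' x = c' (inn) ≠ π' p_s: x is attached at π'. Conversely x attached at π': x ~ v,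
π' v ≠ π' x = c', so π v = c (inn) ≠ π x. Case π' x ≠ c': π' x = π' p_u (onto), π x = c (inn). If x is attached at π': x ~ p'_s for a leaf s ≠ u: otherwise RR π' x p'_s, tw_match: π p'_s = π u, but it is π s. So x is attached at π. Conversely x ~ v, π v ≠ π x = c, so π' v = c' ≠ π' x.
Case π x = c, π' x = c'. (F3) x attached at π': x ~ p_1: otherwise RR π' p_1 x, tw_match: π x = π 1 ≠ c. The edges x p_1 and p'_1 p_2 (p'_1 ~ p_2: Star.diff) join different parts of π'; Hub π': they are not rigid: (x ~ p'_1 ∧ p_1 ~ p_2) or (x ~ p_2 ∧ p_1 ~ p'_1); the second is false. So x ~ p'_1, π p'_1 = π 1 ≠ c: x is attached at π.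
(F4) x attached at π: x ~ p'_1: otherwise RR π x p'_1, tw_match': π' x = π' p_1 ≠ c'. The edges x p'_1 and p_1 p'_2 join different parts of π; Hub π: (x ~ p_1 ∧ p'_1 ~ p'_2) or (x ~ p'_2 ∧ p'_1 ~ p_1): so x ~ p_1: attached at π'. -/
theorem tw_att (hw : Sk w) (hH : Hub G π) (hH' : Hub G π') (h : Tw G w π π' c c' p p') (x : V) : Att G π x ↔ Att G π' x := by
  obtain ⟨t, s, u, ht, hs, hu, hts, htu, hsu⟩ := three_leaves h.pp c
  by_cases hx : π x = c
  · by_cases hx' : π' x = c'
    · have had := twd_adj h ht hs hts
      have o1 := h.out t ht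
      have o2 := h.out s hs
      constructor
      · intro hax
        -- x ~ p'_t
        have k1 : G.Adj x (p' (π t)) := by
          by_contra hna
          have hrr : RR G π x (p' (π t)) := ⟨hax, (h.ch.rr t ht).2.1, by rw [hx, h.ch.hp' t ht]; exact ht.symm, hna⟩
          have := tw_match' hw h ht hx (h.ch.hp' t ht) hrr
          exact o1 (this.symm.trans hx')
        have k2 : G.Adj x (p (π t)) := by
          by_contra hna
          have hrig : Rigid G x (p' (π t)) (p (π t)) (p' (π s)) := {
            ab := k1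
            cd := had.2.2.1
            ac := fun e => o1 (by rw [← e]; exact hx')
            ad := fun e => hs (by rw [← h.ch.hp' s hs, ← e]; exact hx)
            bc := fun e => (h.ch.rr t ht).2.2.1 (by rw [e])
            bd := had.2.1.ne
            n1 := fun e => hna e.1
            n2 := fun e => (h.ch.rr t ht).2.2.2 e.2.symm }
          rcases hH _ _ _ _ hrig with e | e
          · rw [hx, h.ch.hp' t ht] at e; exact ht e.symm
          · rw [h.ch.hp t ht, h.ch.hp' s hs] at e; exact hs e.symm
        exact ⟨_, k2, by rw [hx']; exact o1⟩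
      · intro hax
        have k1 : G.Adj x (p (π t)) := by
          by_contra hna
          have hrr : RR G π' (p (π t)) x := ⟨(h.rr' t ht).1, hax, by rw [hx']; exact o1, fun e => hna e.symm⟩
          have := tw_match hw h ht rfl hx' hrr
          exact ht (this.symm.trans hx)
        have k2 : G.Adj x (p' (π t)) := by
          by_contra hna
          have hrig : Rigid G x (p (π t)) (p' (π t)) (p (π s)) := {
            ab := k1
            cd := had.2.2.2
            ac := fun e => ht (by rw [← h.ch.hp' t ht, ← e]; exact hx)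
            ad := fun e => o2 (by rw [← e]; exact hx')
            bc := fun e => (h.ch.rr t ht).2.2.1 (by rw [← e])
            bd := had.1.ne
            n1 := fun e => hna e.1
            n2 := fun e => (h.ch.rr t ht).2.2.2 e.2 }
          rcases hH' _ _ _ _ hrig with e | e
          · rw [hx'] at e; exact o1 e.symm
          · rw [twd_inn h ht] at e; exact o2 e.symm
        exact ⟨_, k2, by rw [hx, h.ch.hp' t ht]; exact ht⟩
    · -- x in c, not in c'
      obtain ⟨u, hu, hxu⟩ := h.onto x hx'
      constructor
      · rintro ⟨v, hv, hne⟩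
        refine ⟨v, hv, ?_⟩
        rw [h.inn v (by rw [hx] at hne; exact hne)]
        exact Ne.symm hx'
      · intro hax
        obtain ⟨s, hs, hsu⟩ : ∃ s, π s ≠ c ∧ π s ≠ π u := by
          by_cases e : π t = π u
          · exact ⟨s, hs, fun e' => hts (e.trans e'.symm)⟩
          · exact ⟨t, ht, e⟩
        have k1 : G.Adj x (p' (π s)) := by
          by_contra hna
          have hrr : RR G π' x (p' (π s)) := ⟨hax, (h.rr' s hs).2.1, by rw [twd_inn h hs]; exact hx', hna⟩
          have := tw_match hw h hu hxu (twd_inn h hs) hrr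
          rw [h.ch.hp' s hs] at this
          exact hsu this
        exact ⟨_, k1, by rw [hx, h.ch.hp' s hs]; exact hs⟩
  · have hx' := h.inn x hx
    constructor
    · intro hax
      obtain ⟨s, hs, hsu⟩ : ∃ s, π s ≠ c ∧ π s ≠ π x := by
        by_cases e : π t = π x
        · exact ⟨s, hs, fun e' => hts (e.trans e'.symm)⟩
        · exact ⟨t, ht, e⟩
      have k1 : G.Adj x (p (π s)) := by
        by_contra hna
        have hrr : RR G π (p (π s)) x := ⟨(h.ch.rr s hs).1, hax, by rw [h.ch.hp s hs]; exact Ne.symm hx, fun e => hna e.symm⟩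
        exact h.sep s x hs hx hsu (tw_match' hw h hx (h.ch.hp s hs) rfl hrr)
      exact ⟨_, k1, by rw [hx']; exact h.out s hs⟩
    · rintro ⟨v, hv, hne⟩
      rw [hx'] at hne
      refine ⟨v, hv, ?_⟩
      have : π v = c := by
        by_contra e
        exact hne (h.inn v e)
      rw [this]
      exact Ne.symm hx

/-- PROOF. Let u be the leaf, S = {x | π' x = π' p_u ∨ π x = π u}. (1) x ∈ S, y ∉ S, both attached (at π and π', tw_att): x ~ y. If π x ≠ π y and x ≁ y: RR π x y; Star.all: one of them is in c, the other one in a leaf π t, and (tw_match') the first is in the part π' p_t of π'. If t = u (π t = π u) both are in S, otherwise both are not in S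
(π t ≠ π u, c ≠ π u; π' p_t ≠ π' p_u (sep), and the one in the leaf has π' = c' ≠ π' p_u by inn, out): contradiction. If π' x ≠ π' y and x ≁ y: RR π' x y; Star.all at π', onto and tw_match: one of them is in π' p_t, the other one in c' and in π t: the same contradiction. If π x = π y and π' x = π' y: x ∈ S ↔ y ∈ S.
(2) x ∈ S, y ∉ S, x ~ y: both are attached: π x ≠ π y or π' x ≠ π' y (otherwise x ∈ S ↔ y ∈ S); tw_att. (3) So for x ∈ S, y ∉ S: x ~ y ↔ Att x ∧ Att y, and S is a side of a split: IsSpl G S p_u p_s, s another leaf: p_u ∈ S, p_s ∉ S, p_u ~ p_s (Star.diff), rect from (3). PrimeG: S = {p_u} or Sᶜ = {p_s}; but p'_u ∈ S, p'_u ≠ p_u, p'_s ∉ S,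
p'_s ≠ p_s (RR: different parts). -/
theorem tw_false (hG : PrimeG G) (hw : Sk w) (hH : Hub G π) (hH' : Hub G π') (h : Tw G w π π' c c' p p') : False := by
  obtain ⟨t, s, u, ht, hs, hu, hts, htu, hsu⟩ := three_leaves h.pp c
  have ou := h.out u hu
  have key : ∀ x y, (π' x = π' (p (π u)) ∨ π x = π u) → ¬ (π' y = π' (p (π u)) ∨ π y = π u) → Att G π x → Att G π y →
      G.Adj x y := by
    intro x y hx hy ax ay
    by_contra hna
    by_cases e : π x = π y
    · have e' : π' x ≠ π' y := by
        intro e'
        apply hy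
        rcases hx with k | k
        · exact Or.inl (e'.symm.trans k)
        · exact Or.inr (e.symm.trans k)
      have hrr : RR G π' x y := ⟨(tw_att hw hH hH' h x).1 ax, (tw_att hw hH hH' h y).1 ay, e', hna⟩
      by_cases kx : π' x = c'
      · have ky : π' y ≠ c' := fun k => e' (kx.trans k.symm)
        obtain ⟨v, hv, hyv⟩ := h.onto y ky
        have m := tw_match hw h hv hyv kx hrr.symm
        have : π x = π u := hx.resolve_left (fun k => ou (k.symm.trans kx))
        apply hy
        left
        rw [hyv, ← m, this]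
      · have ky : π' y = c' := (h.st'.all x y hrr).resolve_left kx
        obtain ⟨v, hv, hxv⟩ := h.onto x kx
        have m := tw_match hw h hv hxv ky hrr
        rcases hx with k | k
        · apply hy
          right
          rw [m]
          by_contra hvu
          exact h.sep v u hv hu hvu (hxv.symm.trans k)
        · exact kx (h.inn x (by rw [k]; exact hu))
    · have hrr : RR G π x y := ⟨ax, ay, e, hna⟩
      by_cases kx : π x = c
      · have ky : π y ≠ c := fun k => e (kx.trans k.symm)
        have m := tw_match' hw h ky kx rfl hrr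
        rcases hx with k | k
        · exact h.sep y u ky hu (fun k' => hy (Or.inr k')) (m.symm.trans k)
        · exact hu (k.symm.trans kx)
      · have ky : π y = c := (h.st.all x y hrr).resolve_left kx
        have m := tw_match' hw h kx ky rfl hrr.symm
        rcases hx with k | k
        · exact ou (k.symm.trans (h.inn x kx))
        · apply hy
          left
          rw [m, k]
  have key2 : ∀ x y, (π' x = π' (p (π u)) ∨ π x = π u) → ¬ (π' y = π' (p (π u)) ∨ π y = π u) → G.Adj x y →
      Att G π x ∧ Att G π y := by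
    intro x y hx hy hxy
    by_cases e : π x = π y
    · have e' : π' x ≠ π' y := by
        intro e'
        apply hy
        rcases hx with k | k
        · exact Or.inl (e'.symm.trans k)
        · exact Or.inr (e.symm.trans k)
      exact ⟨(tw_att hw hH hH' h x).2 ⟨y, hxy, e'.symm⟩, (tw_att hw hH hH' h y).2 ⟨x, hxy.symm, e'⟩⟩
    · exact ⟨⟨y, hxy, Ne.symm e⟩, ⟨x, hxy.symm, e⟩⟩
  have had := twd_adj h hu hs hsu.symm
  have hps : ¬ (π' (p (π s)) = π' (p (π u)) ∨ π (p (π s)) = π u) := by
    rintro (k | k)
    · exact h.sep s u hs hu hsu k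
    · rw [h.ch.hp s hs] at k; exact hu k.symm
  have hsp : IsSpl G {x | π' x = π' (p (π u)) ∨ π x = π u} (p (π u)) (p (π s)) := {
    ha := Or.inl rfl
    hb := hps
    adj := had.1
    rect := by
      intro a b ha hb
      constructor
      · intro hab
        obtain ⟨k1, k2⟩ := key2 a b ha hb hab
        exact ⟨key a _ ha hps k1 (h.ch.rr s hs).1, key _ b (Or.inl rfl) hb (h.ch.rr u hu).1 k2⟩
      · rintro ⟨k1, k2⟩
        exact key a b ha hb (key2 a _ ha hps k1).1 (key2 _ b (Or.inl rfl) hb k2).2 }
  rcases hG.2 _ _ _ hsp with e | e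
  · have k : p' (π u) ∈ ({x | π' x = π' (p (π u)) ∨ π x = π u} : Set V) := Or.inr (h.ch.hp' u hu)
    rw [e] at k
    have k' : p' (π u) = p (π u) := k
    exact (h.ch.rr u hu).2.2.1 (by rw [k'])
  · have k : p' (π s) ∈ ({x | π' x = π' (p (π u)) ∨ π x = π u} : Set V)ᶜ := by
      rintro (k | k)
      · rw [twd_inn h hs] at k; exact ou k.symm
      · rw [h.ch.hp' s hs] at k; exact hsu k
    rw [e] at k
    have k' : p' (π s) = p (π s) := k
    exact (h.ch.rr s hs).2.2.1 (by rw [k'])

end Pool.Agent.SOW
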