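import Pool.Agent.SOW.Spl
import Pool.Agent.SOW.Link

/-! Project SOW, module Two (size 4): three letters; two letters. -/

set_option autoImplicit false

open Set

namespace Pool.Agent.SOW

open Pool.Agent.SOC Pool.Agent.SOS

variable {V ι : Type} {w : ι → V → V → ZMod 2} {G : SimpleGraph V} {π : V → Set V}

/-- PROOF. Let RR x x', RR y y', ¬ Lt x y. The three vertices a, b, c are in three different letters, so one of them, r, satisfies ¬ Lt x r and ¬ Lt y r (otherwise two of them are in the letter of x or two are in the letter of y); r is attached. rr_adj: x ~ y, x' ~ y, x ~ y', x' ~ y' (¬ Lt x y'), x ~ r, x' ~ r, y ~ r, y' ~ r. So W4 G x x' y y' r. -/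
theorem nd_of_three (hF : Fam G w) (hH : Hub G π) {a a' b b' c : V} (ha : RR G π a a') (hb : RR G π b b') (hc : Att G π c)
    (n1 : ¬ Lt G π a b) (n2 : ¬ Lt G π a c) (n3 : ¬ Lt G π b c) : ND G w π := by
  intro x x' y y' hx hy hn
  obtain ⟨r, hr, hxr, hyr⟩ : ∃ r, Att G π r ∧ ¬ Lt G π x r ∧ ¬ Lt G π y r := by
    by_contra hcon
    push Not at hcon
    have h1 := hcon a ha.1
    have h2 := hcon b hb.1
    have h3 := hcon c hc
    by_cases ka : Lt G π x a
    · by_cases kb : Lt G π x b
      · exact n1 (ka.symm.trans kb)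
      · have hyb := h2 kb
        by_cases kc : Lt G π x c
        · exact n2 (ka.symm.trans kc)
        · exact n3 (hyb.symm.trans (h3 kc))
    · have hya := h1 ka
      by_cases kb : Lt G π x b
      · by_cases kc : Lt G π x c
        · exact n3 (kb.symm.trans kc)
        · exact n2 (hya.symm.trans (h3 kc))
      · exact n1 (hya.symm.trans (h2 kb))
  have hn' : ¬ Lt G π x y' := fun h => hn (h.trans hy.symm.lt)
  have e1 := rr_adj hH hx hy.1 hn
  have e2 := rr_adj hH hx hy.2.1 hn'
  have e3 := rr_adj hH hx hr hxr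
  have e4 := rr_adj hH hy hr hyr
  exact hF.w4 (r := r) ⟨hx.2.2.2, hy.2.2.2, fun e => hx.2.2.1 (by rw [e]), fun e => hy.2.2.1 (by rw [e]), e1.1, e2.1, e1.2, e2.2,
    e3.1.symm, e3.2.symm, e4.1.symm, e4.2.symm⟩

/-- exactly two letters: impossible if an adjacent r of the first one sees both ends of a link p p'. PROOF. J := {κ | κ ≠ π p ∧ κ ≠ π p'}. (1) y, y' attached, π y, π y' ∈ J, π y ≠ π y': RR y y'. Indeed y, y' are not in the letter of p (hpart), so they are in the letter of l (hall). lc_exit for the set {π p, π p'}, from p to y: RR a b with π a ∈ {π p, π p'}, π b ∉ {π p, π p'}: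
b is not in the letter of p, so b and a are in the letter of l. wide_rr for y, y', third vertex a. (2) In every part in J there is an attached vertex (lc_link). Choose representatives: ρ v attached in the part of v for π v ∈ J, ρ v = p in the part of p, ρ v = p' in the part of p'. (3) {v | π v ∈ J} is a common split (cspl_of_reps): y := ρ a, y' := ρ b, a, b in J, and c, d not in J: if
π a = π b or π c = π d: refl. Otherwise {ρ c, ρ d} = {p, p'}: W4 G p p' y y' r: RR p p', RR y y' (1); p, p' ~ y, y': rr_adj for p p'; r ~ p, p'; r ~ y, y': rr_adj for y y' and r (¬ Lt y r, since Lt p r and ¬ Lt p y). Fam.w4, Nc.comm. (4) pp_union: at most one part in J: but there are four parts, two of them in J; or at most one part not in J: but π p ≠ π p'. -/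
theorem two_letters (hF : Fam G w) (hπ : PP w π) (hH : Hub G π) (hc : LC G π) {p p' r l : V} (hp : RR G π p p')
    (hr : Att G π r) (h1 : G.Adj r p) (h2 : G.Adj r p') (hr2 : Lt G π p r) (hl : Att G π l) (hn : ¬ Lt G π p l)
    (hall : ∀ u, Att G π u → Lt G π p u ∨ Lt G π l u) (hpart : ∀ u, Lt G π p u → π u = π p ∨ π u = π p') : False := by
  have key : ∀ y y', Att G π y → Att G π y' → (π y ≠ π p ∧ π y ≠ π p') → (π y' ≠ π p ∧ π y' ≠ π p') → π y ≠ π y' →
      RR G π y y' := by
    intro y y' hy hy' j1 j2 hne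
    have nl : ∀ u, π u ≠ π p ∧ π u ≠ π p' → ¬ Lt G π p u := fun u hu h => (hpart u h).elim hu.1 hu.2
    have l1 : Lt G π l y := (hall y hy).resolve_left (nl y j1)
    have l2 : Lt G π l y' := (hall y' hy').resolve_left (nl y' j2)
    obtain ⟨a, b, ha, hb, hab⟩ := lc_exit hc (J := {κ | κ = π p ∨ κ = π p'}) (u := p) (v := y) (Or.inl rfl)
      (fun h => h.elim j1.1 j1.2)
    have hb' : π b ≠ π p ∧ π b ≠ π p' := ⟨fun h => hb (Or.inl h), fun h => hb (Or.inr h)⟩
    have l3 : Lt G π l b := (hall b hab.2.1).resolve_left (nl b hb')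
    have l4 : Lt G π l a := l3.trans hab.symm.lt
    refine wide_rr hH (t := a) (l1.symm.trans l2) (l1.symm.trans l4) hne ?_ ?_
    · rcases ha with h | h
      · rw [h]; exact j1.1.symm
      · rw [h]; exact j1.2.symm
    · rcases ha with h | h
      · rw [h]; exact j2.1.symm
      · rw [h]; exact j2.2.symm
  have hg : ∀ κ : Set V, ∃ g, (κ = π p → g = p) ∧ (κ = π p' → g = p') ∧
      (κ ≠ π p → κ ≠ π p' → (∃ v, π v = κ) → Att G π g ∧ π g = κ) := by
    intro κ
    by_cases k1 : κ = π p
    · exact ⟨p, fun _ => rfl, fun h => absurd (k1.symm.trans h) hp.2.2.1, fun h => absurd k1 h⟩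
    by_cases k2 : κ = π p'
    · exact ⟨p', fun h => absurd h k1, fun _ => rfl, fun _ h => absurd k2 h⟩
    by_cases k3 : ∃ v, π v = κ
    · obtain ⟨v, hv⟩ := k3
      obtain ⟨a, b, e, hab⟩ := lc_link hc (u := v) (v := p) (fun h => k1 (hv.symm.trans h))
      exact ⟨a, fun h => absurd h k1, fun h => absurd h k2, fun _ _ _ => ⟨hab.1, e.trans hv⟩⟩
    · exact ⟨p, fun h => absurd h k1, fun h => absurd h k2, fun _ _ h => absurd h k3⟩
  choose g g1 g2 g3 using hg
  have hJ : CSpl w {v | π v ∈ ({κ | κ ≠ π p ∧ κ ≠ π p'} : Set (Set V))} := by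
    refine cspl_of_reps hF.sk hπ.part (ρ := fun v => g (π v)) ?_ ?_
    · intro v
      show π (g (π v)) = π v
      by_cases k1 : π v = π p
      · rw [g1 _ k1, k1]
      by_cases k2 : π v = π p'
      · rw [g2 _ k2, k2]
      exact (g3 _ k1 k2 ⟨v, rfl⟩).2
    · intro a b c d ha hb hc' hd
      show Nc w (g (π a)) (g (π b)) (g (π c)) (g (π d))
      by_cases k1 : π a = π b
      · rw [k1]; exact Nc.refl_left _ _ _
      by_cases k2 : π c = π d
      · rw [k2]; exact Nc.refl_right _ _ _
      obtain ⟨ta, ea⟩ := g3 _ ha.1 ha.2 ⟨a, rfl⟩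
      obtain ⟨tb, eb⟩ := g3 _ hb.1 hb.2 ⟨b, rfl⟩
      generalize g (π a) = y at ta ea ⊢
      generalize g (π b) = y' at tb eb ⊢
      have jy : π y ≠ π p ∧ π y ≠ π p' := by rw [ea]; exact ha
      have jy' : π y' ≠ π p ∧ π y' ≠ π p' := by rw [eb]; exact hb
      have hy := key y y' ta tb jy jy' (by rw [ea, eb]; exact k1)
      have nl : ∀ u, π u ≠ π p ∧ π u ≠ π p' → ¬ Lt G π p u := fun u hu h => (hpart u h).elim hu.1 hu.2
      have e1 := rr_adj hH hp ta (nl y jy)
      have e2 := rr_adj hH hp tb (nl y' jy')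
      have e3 := rr_adj hH hy hr (fun h => nl y jy (hr2.trans h.symm))
      have h4 : Nc w p p' y y' := hF.w4 (r := r) ⟨hp.2.2.2, hy.2.2.2, fun e => hp.2.2.1 (by rw [e]), fun e => hy.2.2.1 (by rw [e]),
        e1.1, e2.1, e1.2, e2.2, h1, h2, e3.1.symm, e3.2.symm⟩
      have h5 : Nc w y y' p p' := h4.comm hF.sk (fun e => jy.1 (by rw [e])) (fun e => jy'.1 (by rw [e]))
        (fun e => jy.2 (by rw [e])) (fun e => jy'.2 (by rw [e]))
      have hcc : π c = π p ∨ π c = π p' := by
        by_contra h; push Not at h; exact hc' h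
      have hdd : π d = π p ∨ π d = π p' := by
        by_contra h; push Not at h; exact hd h
      rcases hcc with kc | kc <;> rcases hdd with kd | kd
      · exact absurd (kc.trans kd.symm) k2
      · rw [g1 _ kc, g2 _ kd]; exact h5
      · rw [g2 _ kc, g1 _ kd]; exact h5.sr
      · exact absurd (kc.trans kd.symm) k2
  rcases pp_union hπ hJ with h | h
  · obtain ⟨a, b, c, d, n1, n2, n3, n4, n5, n6⟩ := hπ.four
    have cl : ∀ x, π x = π p ∨ π x = π p' ∨ π x ∈ ({κ | κ ≠ π p ∧ κ ≠ π p'} : Set (Set V)) := by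
      intro x
      by_cases k1 : π x = π p
      · exact Or.inl k1
      by_cases k2 : π x = π p'
      · exact Or.inr (Or.inl k2)
      exact Or.inr (Or.inr ⟨k1, k2⟩)
    rcases cl a with ka | ka | ka <;> rcases cl b with kb | kb | kb <;>
    first
    | exact n1 (ka.trans kb.symm)
    | exact n1 (h _ _ ka kb)
    | (rcases cl c with kc | kc | kc <;>
      first
      | exact n2 (ka.trans kc.symm)
      | exact n4 (kb.trans kc.symm)
      | exact n2 (h _ _ ka kc)
      | exact n4 (h _ _ kb kc)
      | (rcases cl d with kd | kd | kd <;>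
        first
        | exact n3 (ka.trans kd.symm)
        | exact n5 (kb.trans kd.symm)
        | exact n6 (kc.trans kd.symm)
        | exact n3 (h _ _ ka kd)
        | exact n5 (h _ _ kb kd)
        | exact n6 (h _ _ kc kd)))
  · exact hp.2.2.1 (h p p' (fun h => h.1 rfl) (fun h => h.2 rfl))

/-- a letter with vertices in three parts contains no adjacent vertices in different parts; so: PROOF. Suppose π u is a third part. If π r ≠ π p: choose t ∈ {p', u} with π t ≠ π r (π t ≠ π p): wide_rr for p, r, t: RR p r, contradiction to r ~ p. So π r = π p. The same for p' : π r = π p'. Contradiction. -/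
theorem part_of_adj (hH : Hub G π) {p p' r u : V} (hp : RR G π p p') (hr : Lt G π p r) (h1 : G.Adj r p) (h2 : G.Adj r p')
    (hu : Lt G π p u) : π u = π p ∨ π u = π p' := by
  by_contra hcon
  push Not at hcon
  obtain ⟨u1, u2⟩ := hcon
  have hpp := hp.2.2.1
  by_cases k : π r = π p
  · have := wide_rr hH (a := p') (b := r) (t := u) (hp.symm.lt.trans hr) (hp.symm.lt.trans hu) (by rw [k]; exact hpp.symm) u2
      (by rw [k]; exact u1)
    exact this.2.2.2 h2.symm
  · by_cases k' : π r = π p'
    · have := wide_rr hH (a := p) (b := r) (t := u) hr hu (Ne.symm k) u1 (by rw [k']; exact u2)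
      exact this.2.2.2 h1.symm
    · have := wide_rr hH (a := p) (b := r) (t := p') hr hp.lt (Ne.symm k) hpp.symm (Ne.symm k')
      exact this.2.2.2 h1.symm

end Pool.Agent.SOW
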