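import Pool.Agent.SOW.ThmV
import Pool.Agent.SOW.TwD
import Pool.Agent.SOW.Two

/-! Project SOW, module NoW4 (size 3): Theorem W: no pair of W4 is in four (or three, or two) different parts of a prime partition. -/

set_option autoImplicit false

open Set

namespace Pool.Agent.SOW

open Pool.Agent.SOC Pool.Agent.SOS

variable {V ι : Type} {w : ι → V → V → ZMod 2} {G : SimpleGraph V} {π : V → Set V}

/-- PROOF. ch_exists; y := p'_t for some leaf t (three_leaves); twin_exists: π' with centre c' := π' y: Tw0. Hub π' (hub_of_pp), LC π' (link_conn, hfree). ND π': three leaves t, s, u: the links p_t p'_t, p_s p'_s, p_u p'_u of π' (tw0_rr) are in different letters of π' (if Lt p_t p_s then p_t, p_s, p'_t are in one letter and in different parts π' p_t, π' p_s, c', so RR p_t p_s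
(wide_rr); but p_t ~ p_s); nd_of_three with a = p_t, b = p_s, c = p_u. tw_of_tw0, tw_false. -/
theorem star_false (hG : PrimeG G) (hF : Fam G w) (hfree : ∀ π, PP w π → ∀ z, ¬ FreeC G π z) (hπ : PP w π) {c : Set V}
    (hs : Star G w π c) : False := by
  obtain ⟨p, p', hch⟩ := ch_exists hs
  obtain ⟨t, s, u, ht, hs', hu, hts, htu, hsu⟩ := three_leaves hπ c
  have hy : π (p' (π t)) ≠ c := by
    rw [hch.hp' t ht]
    exact ht
  obtain ⟨π', hπ', hsep, hout, hinn⟩ := twin_exists hF.sk hπ hs hch hy
  have h0 : Tw0 G w π π' c (π' (p' (π t))) p p' := ⟨hπ, hs, hch, hπ', hsep, hout, hinn⟩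
  have hH : Hub G π := hub_of_pp hG.1.preconnected hF.sol hπ
  have hH' : Hub G π' := hub_of_pp hG.1.preconnected hF.sol hπ'
  have hc' : LC G π' := link_conn hG (hfree π' hπ')
  have hlet : ∀ x y, π x ≠ c → π y ≠ c → π x ≠ π y → ¬ Lt G π' (p (π x)) (p (π y)) := by
    intro x y hx hy' hxy hl
    have hrx := tw0_rr h0 hx
    have hin : π' (p' (π x)) = π' (p' (π t)) := hinn _ (by
      rw [hch.hp' x hx]
      exact hx)
    have hw := wide_rr hH' hl hrx.lt (hsep x y hx hy' hxy) (by
      rw [hin]
      exact fun e => hout x hx e.symm) (by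
      rw [hin]
      exact fun e => hout y hy' e.symm)
    refine hw.2.2.2 (hs.diff _ _ _ _ (hch.rr x hx) (hch.rr y hy') (hch.hp x hx) (hch.hp y hy') ?_).1
    rw [hch.hp' x hx, hch.hp' y hy']
    exact hxy
  have hE' : ND G w π' := nd_of_three hF hH' (tw0_rr h0 ht) (tw0_rr h0 hs') (tw0_rr h0 hu).1 (hlet t s ht hs' hts)
    (hlet t u ht hu htu) (hlet s u hs' hu hsu)
  exact tw_false hG hF.sk hH hH' (tw_of_tw0 hF.sk h0 hH' hc' hE')

/-- PROOF. hH := hub_of_pp, hc := link_conn. p is attached: its neighbours q, q' are in different parts, one of them not in the part of p. The same for p', q, q' and r (neighbours p, p'). RR p p', RR q q'. (A) If there are a a', b b' with RR a a', RR b b', ¬ Lt a b, and an attached c with ¬ Lt a c, ¬ Lt b c: nd_of_three, star_exists, star_false. So suppose not (A).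
Case ¬ Lt p q: every attached u is in the letter of p or of q. r is attached: if Lt p r: part_of_adj gives hpart, two_letters for p p' r, l = q. If Lt q r: the same with the roles of p p' and q q' exchanged (W4 is symmetric). Case Lt p q: part_of_adj with r := q (q ~ p, q ~ p'): hpart. There is a vertex v with π v ∉ {π p, π p'} (PP.four); lc_link: RR a b, π a = π v; ¬ Lt p a (hpart).
Every attached u is in the letter of p or of a (not (A)). two_letters for p p' with r := q, l := a. -/
theorem no_w4 (hG : PrimeG G) (hF : Fam G w) (hfree : ∀ π, PP w π → ∀ z, ¬ FreeC G π z) (hπ : PP w π) {p p' q q' r : V}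
    (h : W4 G p p' q q' r) (h1 : π p ≠ π p') (h2 : π q ≠ π q') : False := by
  have hH : Hub G π := hub_of_pp hG.1.preconnected hF.sol hπ
  have hc : LC G π := link_conn hG (hfree π hπ)
  have hatt : ∀ v x y, G.Adj v x → G.Adj v y → π x ≠ π y → Att G π v := by
    intro v x y hx hy hxy
    by_cases he : π x = π v
    · exact ⟨y, hy, fun e => hxy (he.trans e.symm)⟩
    · exact ⟨x, hx, he⟩
  have ap := hatt p q q' h.pq h.pq' h2
  have ap' := hatt p' q q' h.p'q h.p'q' h2
  have aq := hatt q p p' h.pq.symm h.p'q.symm h1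
  have aq' := hatt q' p p' h.pq'.symm h.p'q'.symm h1
  have ar := hatt r p p' h.rp h.rp' h1
  have hp : RR G π p p' := ⟨ap, ap', h1, h.n1⟩
  have hq : RR G π q q' := ⟨aq, aq', h2, h.n2⟩
  have hA : ∀ {a a' b b' x : V}, RR G π a a' → RR G π b b' → Att G π x → ¬ Lt G π a b → ¬ Lt G π a x → ¬ Lt G π b x →
      False := by
    intro a a' b b' x ha hb hx n1 n2 n3
    have hE := nd_of_three hF hH ha hb hx n1 n2 n3
    obtain ⟨c, hs⟩ := star_exists hF.sk hπ hH hc hE ha hb n1
    exact star_false hG hF hfree hπ hs
  by_cases hpq : Lt G π p q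
  · have hpart : ∀ u, Lt G π p u → π u = π p ∨ π u = π p' := fun u hu =>
      part_of_adj hH hp hpq h.pq.symm h.p'q.symm hu
    obtain ⟨v, hv, hv'⟩ : ∃ v, π v ≠ π p ∧ π v ≠ π p' := by
      by_contra hcon
      push Not at hcon
      obtain ⟨a, b, c, d, k1, k2, k3, k4, k5, k6⟩ := hπ.four
      have hd : ∀ v, π v = π p ∨ π v = π p' := fun v => by
        by_cases hv : π v = π p
        · exact Or.inl hv
        · exact Or.inr (hcon v hv)
      rcases hd a with ea | ea <;> rcases hd b with eb | eb <;> rcases hd c with ec | ec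
      · exact k1 (ea.trans eb.symm)
      · exact k1 (ea.trans eb.symm)
      · exact k2 (ea.trans ec.symm)
      · exact k4 (eb.trans ec.symm)
      · exact k4 (eb.trans ec.symm)
      · exact k2 (ea.trans ec.symm)
      · exact k1 (ea.trans eb.symm)
      · exact k1 (ea.trans eb.symm)
    obtain ⟨a, b, hab, hrr⟩ := lc_link hc hv
    have hna : ¬ Lt G π p a := by
      intro hl
      rcases hpart a hl with e | e
      · exact hv (hab.symm.trans e)
      · exact hv' (hab.symm.trans e)
    refine two_letters hF hπ hH hc hp aq h.pq.symm h.p'q.symm hpq hrr.1 hna ?_ hpart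
    intro u hu
    by_contra hcon
    push Not at hcon
    exact hA hp hrr hu hna hcon.1 hcon.2
  · have hall : ∀ u, Att G π u → Lt G π p u ∨ Lt G π q u := by
      intro u hu
      by_contra hcon
      push Not at hcon
      exact hA hp hq hu hpq hcon.1 hcon.2
    rcases hall r ar with hr | hr
    · exact two_letters hF hπ hH hc hp ar h.rp h.rp' hr aq hpq hall (fun u hu => part_of_adj hH hp hr h.rp h.rp' hu)
    · exact two_letters hF hπ hH hc hq ar h.rq h.rq' hr ap (fun e => hpq e.symm) (fun u hu => (hall u hu).symm)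
        (fun u hu => part_of_adj hH hq hr h.rq h.rq' hu)

end Pool.Agent.SOW
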