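import Pool.Agent.SOW.Spl

/-! Project SOW, module Pts (size 3): the partition defined by a prime set of points. -/

set_option autoImplicit false

open Set

namespace Pool.Agent.SOW

open Pool.Agent.SOC Pool.Agent.SOS

variable {V ι : Type} {w : ι → V → V → ZMod 2} {G : SimpleGraph V} {π π' : V → Set V}

/-- a common split with at most one point of `Q` -/
private def PtsSm (w : ι → V → V → ZMod 2) (Q X : Set V) : Prop :=
  CSpl w X ∧ ∀ x ∈ Q, x ∈ X → ∀ x' ∈ Q, x' ∈ X → x = x'

private theorem pts_pigeon : ∀ p q r s : Fin 3, p = q ∨ p = r ∨ p = s ∨ q = r ∨ q = s ∨ r = s := by decide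

private theorem pts_union {Q : Set V} (hQ : PPS w Q) {a b c d : V} (ha : a ∈ Q) (hb : b ∈ Q) (hc : c ∈ Q) (hd : d ∈ Q)
    (h1 : a ≠ b) (h2 : a ≠ c) (h3 : a ≠ d) (h4 : b ≠ c) (h5 : b ≠ d) (h6 : c ≠ d) {X Y : Set V} (hX : PtsSm w Q X)
    (hY : PtsSm w Q Y) {u : V} (hu : u ∈ X) (hu' : u ∈ Y) : PtsSm w Q (X ∪ Y) := by
  classical
  have hXY : CSpl w (X ∪ Y) := cspl_union hX.1 hY.1 hu hu'
  refine ⟨hXY, ?_⟩
  rcases hQ _ hXY with h | h
  · exact h
  · exfalso
    have key : ∀ x ∈ Q, ∀ y ∈ Q, (if x ∈ X then (0 : Fin 3) else if x ∈ Y then 1 else 2) =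
        (if y ∈ X then (0 : Fin 3) else if y ∈ Y then 1 else 2) → x = y := by
      intro x hx y hy he
      by_cases x1 : x ∈ X
      · rw [if_pos x1] at he
        by_cases y1 : y ∈ X
        · exact hX.2 x hx x1 y hy y1
        · rw [if_neg y1] at he
          by_cases y2 : y ∈ Y
          · rw [if_pos y2] at he
            exact absurd he (by decide)
          · rw [if_neg y2] at he
            exact absurd he (by decide)
      · rw [if_neg x1] at he
        by_cases x2 : x ∈ Y
        · rw [if_pos x2] at he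
          by_cases y1 : y ∈ X
          · rw [if_pos y1] at he
            exact absurd he (by decide)
          · rw [if_neg y1] at he
            by_cases y2 : y ∈ Y
            · exact hY.2 x hx x2 y hy y2
            · rw [if_neg y2] at he
              exact absurd he (by decide)
        · rw [if_neg x2] at he
          by_cases y1 : y ∈ X
          · rw [if_pos y1] at he
            exact absurd he (by decide)
          · rw [if_neg y1] at he
            by_cases y2 : y ∈ Y
            · rw [if_pos y2] at he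
              exact absurd he (by decide)
            · exact h x hx (fun hh => hh.elim x1 x2) y hy (fun hh => hh.elim y1 y2)
    rcases pts_pigeon (if a ∈ X then (0 : Fin 3) else if a ∈ Y then 1 else 2)
      (if b ∈ X then (0 : Fin 3) else if b ∈ Y then 1 else 2) (if c ∈ X then (0 : Fin 3) else if c ∈ Y then 1 else 2)
      (if d ∈ X then (0 : Fin 3) else if d ∈ Y then 1 else 2) with e | e | e | e | e | e
    · exact h1 (key a ha b hb e)
    · exact h2 (key a ha c hc e)
    · exact h3 (key a ha d hd e)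
    · exact h4 (key b hb c hc e)
    · exact h5 (key b hb d hd e)
    · exact h6 (key c hc d hd e)

private theorem pts_single (Q : Set V) (v : V) : PtsSm w Q {v} :=
  ⟨cspl_single v, fun _ _ hx _ _ hx' => (show _ = v from hx).trans (show _ = v from hx').symm⟩

/-- PROOF. Call a common split X small if it contains at most one point of Q. (1) {v} is small (cspl_single). (2) Small sets X, Y with a common point u: X ∪ Y is a common
split (cspl_union), it contains at most two points of Q, so by hQ (Q has at least four points a, b, c, d, so the second alternative of PPS would leave at most one point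
outside, but at least two points of Q are outside) at most one. (3) π v := the union of all small sets which contain v. By finiteness (or directly: x, x' ∈ π v:
x ∈ X, x' ∈ X', X, X' small, both contain v; X ∪ X' is small) π v is a common split and small: for x, x' ∈ π v both are in one small set Z ∋ v; for y, y' ∉ π v:
y, y' ∉ Z, so Nc w x x' y y'; two points of Q in π v are in one small set, so equal. (4) u ∈ π v → π u = π v: X small, u ∈ X, v ∈ Z ∋ u small: X ∪ Z small, contains v; and
symmetric. v ∈ π v. So {u | π u = π v} = π v. (5) parts: (3). prime: let X be a common split. By hQ X or its complement is small (the complement is a common split by cspl_compl; if the second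
alternative holds, it contains at most one point of Q): if X is small and nonempty, v ∈ X: X ⊆ π v, so π x = π v for x ∈ X. Same for the
complement; if it is empty take any v (V is nonempty). four: a, b, c, d ∈ Q are different; π a = π b would give a, b ∈ π a, a = b. -/
theorem pp_of_pps (hw : Sk w) {Q : Set V} (hQ : PPS w Q) {a b c d : V} (ha : a ∈ Q) (hb : b ∈ Q) (hc : c ∈ Q) (hd : d ∈ Q)
    (h1 : a ≠ b) (h2 : a ≠ c) (h3 : a ≠ d) (h4 : b ≠ c) (h5 : b ≠ d) (h6 : c ≠ d) :
    ∃ π : V → Set V, PP w π ∧ ∀ x ∈ Q, ∀ y ∈ Q, x ≠ y → π x ≠ π y := by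
  classical
  have hU : ∀ {X Y : Set V}, PtsSm w Q X → PtsSm w Q Y → ∀ {u : V}, u ∈ X → u ∈ Y → PtsSm w Q (X ∪ Y) :=
    fun hX hY _ hu hu' => pts_union hQ ha hb hc hd h1 h2 h3 h4 h5 h6 hX hY hu hu'
  let π : V → Set V := fun v => {u | ∃ X, PtsSm w Q X ∧ v ∈ X ∧ u ∈ X}
  have hself : ∀ v, v ∈ π v := fun v => ⟨{v}, pts_single Q v, rfl, rfl⟩
  have htwo : ∀ v x x', x ∈ π v → x' ∈ π v → ∃ Z, PtsSm w Q Z ∧ v ∈ Z ∧ x ∈ Z ∧ x' ∈ Z := by
    rintro v x x' ⟨X, hX, hv, hx⟩ ⟨X', hX', hv', hx'⟩
    exact ⟨X ∪ X', hU hX hX' hv hv', Or.inl hv, Or.inl hx, Or.inr hx'⟩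
  have hspl : ∀ v, CSpl w (π v) := by
    intro v
    rw [cspl_iff]
    intro x hx x' hx' y hy y' hy'
    obtain ⟨Z, hZ, z1, z2, z3⟩ := htwo v x x' hx hx'
    exact (cspl_iff.1 hZ.1) x z2 x' z3 y (fun h => hy ⟨Z, hZ, z1, h⟩) y' (fun h => hy' ⟨Z, hZ, z1, h⟩)
  have hone : ∀ v, ∀ x ∈ Q, x ∈ π v → ∀ x' ∈ Q, x' ∈ π v → x = x' := by
    intro v x hx hxv x' hx' hxv'
    obtain ⟨Z, hZ, -, z2, z3⟩ := htwo v x x' hxv hxv'
    exact hZ.2 x hx z2 x' hx' z3
  have heq : ∀ u v, u ∈ π v → π u = π v := by
    rintro u v ⟨Z, hZ, z1, z2⟩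
    ext t
    constructor
    · rintro ⟨X, hX, x1, x2⟩
      exact ⟨X ∪ Z, hU hX hZ x1 z2, Or.inr z1, Or.inl x2⟩
    · rintro ⟨X, hX, x1, x2⟩
      exact ⟨X ∪ Z, hU hX hZ x1 z1, Or.inr z2, Or.inl x2⟩
  have hset : ∀ v, {u | π u = π v} = π v := by
    intro v
    ext u
    constructor
    · intro h
      have h' : π u = π v := h
      rw [← h']
      exact hself u
    · intro h
      exact heq u v h
  have hsep : ∀ x ∈ Q, ∀ y ∈ Q, x ≠ y → π x ≠ π y := by
    intro x hx y hy hne he
    exact hne (hone y x hx (he ▸ hself x) y hy (hself y))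
  have hsm : ∀ X, PtsSm w Q X → ∃ v, ∀ x ∈ X, π x = π v := by
    intro X hX
    rcases X.eq_empty_or_nonempty with h0 | ⟨v, hv⟩
    · refine ⟨a, fun x hx => ?_⟩
      rw [h0] at hx
      exact absurd hx (Set.notMem_empty x)
    · exact ⟨v, fun x hx => heq x v ⟨X, hX, hv, hx⟩⟩
  refine ⟨π, ⟨?_, ?_, ?_⟩, hsep⟩
  · intro v
    rw [hset]
    exact hspl v
  · intro X hX
    rcases hQ X hX with h | h
    · exact Or.inl (hsm X ⟨hX, h⟩)
    · obtain ⟨v, hv⟩ := hsm Xᶜ ⟨cspl_compl hw hX, fun x hx hxX x' hx' hxX' => h x hx hxX x' hx' hxX'⟩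
      exact Or.inr ⟨v, fun x hx => hv x hx⟩
  · exact ⟨a, b, c, d, hsep a ha b hb h1, hsep a ha c hc h2, hsep a ha d hd h3, hsep b hb c hc h4, hsep b hb d hd h5,
      hsep c hc d hd h6⟩

/-- a common split which avoids three points in different parts is contained in a part. PROOF: PP.prime: the second alternative is impossible. -/
theorem pp_small (hπ : PP w π) {X : Set V} (hX : CSpl w X) {a b : V} (ha : a ∉ X) (hb : b ∉ X) (h1 : π a ≠ π b) {u v : V} (hu : u ∈ X) (hv : v ∈ X) :
    π u = π v := by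
  rcases hπ.prime X hX with ⟨z, hz⟩ | ⟨z, hz⟩
  · exact (hz u hu).trans (hz v hv).symm
  · exact absurd ((hz a ha).trans (hz b hb).symm) h1

/-- one direction -/
private theorem pts_uniq_one (hπ : PP w π) (hπ' : PP w π') {a b c d : V}
    (h : π a ≠ π b ∧ π a ≠ π c ∧ π a ≠ π d ∧ π b ≠ π c ∧ π b ≠ π d ∧ π c ≠ π d)
    (h' : π' a ≠ π' b ∧ π' a ≠ π' c ∧ π' a ≠ π' d ∧ π' b ≠ π' c ∧ π' b ≠ π' d ∧ π' c ≠ π' d) (x y : V)
    (hxy : π x = π y) : π' x = π' y := by
  obtain ⟨k1, k2, k3, k4, k5, k6⟩ := h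
  have hX := hπ.part x
  by_cases hab : π a ≠ π x ∧ π b ≠ π x
  · exact pp_small hπ' hX (a := a) (b := b) hab.1 hab.2 h'.1 (show π x = π x from rfl) hxy.symm
  · have hcd : π c ≠ π x ∧ π d ≠ π x := by
      by_cases hax : π a = π x
      · exact ⟨fun e => k2 (hax.trans e.symm), fun e => k3 (hax.trans e.symm)⟩
      · have hbx : π b = π x := by
          by_contra hb
          exact hab ⟨hax, hb⟩
        exact ⟨fun e => k4 (hbx.trans e.symm), fun e => k5 (hbx.trans e.symm)⟩
    exact pp_small hπ' hX (a := c) (b := d) hcd.1 hcd.2 h'.2.2.2.2.2 (show π x = π x from rfl) hxy.symm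

/-- two such partitions which both separate four points are equal. PROOF. Let π x = π y. X := {u | π u = π x} is a common split. At most one of a, b, c, d is in X, so two of them (even three) are
not in X, with different values of π'. pp_small for π': π' x = π' y. The other direction is symmetric. -/
theorem pp_uniq (hπ : PP w π) (hπ' : PP w π') {a b c d : V}
    (h : π a ≠ π b ∧ π a ≠ π c ∧ π a ≠ π d ∧ π b ≠ π c ∧ π b ≠ π d ∧ π c ≠ π d)
    (h' : π' a ≠ π' b ∧ π' a ≠ π' c ∧ π' a ≠ π' d ∧ π' b ≠ π' c ∧ π' b ≠ π' d ∧ π' c ≠ π' d) (x y : V) :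
    π x = π y ↔ π' x = π' y :=
  ⟨pts_uniq_one hπ hπ' h h' x y, pts_uniq_one hπ' hπ h' h x y⟩

end Pool.Agent.SOW
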