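import Pool.Agent.SOW.Defs

/-! Project SOW, module Spl (size 3): common splits. -/

set_option autoImplicit false

open Set

namespace Pool.Agent.SOW

open Pool.Agent.SOC Pool.Agent.SOS

variable {V ι : Type} {w : ι → V → V → ZMod 2} {G : SimpleGraph V} {π : V → Set V}

/-- PROOF (cspl_iff). v is a point outside of X ∪ Y, u a point in X ∩ Y. It is enough: for x ∈ X ∪ Y and y, y' ∉ X ∪ Y: Nc w x u y y' (then Nc.left, Nc.sl). This
is clear since x, u ∈ X or x, u ∈ Y. -/
theorem cspl_union {X Y : Set V} (hX : CSpl w X) (hY : CSpl w Y) {u : V} (h1 : u ∈ X) (h2 : u ∈ Y) : CSpl w (X ∪ Y) := by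
  rw [cspl_iff]
  have key : ∀ x ∈ X ∪ Y, ∀ y, y ∉ X ∪ Y → ∀ y', y' ∉ X ∪ Y → Nc w x u y y' := by
    rintro x (hx | hx) y hy y' hy'
    · exact cspl_iff.1 hX x hx u h1 y (fun h => hy (Or.inl h)) y' (fun h => hy' (Or.inl h))
    · exact cspl_iff.1 hY x hx u h2 y (fun h => hy (Or.inr h)) y' (fun h => hy' (Or.inr h))
  intro x hx x' hx' y hy y' hy'
  exact (key x hx y hy y' hy').left (key x' hx' y hy y' hy').sl

/-- PROOF: complements: (X ∩ Y)ᶜ = Xᶜ ∪ Yᶜ is a split since Xᶜ and Yᶜ have the common point v; cspl_compl. -/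
theorem cspl_inter (hw : Sk w) {X Y : Set V} (hX : CSpl w X) (hY : CSpl w Y) {v : V} (h1 : v ∉ X) (h2 : v ∉ Y) :
    CSpl w (X ∩ Y) := by
  have h := cspl_compl hw (cspl_union (cspl_compl hw hX) (cspl_compl hw hY) (u := v) h1 h2)
  rwa [compl_union, compl_compl, compl_compl] at h

/-- singletons are splits. PROOF: Nc.refl_left. -/
theorem cspl_single (v : V) : CSpl w {v} := by
  rw [cspl_iff]
  rintro x rfl x' rfl y _ y' _
  exact Nc.refl_left _ _ _

/-- representatives can be changed inside the parts. PROOF. For a, a' in one part and c, d in other parts: Nc w a' a c d (PP.part a). So Nc w a' b c d, Nc w a' b' c d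
(Nc.left, Nc.sl); then comm (the parts of a, b are different from the parts of c, d, so the vertices are different), the same for c, d, and comm back. -/
theorem nc_parts (hw : Sk w) (hp : ∀ v, CSpl w {u | π u = π v}) {a b c d a' b' c' d' : V} (ha : π a' = π a) (hb : π b' = π b)
    (hc : π c' = π c) (hd : π d' = π d) (h1 : π a ≠ π c) (h2 : π a ≠ π d) (h3 : π b ≠ π c) (h4 : π b ≠ π d)
    (h : Nc w a b c d) : Nc w a' b' c' d' := by
  have e1 : Nc w a' a c d := cspl_iff.1 (hp a) a' ha a rfl c h1.symm d h2.symm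
  have e2 : Nc w b b' c d := cspl_iff.1 (hp b) b rfl b' hb c h3.symm d h4.symm
  have e3 : Nc w a' b' c d := (e1.left h).left e2
  have ne : ∀ {x y x' y' : V}, π x' = π x → π y' = π y → π x ≠ π y → x' ≠ y' := by
    intro x y x' y' hx hy hxy e
    apply hxy
    rw [← hx, ← hy, e]
  have e4 : Nc w c d a' b' := e3.comm hw (ne ha rfl h1) (ne ha rfl h2) (ne hb rfl h3) (ne hb rfl h4)
  have e5 : Nc w c' c a' b' := cspl_iff.1 (hp c) c' hc c rfl a' (fun e => h1 (ha.symm.trans e)) b'
    (fun e => h3 (hb.symm.trans e))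
  have e6 : Nc w d d' a' b' := cspl_iff.1 (hp d) d rfl d' hd a' (fun e => h2 (ha.symm.trans e)) b'
    (fun e => h4 (hb.symm.trans e))
  exact ((e5.left e4).left e6).comm hw (ne hc ha h1.symm) (ne hc hb h3.symm) (ne hd ha h2.symm) (ne hd hb h4.symm)

/-- a union of parts is a split if this is true for one representative in each part. `J` is a set of parts. `ρ` chooses a representative in each part. PROOF: cspl_iff. x, x' in the
union, y, y' not: their parts satisfy the conditions of nc_parts (π x ∈ J, π y ∉ J); h for the representatives, nc_parts. -/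
theorem cspl_of_reps (hw : Sk w) (hp : ∀ v, CSpl w {u | π u = π v}) {J : Set (Set V)} {ρ : V → V} (hρ : ∀ v, π (ρ v) = π v)
    (h : ∀ a b c d, π a ∈ J → π b ∈ J → π c ∉ J → π d ∉ J → Nc w (ρ a) (ρ b) (ρ c) (ρ d)) : CSpl w {v | π v ∈ J} := by
  rw [cspl_iff]
  intro x hx x' hx' y hy y' hy'
  have ne : ∀ {x y : V}, π x ∈ J → π y ∉ J → π (ρ x) ≠ π (ρ y) := by
    intro x y hx hy e
    rw [hρ, hρ] at e
    exact hy (e ▸ hx)
  exact nc_parts hw hp (hρ x).symm (hρ x').symm (hρ y).symm (hρ y').symm (ne hx hy) (ne hx hy') (ne hx' hy)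
    (ne hx' hy') (h x x' y y' hx hx' hy hy')

/-- a split which is a union of parts: at most one part is in it, or at most one part is not in it. PROOF: PP.prime. -/
theorem pp_union (hπ : PP w π) {J : Set (Set V)} (h : CSpl w {v | π v ∈ J}) :
    (∀ a b, π a ∈ J → π b ∈ J → π a = π b) ∨ (∀ a b, π a ∉ J → π b ∉ J → π a = π b) := by
  rcases hπ.prime _ h with ⟨v, hv⟩ | ⟨v, hv⟩
  · exact Or.inl fun a b ha hb => (hv a ha).trans (hv b hb).symm
  · exact Or.inr fun a b ha hb => (hv a ha).trans (hv b hb).symm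

end Pool.Agent.SOW
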