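import Pool.Agent.SOW.Meet

/-! Project SOW, module StarX (size 3): the links form a star. -/

set_option autoImplicit false

open Set

namespace Pool.Agent.SOW

open Pool.Agent.SOC Pool.Agent.SOS

variable {V ι : Type} {w : ι → V → V → ZMod 2} {G : SimpleGraph V} {π : V → Set V}

theorem StarX_four {α : Type} {a b c d x y z : α} (h1 : a ≠ b) (h2 : a ≠ c) (h3 : a ≠ d) (h4 : b ≠ c) (h5 : b ≠ d)
    (h6 : c ≠ d) (ha : a = x ∨ a = y ∨ a = z) (hb : b = x ∨ b = y ∨ b = z) (hc : c = x ∨ c = y ∨ c = z)
    (hd : d = x ∨ d = y ∨ d = z) : False := by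
  grind

/-- there is a part different from three given parts -/
theorem StarX_pick (hπ : PP w π) (x y z : Set V) : ∃ v, π v ≠ x ∧ π v ≠ y ∧ π v ≠ z := by
  obtain ⟨a, b, c, d, h1, h2, h3, h4, h5, h6⟩ := hπ.four
  by_contra hcon
  have h : ∀ v, π v = x ∨ π v = y ∨ π v = z := by
    intro v
    by_contra hv
    push Not at hv
    exact hcon ⟨v, hv⟩
  exact StarX_four h1 h2 h3 h4 h5 h6 (h a) (h b) (h c) (h d)

/-- two different sets cannot meet all pairs of four different sets -/
theorem StarX_hit {α : Type} {a b c d q q' : α} (h1 : a ≠ b) (h2 : a ≠ c) (h3 : a ≠ d) (h4 : b ≠ c) (h5 : b ≠ d)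
    (h6 : c ≠ d) (m1 : q = a ∨ q = b ∨ q' = a ∨ q' = b) (m2 : q = a ∨ q = c ∨ q' = a ∨ q' = c)
    (m3 : q = a ∨ q = d ∨ q' = a ∨ q' = d) (m4 : q = b ∨ q = c ∨ q' = b ∨ q' = c)
    (m5 : q = b ∨ q = d ∨ q' = b ∨ q' = d) (m6 : q = c ∨ q = d ∨ q' = c ∨ q' = d) : False := by
  grind

/-- every letter which contains two attached nonadjacent vertices `p p'` lives in two parts, if there is another shared letter `q`. PROOF. Suppose Lt p u with π u ∉ {π p, π p'}. By wide_rr the three vertices p, p', u are
pairwise related (RR). There are at least four parts: let κ = π v ∉ {π p, π p', π u} (hπ.four: among four different parts at least one is not one of the three). lc_link: RR x y, π x = κ. Case Lt p x: then p, p', u, x are pairwise related (wide_rr),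
in four different parts; `meet` for each of the six pairs of them and the pair q q' (letter of q is different): {π q, π q'} meets every pair of parts of a four element set: impossible. Case ¬ Lt p x: `meet` for the three pairs of
p, p', u and the pair x y: π x = κ is none of the three parts, so π y ∈ {π p, π p'}, π y ∈ {π p', π u}, π y ∈ {π p, π u}: impossible. -/
theorem two_parts (hw : Sk w) (hπ : PP w π) (hH : Hub G π) (hc : LC G π) (hE : ND G w π) {p p' q q' : V} (hp : RR G π p p')
    (hq : RR G π q q') (hn : ¬ Lt G π p q) {u : V} (hu : Lt G π p u) : π u = π p ∨ π u = π p' := by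
  by_contra hcon
  push Not at hcon
  obtain ⟨hu1, hu2⟩ := hcon
  have hpp' : π p ≠ π p' := hp.2.2.1
  have r1 : RR G π p u := wide_rr hH hu hp.lt hu1.symm hpp'.symm hu2.symm
  have r2 : RR G π p' u := wide_rr hH (Lt.trans hp.symm.lt hu) hp.symm.lt hu2.symm hpp' hu1.symm
  obtain ⟨v, hv1, hv2, hv3⟩ := StarX_pick hπ (π p) (π p') (π u)
  obtain ⟨x, y, hx, hxy⟩ := lc_link hc hv1
  rw [← hx] at hv1 hv2 hv3
  by_cases hpx : Lt G π p x
  · have r3 : RR G π p x := wide_rr hH hpx hp.lt hv1.symm hpp'.symm hv2.symm
    have r4 : RR G π p' x := wide_rr hH (Lt.trans hp.symm.lt hpx) hp.symm.lt hv2.symm hpp' hv1.symm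
    have r5 : RR G π u x := wide_rr hH (Lt.trans hu.symm hpx) hu.symm hv3.symm hu1.symm hv1.symm
    have n' : ¬ Lt G π p' q := fun h => hn (Lt.trans hp.lt h)
    have nu : ¬ Lt G π u q := fun h => hn (Lt.trans hu h)
    exact StarX_hit hpp' hu1.symm hv1.symm hu2.symm hv2.symm hv3.symm
      (meet hw hπ hH hc hE hp hq hn) (meet hw hπ hH hc hE r1 hq hn) (meet hw hπ hH hc hE r3 hq hn)
      (meet hw hπ hH hc hE r2 hq n') (meet hw hπ hH hc hE r4 hq n') (meet hw hπ hH hc hE r5 hq nu)
  · have n' : ¬ Lt G π p' x := fun h => hpx (Lt.trans hp.lt h)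
    have m1 := meet hw hπ hH hc hE hp hxy hpx
    have m2 := meet hw hπ hH hc hE r1 hxy hpx
    have m3 := meet hw hπ hH hc hE r2 hxy n'
    rcases m1 with h | h | h | h
    · exact hv1 h
    · exact hv2 h
    · rcases m3 with h' | h' | h' | h'
      · exact hv2 h'
      · exact hv3 h'
      · exact hpp' (h.symm.trans h')
      · exact hu1 (h'.symm.trans h)
    · rcases m2 with h' | h' | h' | h'
      · exact hv1 h'
      · exact hv3 h'
      · exact hpp' (h'.symm.trans h)
      · exact hu2 (h'.symm.trans h)

/-- PROOF. Every shared letter lives in two parts: for RR x x': if ¬ Lt p x two_parts for x x' and p p' (¬ Lt x p), otherwise for x x' and q q' (¬ Lt x q). So (a): RR x x', RR y y' with Lt x y: {π y, π y'} = {π x, π x'}. (b): RR x x', RR y y': the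
pairs of parts {π x, π x'}, {π y, π y'} have a common part: (a) or `meet`. There are at least four parts and every part is in some link pair (lc_link). Let {i, j} be the pair of p p' ; let κ ∉ {i, j} be a part: RR x y with π x = κ, by (b) π y ∈ {i, j}.
c := π y (say i). Let λ be a fourth part ∉ {i, j, κ}: RR x' y', π x' = λ: π y' ∈ {i, j} and (b) with x y: π y' ∈ {κ, c}, so π y' = c. So we have three pairs {i, j}, {c, κ}, {c, λ}, c ∈ {i, j}, with different second parts. Any other link pair meets all the three: it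
contains c (otherwise it would contain three different parts). mem: y. all: this. leaf: π v ≠ c: lc_link for v (π y ≠ π v): RR a b with π a = π v, so π b = c. diff: RR a b, RR a' b', π a = π a' = c, π b ≠ π b': ¬ Lt a a' by (a). Adjacency: rr_adj (a and
b are adjacent to a' and to b', which are attached and not in the letter of a: ¬ Lt a b' since Lt a' b'); Nc: hE. -/
theorem star_exists (hw : Sk w) (hπ : PP w π) (hH : Hub G π) (hc : LC G π) (hE : ND G w π) {p p' q q' : V} (hp : RR G π p p')
    (hq : RR G π q q') (hn : ¬ Lt G π p q) : ∃ c, Star G w π c := by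
  have tp : ∀ x x', RR G π x x' → ∀ u, Lt G π x u → π u = π x ∨ π u = π x' := by
    intro x x' hx u hu
    by_cases h : Lt G π p x
    · exact two_parts hw hπ hH hc hE hx hq (fun h' => hn (Lt.trans h h')) hu
    · exact two_parts hw hπ hH hc hE hx hp (fun h' => h h'.symm) hu
  have hb : ∀ x x' y y', RR G π x x' → RR G π y y' → π y = π x ∨ π y = π x' ∨ π y' = π x ∨ π y' = π x' := by
    intro x x' y y' hx hy
    by_cases h : Lt G π x y
    · rcases tp x x' hx y h with h1 | h1
      · exact Or.inl h1
      · exact Or.inr (Or.inl h1)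
    · exact meet hw hπ hH hc hE hx hy h
  obtain ⟨v, hv1, hv2, -⟩ := StarX_pick hπ (π p) (π p') (π p)
  obtain ⟨x, y, hx, hxy⟩ := lc_link hc hv1
  rw [← hx] at hv1 hv2
  obtain ⟨v', hv1', hv2', hv3'⟩ := StarX_pick hπ (π p) (π p') (π x)
  obtain ⟨x', y', hx', hxy'⟩ := lc_link hc hv1'
  rw [← hx'] at hv1' hv2' hv3'
  have hpp' : π p ≠ π p' := hp.2.2.1
  have hy : π y = π p ∨ π y = π p' := by
    rcases hb p p' x y hp hxy with h | h | h | h
    · exact absurd h hv1
    · exact absurd h hv2
    · exact Or.inl h
    · exact Or.inr h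
  have hy' : π y' = π p ∨ π y' = π p' := by
    rcases hb p p' x' y' hp hxy' with h | h | h | h
    · exact absurd h hv1'
    · exact absurd h hv2'
    · exact Or.inl h
    · exact Or.inr h
  have hyy : π y' = π y := by
    rcases hb x y x' y' hxy hxy' with h | h | h | h
    · exact absurd h hv3'
    · exfalso
      rcases hy with h' | h'
      · exact hv1' (h.trans h')
      · exact hv2' (h.trans h')
    · exfalso
      rcases hy' with h' | h'
      · exact hv1 (h.symm.trans h')
      · exact hv2 (h.symm.trans h')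
    · exact h
  have hall : ∀ u v, RR G π u v → π u = π y ∨ π v = π y := by
    intro u v huv
    by_contra hcon
    push Not at hcon
    obtain ⟨n1, n2⟩ := hcon
    have e1 := hb p p' u v hp huv
    have e2 := hb x y u v hxy huv
    have e3 := hb x' y' u v hxy' huv
    rw [hyy] at e3
    have e2' : π u = π x ∨ π v = π x := by
      rcases e2 with h | h | h | h
      · exact Or.inl h
      · exact absurd h n1
      · exact Or.inr h
      · exact absurd h n2
    have e3' : π u = π x' ∨ π v = π x' := by
      rcases e3 with h | h | h | h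
      · exact Or.inl h
      · exact absurd h n1
      · exact Or.inr h
      · exact absurd h n2
    have e4 : π u = π p ∨ π u = π p' ∨ π v = π p ∨ π v = π p' := e1
    rcases e2' with a | a <;> rcases e3' with b' | b'
    · exact hv3' (b'.symm.trans a)
    · rcases e4 with h | h | h | h
      · exact hv1 (a.symm.trans h)
      · exact hv2 (a.symm.trans h)
      · exact hv1' (b'.symm.trans h)
      · exact hv2' (b'.symm.trans h)
    · rcases e4 with h | h | h | h
      · exact hv1' (b'.symm.trans h)
      · exact hv2' (b'.symm.trans h)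
      · exact hv1 (a.symm.trans h)
      · exact hv2 (a.symm.trans h)
    · exact hv3' (b'.symm.trans a)
  refine ⟨π y, ⟨⟨y, rfl⟩, hall, ?_, ?_⟩⟩
  · intro v hv
    obtain ⟨a, b, ha, hab⟩ := lc_link hc hv
    rcases hall a b hab with h | h
    · exact absurd (ha.symm.trans h) hv
    · exact ⟨b, a, h, ha, hab.symm⟩
  · intro a b a' b' h h' ha ha' hbb
    have hnot : ¬ Lt G π a a' := by
      intro hl
      rcases tp a b h b' (Lt.trans hl h'.lt) with e | e
      · exact h'.2.2.1 (ha'.trans (ha.symm.trans e.symm))
      · exact hbb e.symm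
    have hnot' : ¬ Lt G π a b' := fun hl => hnot (Lt.trans hl h'.symm.lt)
    obtain ⟨k1, k2⟩ := rr_adj hH h h'.1 hnot
    obtain ⟨k3, k4⟩ := rr_adj hH h h'.2.1 hnot'
    exact ⟨k1, k4, k3, k2.symm, hE a b a' b' h h' hnot⟩

end Pool.Agent.SOW
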