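import Pool.Agent.SOW.StarX
import Pool.Agent.SOW.Iso

/-! Project SOW, module TwA (size 3): the twin of a star is a star, with the same number of leaves. -/

set_option autoImplicit false

open Set

namespace Pool.Agent.SOW

open Pool.Agent.SOC Pool.Agent.SOS

variable {V ι : Type} {w : ι → V → V → ZMod 2} {G : SimpleGraph V} {π π' : V → Set V} {c c' : Set V} {p p' : Set V → V}

/-- the situation of `twin_exists`: `π` is a star with centre `c` and links `p κ, p' κ`; `π'` separates the points `p κ`, and the complement of the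
part `c` of `π` is contained in the part `c'` of `π'` -/
structure Tw (G : SimpleGraph V) (w : ι → V → V → ZMod 2) (π π' : V → Set V) (c c' : Set V) (p p' : Set V → V) : Prop where
  pp : PP w π
  st : Star G w π c
  ch : Ch G w π c p p'
  pp' : PP w π'
  st' : Star G w π' c'
  sep : ∀ u v, π u ≠ c → π v ≠ c → π u ≠ π v → π' (p (π u)) ≠ π' (p (π v))
  out : ∀ u, π u ≠ c → π' (p (π u)) ≠ c'
  inn : ∀ v, π v ≠ c → π' v = c'
  rr' : ∀ u, π u ≠ c → RR G π' (p (π u)) (p' (π u))
  onto : ∀ v, π' v ≠ c' → ∃ u, π u ≠ c ∧ π' v = π' (p (π u))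

/-- the facts about π' which imply `Tw` -/
structure Tw0 (G : SimpleGraph V) (w : ι → V → V → ZMod 2) (π π' : V → Set V) (c c' : Set V) (p p' : Set V → V) : Prop where
  pp : PP w π
  st : Star G w π c
  ch : Ch G w π c p p'
  pp' : PP w π'
  sep : ∀ u v, π u ≠ c → π v ≠ c → π u ≠ π v → π' (p (π u)) ≠ π' (p (π v))
  out : ∀ u, π u ≠ c → π' (p (π u)) ≠ c'
  inn : ∀ v, π v ≠ c → π' v = c'

/-- there are three leaves. PROOF: PP.four. -/
theorem three_leaves (hπ : PP w π) (c : Set V) : ∃ t s u, π t ≠ c ∧ π s ≠ c ∧ π u ≠ c ∧ π t ≠ π s ∧ π t ≠ π u ∧ π s ≠ π u := by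
  obtain ⟨x, y, z, v, k1, k2, k3, k4, k5, k6⟩ := hπ.four
  by_cases hx : π x = c
  · exact ⟨y, z, v, fun e => k1 (hx.trans e.symm), fun e => k2 (hx.trans e.symm), fun e => k3 (hx.trans e.symm), k4, k5, k6⟩
  · by_cases hy : π y = c
    · exact ⟨x, z, v, hx, fun e => k4 (hy.trans e.symm), fun e => k5 (hy.trans e.symm), k2, k3, k6⟩
    · by_cases hz : π z = c
      · exact ⟨x, y, v, hx, hy, fun e => k6 (hz.trans e.symm), k1, k3, k5⟩
      · exact ⟨x, y, z, hx, hy, hz, k1, k2, k4⟩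

/-- PROOF. Another leaf s ≠ t exists (three_leaves). p_t ~ p_s (Star.diff) and π' p_t ≠ π' p_s: p_t is attached at π'. p'_t ~ p_s (Star.diff), π' p'_t = c' ≠ π' p_s: p'_t is attached at π'. π' p_t ≠ c' = π' p'_t, p_t ≁ p'_t. -/
theorem tw0_rr (h : Tw0 G w π π' c c' p p') {u : V} (hu : π u ≠ c) : RR G π' (p (π u)) (p' (π u)) := by
  obtain ⟨s, hs, hus⟩ : ∃ s, π s ≠ c ∧ π u ≠ π s := by
    obtain ⟨t, s, _, ht, hs, _, hts, _, _⟩ := three_leaves h.pp c
    by_cases hut : π u = π t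
    · exact ⟨s, hs, fun e => hts (hut.symm.trans e)⟩
    · exact ⟨t, ht, hut⟩
  have hd := h.st.diff _ _ _ _ (h.ch.rr u hu) (h.ch.rr s hs) (h.ch.hp u hu) (h.ch.hp s hs) (by
    rw [h.ch.hp' u hu, h.ch.hp' s hs]
    exact hus)
  have hin : π' (p' (π u)) = c' := h.inn _ (by
    rw [h.ch.hp' u hu]
    exact hu)
  refine ⟨⟨p (π s), hd.1, fun e => h.sep u s hu hs hus e.symm⟩, ⟨p (π s), hd.2.2.2.1.symm, ?_⟩, ?_, (h.ch.rr u hu).2.2.2⟩
  · rw [hin]
    exact h.out s hs
  · rw [hin]
    exact h.out u hu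

/-- PROOF. Let t, s be two leaves. p_t, p'_t and p_s, p'_s are related at π' (tw0_rr). They are not in the same letter of π': otherwise p_t, p_s, p'_s are in one letter and in different parts (sep, out, inn) so RR p_t p_s (wide_rr at π'), but p_t ~ p_s (Star.diff). So star_exists for π' gives a centre c'' and Star G w π' c''. By
Star.all at π' for the links p_t p'_t and p_s p'_s: c'' ∈ {π' p_t, c'} and c'' ∈ {π' p_s, c'}, so c'' = c'. -/
theorem tw0_star (hw : Sk w) (h : Tw0 G w π π' c c' p p') (hH' : Hub G π') (hc' : LC G π') (hE' : ND G w π') :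
    Star G w π' c' := by
  obtain ⟨t, s, u, ht, hs, hu, hts, htu, hsu⟩ := three_leaves h.pp c
  have hin : ∀ v, π v ≠ c → π' (p' (π v)) = c' := fun v hv => h.inn _ (by
    rw [h.ch.hp' v hv]
    exact hv)
  have hlet : ¬ Lt G π' (p (π t)) (p (π s)) := by
    intro hl
    have hr := wide_rr hH' hl (tw0_rr h ht).lt (h.sep t s ht hs hts) (by
      rw [hin t ht]
      exact fun e => h.out t ht e.symm) (by
      rw [hin t ht]
      exact fun e => h.out s hs e.symm)
    refine hr.2.2.2 (h.st.diff _ _ _ _ (h.ch.rr t ht) (h.ch.rr s hs) (h.ch.hp t ht) (h.ch.hp s hs) ?_).1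
    rw [h.ch.hp' t ht, h.ch.hp' s hs]
    exact hts
  obtain ⟨c'', hst⟩ := star_exists hw h.pp' hH' hc' hE' (tw0_rr h ht) (tw0_rr h hs) hlet
  have e1 := hst.all _ _ (tw0_rr h ht)
  have e2 := hst.all _ _ (tw0_rr h hs)
  rw [hin t ht] at e1
  rw [hin s hs] at e2
  have e3 : c'' = c' := by
    rcases e1 with e1 | e1
    · rcases e2 with e2 | e2
      · exact absurd (e1.trans e2.symm) (h.sep t s ht hs hts)
      · exact e2.symm
    · exact e1.symm
  rw [← e3]
  exact hst

/-- PROOF. Let π' v ≠ c' and suppose π' v ≠ π' p_u for all leaves u of π (p_u = p (π u), p'_u = p' (π u)). At π' the link p'_u p_u has its centre end p'_u in c' and its leaf end p_u. By ch_extend for the star π', with K := the set of the parts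
π' p_u: q, q' with Ch G w π' c' q q' and q (π' p_u) = p'_u, q' (π' p_u) = p_u for all leaves u of π (a κ := p'_u for some u with κ = π' p_u; by `sep` π u is determined by κ, so the value is p'_u for every such u; tw0_rr). Let b := p_t for some leaf t of π; π' b ≠ c'
(out). By pps_star for π' and y := b the set Q' := {q κ | κ a leaf of π'} ∪ {b} is a prime set of points. It contains p'_t, p'_s, p'_u (three leaves t, s, u of π) and b, all different. pp_of_pps: π'' with PP w π'', which separates the points of Q'. π and π'' both separate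
p'_t, p'_s, p'_u, b (π b = c), so π x = π y ↔ π'' x = π'' y (pp_uniq). r := q (π' v) ∈ Q' is different from all p'_u (they are q κ for other κ; Star.diff at π': adjacent, so different) and from b (π' r = c' ≠ π' b), so π'' r ≠ π'' p'_u, so π r ≠ π p'_u = π u for all leaves u,
and π r ≠ π b = c. But π r is c or a leaf (u := r). Contradiction. -/
theorem tw0_onto (hw : Sk w) (h : Tw0 G w π π' c c' p p') (hs' : Star G w π' c') {v : V} (hv : π' v ≠ c') :
    ∃ u, π u ≠ c ∧ π' v = π' (p (π u)) := by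
  classical
  by_contra hcon
  push Not at hcon
  have hin : ∀ x, π x ≠ c → π' (p' (π x)) = c' := fun x hx => h.inn _ (by
    rw [h.ch.hp' x hx]
    exact hx)
  -- the prescribed links
  let K : Set (Set V) := {κ | ∃ u, π u ≠ c ∧ κ = π' (p (π u))}
  let a : Set V → V := fun κ => if hκ : ∃ u, π u ≠ c ∧ κ = π' (p (π u)) then p' (π hκ.choose) else v
  let b : Set V → V := fun κ => if hκ : ∃ u, π u ≠ c ∧ κ = π' (p (π u)) then p (π hκ.choose) else v
  have hab : ∀ u, π u ≠ c → a (π' (p (π u))) = p' (π u) ∧ b (π' (p (π u))) = p (π u) := by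
    intro u hu
    have hκ : ∃ u', π u' ≠ c ∧ π' (p (π u)) = π' (p (π u')) := ⟨u, hu, rfl⟩
    have ea : a (π' (p (π u))) = p' (π hκ.choose) := dif_pos hκ
    have eb : b (π' (p (π u))) = p (π hκ.choose) := dif_pos hκ
    obtain ⟨g1, g2⟩ := hκ.choose_spec
    have g3 : π hκ.choose = π u := by
      by_contra hne
      exact h.sep _ _ g1 hu hne g2.symm
    rw [g3] at ea eb
    exact ⟨ea, eb⟩
  obtain ⟨q, q', hq, hqK⟩ := ch_extend hs' K a b (by
    rintro κ ⟨u, hu, rfl⟩
    rw [(hab u hu).1, (hab u hu).2]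
    exact ⟨hin u hu, rfl, (tw0_rr h hu).symm⟩)
  have hqu : ∀ u, π u ≠ c → q (π' (p (π u))) = p' (π u) := by
    intro u hu
    rw [(hqK _ ⟨u, hu, rfl⟩).1, (hab u hu).1]
  obtain ⟨t, s, u, ht, hs, hu, hts, htu, hsu⟩ := three_leaves h.pp c
  have hpb : π' (p (π t)) ≠ c' := h.out t ht
  have hPPS := pps_star hw h.pp' hs' hq hpb
  have hmem : ∀ x, π x ≠ c → p' (π x) ∈ {x | ∃ v, π' v ≠ c' ∧ x = q (π' v)} ∪ {p (π t)} := by
    intro x hx
    exact Or.inl ⟨p (π x), h.out x hx, (hqu x hx).symm⟩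
  have hmb : p (π t) ∈ {x | ∃ v, π' v ≠ c' ∧ x = q (π' v)} ∪ {p (π t)} := Or.inr rfl
  have hp'ne : ∀ x y, π x ≠ c → π y ≠ c → π x ≠ π y → p' (π x) ≠ p' (π y) := by
    intro x y hx hy hxy e
    have := congrArg π e
    rw [h.ch.hp' x hx, h.ch.hp' y hy] at this
    exact hxy this
  have hp'b : ∀ x, π x ≠ c → p' (π x) ≠ p (π t) := by
    intro x hx e
    have := congrArg π e
    rw [h.ch.hp' x hx, h.ch.hp t ht] at this
    exact hx this
  obtain ⟨π'', hπ'', hsep''⟩ := pp_of_pps hw hPPS (hmem t ht) (hmem s hs) (hmem u hu) hmb (hp'ne t s ht hs hts)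
    (hp'ne t u ht hu htu) (hp'b t ht) (hp'ne s u hs hu hsu) (hp'b s hs) (hp'b u hu)
  have hiff : ∀ x y, π x = π y ↔ π'' x = π'' y := by
    refine fun x y => pp_uniq h.pp hπ'' (a := p' (π t)) (b := p' (π s)) (c := p' (π u)) (d := p (π t)) ?_ ?_ x y
    · rw [h.ch.hp' t ht, h.ch.hp' s hs, h.ch.hp' u hu, h.ch.hp t ht]
      exact ⟨hts, htu, ht, hsu, hs, hu⟩
    · exact ⟨hsep'' _ (hmem t ht) _ (hmem s hs) (hp'ne t s ht hs hts), hsep'' _ (hmem t ht) _ (hmem u hu) (hp'ne t u ht hu htu),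
        hsep'' _ (hmem t ht) _ hmb (hp'b t ht), hsep'' _ (hmem s hs) _ (hmem u hu) (hp'ne s u hs hu hsu),
        hsep'' _ (hmem s hs) _ hmb (hp'b s hs), hsep'' _ (hmem u hu) _ hmb (hp'b u hu)⟩
  -- the new point
  have hrm : q (π' v) ∈ {x | ∃ v, π' v ≠ c' ∧ x = q (π' v)} ∪ {p (π t)} := Or.inl ⟨v, hv, rfl⟩
  have hrc : π' (q (π' v)) = c' := hq.hp v hv
  have hr1 : ∀ x, π x ≠ c → π (q (π' v)) ≠ π x := by
    intro x hx e
    have hne : q (π' v) ≠ p' (π x) := by
      intro he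
      have h1 := (hq.rr v hv)
      have h2 := (hq.rr (p (π x)) (h.out x hx))
      have h3 := (hs'.diff _ _ _ _ h1 h2 (hq.hp v hv) (hq.hp _ (h.out x hx)) (by
        rw [hq.hp' v hv, hq.hp' _ (h.out x hx)]
        exact hcon x hx)).1
      rw [hqu x hx, ← he] at h3
      exact h3.ne rfl
    have h4 := hsep'' _ hrm _ (hmem x hx) hne
    apply h4
    rw [← hiff, h.ch.hp' x hx]
    exact e
  have hr2 : π (q (π' v)) ≠ c := by
    intro e
    have hne : q (π' v) ≠ p (π t) := by
      intro he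
      rw [he] at hrc
      exact hpb hrc
    have h4 := hsep'' _ hrm _ hmb hne
    apply h4
    rw [← hiff, h.ch.hp t ht]
    exact e
  exact hr1 _ hr2 rfl

/-- PROOF: the theorems above. -/
theorem tw_of_tw0 (hw : Sk w) (h : Tw0 G w π π' c c' p p') (hH' : Hub G π') (hc' : LC G π') (hE' : ND G w π') :
    Tw G w π π' c c' p p' :=
  have hs := tw0_star hw h hH' hc' hE'
  ⟨h.pp, h.st, h.ch, h.pp', hs, h.sep, h.out, h.inn, fun _ hu => tw0_rr h hu, fun _ hv => tw0_onto hw h hs hv⟩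

end Pool.Agent.SOW
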