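import Pool.Agent.SOW.TwA

/-! Project SOW, module TwC (size 4): the links of the two stars correspond to each other. Notation: p_u = p (π u), p'_u = p' (π u). -/

set_option autoImplicit false

open Set

namespace Pool.Agent.SOW

open Pool.Agent.SOC Pool.Agent.SOS

variable {V ι : Type} {w : ι → V → V → ZMod 2} {G : SimpleGraph V} {π π' : V → Set V} {c c' : Set V} {p p' : Set V → V}

theorem twc_a (h : Tw G w π π' c c' p p') {r r' u : V} (hu : π u ≠ c) (hr : π' r = π' (p (π u)))
    (hr' : π' r' = c') (hrr : RR G π' r r') {t : V} (ht : π t ≠ c) (htu : π t ≠ π u) :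
    Nc w r' (p' (π u)) (p (π t)) (p' (π t)) := by
  have e1 : π (p' (π t)) = π t := h.ch.hp' t ht
  have e2 : π (p' (π u)) = π u := h.ch.hp' u hu
  have e3 : π' (p' (π t)) = c' := h.inn _ (by rw [e1]; exact ht)
  have e4 : π' (p (π u)) ≠ π' (p (π t)) := h.sep u t hu ht (fun e => htu e.symm)
  have a1 : Nc w r' r (p' (π t)) (p (π t)) :=
    (h.st'.diff r' r (p' (π t)) (p (π t)) hrr.symm (h.rr' t ht).symm hr' e3 (by rw [hr]; exact e4)).2.2.2.2
  have a2 : Nc w r (p (π u)) (p (π t)) (p' (π t)) := by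
    refine cspl_iff.1 (h.pp'.part (p (π u))) r hr (p (π u)) rfl (p (π t)) (fun e => e4 e.symm) (p' (π t)) ?_
    intro e
    have e' : π' (p' (π t)) = π' (p (π u)) := e
    exact h.out u hu (by rw [← e', e3])
  have a3 : Nc w (p (π u)) (p' (π u)) (p (π t)) (p' (π t)) :=
    (h.st.diff _ _ _ _ (h.ch.rr u hu) (h.ch.rr t ht) (h.ch.hp u hu) (h.ch.hp t ht)
      (by rw [e1, e2]; exact fun e => htu e.symm)).2.2.2.2
  exact (a1.sr.left a2).left a3

theorem twc_b (h : Tw G w π π' c c' p p') {r r' u : V} (hu : π u ≠ c) (hr : π' r = π' (p (π u)))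
    (hr' : π' r' = c') (hrr : RR G π' r r') {t s : V} (ht : π t ≠ c) (htu : π t ≠ π u) (hs : π s ≠ c)
    (hsu : π s ≠ π u) : Nc w r' (p' (π u)) (p' (π t)) (p' (π s)) := by
  have e2 : π (p' (π u)) = π u := h.ch.hp' u hu
  have b1 := (twc_a h hu hr hr' hrr ht htu).sr
  have b3 := twc_a h hu hr hr' hrr hs hsu
  have b2 : Nc w r' (p' (π u)) (p (π t)) (p (π s)) := by
    refine cspl_iff.1 (h.pp'.part r') r' rfl (p' (π u)) ?_ (p (π t)) ?_ (p (π s)) ?_
    · show π' (p' (π u)) = π' r'
      rw [hr']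
      exact h.inn _ (by rw [e2]; exact hu)
    · intro e
      have e' : π' (p (π t)) = π' r' := e
      exact h.out t ht (by rw [e', hr'])
    · intro e
      have e' : π' (p (π s)) = π' r' := e
      exact h.out s hs (by rw [e', hr'])
  exact (b1.right b2).right b3

theorem twc_four {α : Type} {A B a b e d : α} (h1 : a ≠ b) (h2 : a ≠ e) (h3 : a ≠ d) (h4 : b ≠ e) (h5 : b ≠ d)
    (h6 : e ≠ d) (h : ∀ x y, (x = a ∨ x = b ∨ x = e ∨ x = d) → (y = a ∨ y = b ∨ y = e ∨ y = d) → x ∉ ({A, B} : Set α) →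
      y ∉ ({A, B} : Set α) → x = y) : False := by
  have key : ∀ x, x = A ∨ x = B ∨ x ∉ ({A, B} : Set α) := by
    intro x
    by_cases hA : x = A
    · exact Or.inl hA
    · by_cases hB : x = B
      · exact Or.inr (Or.inl hB)
      · refine Or.inr (Or.inr ?_)
        rintro (hx | hx)
        · exact hA hx
        · exact hB hx
  have fa : a = a ∨ a = b ∨ a = e ∨ a = d := Or.inl rfl
  have fb : b = a ∨ b = b ∨ b = e ∨ b = d := Or.inr (Or.inl rfl)
  have fe : e = a ∨ e = b ∨ e = e ∨ e = d := Or.inr (Or.inr (Or.inl rfl))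
  have fd : d = a ∨ d = b ∨ d = e ∨ d = d := Or.inr (Or.inr (Or.inr rfl))
  rcases key a with ka | ka | ka <;> rcases key b with kb | kb | kb <;> rcases key e with ke | ke | ke <;>
    rcases key d with kd | kd | kd <;>
    first
    | exact h1 (ka.trans kb.symm)
    | exact h2 (ka.trans ke.symm)
    | exact h3 (ka.trans kd.symm)
    | exact h4 (kb.trans ke.symm)
    | exact h5 (kb.trans kd.symm)
    | exact h6 (ke.trans kd.symm)
    | exact h1 (h _ _ fa fb ka kb)
    | exact h2 (h _ _ fa fe ka ke)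
    | exact h3 (h _ _ fa fd ka kd)
    | exact h4 (h _ _ fb fe kb ke)
    | exact h5 (h _ _ fb fd kb kd)
    | exact h6 (h _ _ fe fd ke kd)

/-- PROOF. (a) For a leaf t of π with π t ≠ π u: Nc w r' p'_u p_t p'_t. Indeed Nc r' r p'_t p_t: Star.diff at π' for the links r' r and p'_t p_t (π' r = π' p_u ≠ π' p_t; centre ends r', p'_t in c'); Nc r p_u p_t p'_t: r, p_u are in one part of π', p_t, p'_t are not in it
(π' p_t ≠ π' p_u, π' p'_t = c' ≠ π' p_u); Nc p_u p'_u p_t p'_t: Star.diff at π. Nc.left, Nc.sl, Nc.sr.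
(b) For leaves t, s with π t, π s ≠ π u: Nc w r' p'_u p'_t p'_s: Nc r' p'_u p'_t p_t (a), Nc r' p'_u p_t p_s (r', p'_u are in the part c' of π', p_t, p_s are not), Nc r' p'_u p_s p'_s (a); Nc.right.
Suppose π r' ≠ π u. J := {π r', π u}. Claim: {v | π v ∈ J} is a common split. cspl_of_reps (for π) with the representatives: r' in π r'; p'_u in π u; p'_t in every other leaf π t; and if π r' ≠ c, in the part c the vertex p_t₁, where t₁ is a fixed leaf with π t₁ ∉ {π r', π u} (three_leaves).
[Define ρ v := if π v = π r' then r' else if π v = c then p_t₁ else p' (π v).] For a, b with parts in J, c₁, d₁ with parts not in J: if π a = π b: refl_left. Otherwise the first two are r', p'_u: both c₁, d₁ leaves: (b). One of them, c₁, in c (so π r' ≠ c): Nc r' p'_u p_t₁ p'_t₁ (a) and Nc r' p'_u p'_t₁ p'_d₁ (b).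
Both in c: refl_right. pp_union: at most one part in J: but π r' ≠ π u; or at most one part not in J: if π r' = c there are two other leaves (three_leaves); if π r' ≠ c: c and π t₁. Contradiction. -/
theorem tw_match (hw : Sk w) (h : Tw G w π π' c c' p p') {r r' u : V} (hu : π u ≠ c) (hr : π' r = π' (p (π u)))
    (hr' : π' r' = c') (hrr : RR G π' r r') : π r' = π u := by
  classical
  by_contra hne
  obtain ⟨t₁, ht, ht1, ht2⟩ : ∃ t, π t ≠ c ∧ π t ≠ π r' ∧ π t ≠ π u := by
    obtain ⟨t, s, x, h1, h2, h3, h4, h5, h6⟩ := three_leaves h.pp c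
    by_contra hcon
    push Not at hcon
    have k1 := hcon t h1
    have k2 := hcon s h2
    have k3 := hcon x h3
    by_cases g1 : π t = π r'
    · have g2 := k2 (fun e => h4 (g1.trans e.symm))
      have g3 := k3 (fun e => h5 (g1.trans e.symm))
      exact h6 (g2.trans g3.symm)
    · have g1' := k1 g1
      by_cases g2 : π s = π r'
      · have g3 := k3 (fun e => h6 (g2.trans e.symm))
        exact h5 (g1'.trans g3.symm)
      · exact h4 (g1'.trans (k2 g2).symm)
  set ρ : V → V := fun v => if π v = π r' then r' else if π v = c then p (π t₁) else p' (π v) with hρd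
  have hρ : ∀ v, π (ρ v) = π v := by
    intro v
    rw [hρd]
    dsimp only
    split_ifs with e1 e2
    · exact e1.symm
    · rw [e2]; exact h.ch.hp t₁ ht
    · exact h.ch.hp' v e2
  have F : ∀ x y, π x ∉ ({π r', π u} : Set (Set V)) → π y ∉ ({π r', π u} : Set (Set V)) →
      Nc w r' (p' (π u)) (ρ x) (ρ y) := by
    intro x y hx hy
    have x1 : π x ≠ π r' := fun e => hx (Or.inl e)
    have x2 : π x ≠ π u := fun e => hx (Or.inr e)
    have y1 : π y ≠ π r' := fun e => hy (Or.inl e)
    have y2 : π y ≠ π u := fun e => hy (Or.inr e)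
    have rx : ρ x = if π x = c then p (π t₁) else p' (π x) := if_neg x1
    have ry : ρ y = if π y = c then p (π t₁) else p' (π y) := if_neg y1
    rw [rx, ry]
    split_ifs with cx cy cy
    · exact Nc.refl_right _ _ _
    · exact (twc_a h hu hr hr' hrr ht ht2).right (twc_b h hu hr hr' hrr ht ht2 cy y2)
    · exact ((twc_a h hu hr hr' hrr ht ht2).right (twc_b h hu hr hr' hrr ht ht2 cx x2)).sr
    · exact twc_b h hu hr hr' hrr cx x2 cy y2
  have hJ : ∀ x, π x ∈ ({π r', π u} : Set (Set V)) → ρ x = r' ∨ ρ x = p' (π u) := by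
    intro x hx
    by_cases x1 : π x = π r'
    · exact Or.inl (if_pos x1)
    · have x2 : π x = π u := by
        rcases hx with hx | hx
        · exact absurd hx x1
        · exact hx
      right
      have rx : ρ x = if π x = c then p (π t₁) else p' (π x) := if_neg x1
      rw [rx, if_neg (by rw [x2]; exact hu), x2]
  have hS : CSpl w {v | π v ∈ ({π r', π u} : Set (Set V))} := by
    refine cspl_of_reps hw h.pp.part hρ ?_
    intro a b x y ha hb hx hy
    rcases hJ a ha with ea | ea <;> rcases hJ b hb with eb | eb <;> rw [ea, eb]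
    · exact Nc.refl_left _ _ _
    · exact F x y hx hy
    · exact (F x y hx hy).sl
    · exact Nc.refl_left _ _ _
  rcases pp_union h.pp hS with h1 | h1
  · exact hne (h1 r' u (Or.inl rfl) (Or.inr rfl))
  · obtain ⟨a, b, e, d, k1, k2, k3, k4, k5, k6⟩ := h.pp.four
    refine twc_four (A := π r') (B := π u) k1 k2 k3 k4 k5 k6 ?_
    rintro x y (rfl | rfl | rfl | rfl) (rfl | rfl | rfl | rfl) hx hy <;> exact h1 _ _ hx hy

/-- the exchange of the two stars. PROOF: q κ := p'_u, q' κ := p_u for κ = π' p_u, u a leaf of π (choice; π u is determined by κ, `sep`). Every leaf π' v of π' is such a κ (onto). ch: hp: π' p'_u = c' (inn for p'_u, π p'_u = π u ≠ c); hp': clear; rr: rr' and symm. sep: π p'_u = π u. out: π p'_u = π u ≠ c. inn: π' v ≠ c' → π v = c: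
contraposition of inn. rr': Ch.rr and symm. onto: π v ≠ c: take p_v: π' p_v ≠ c', q (π' p_v) = p'_v, π p'_v = π v. -/
theorem tw_symm (h : Tw G w π π' c c' p p') : ∃ q q', Tw G w π' π c' c q q' ∧
    ∀ u, π u ≠ c → q (π' (p (π u))) = p' (π u) ∧ q' (π' (p (π u))) = p (π u) := by
  classical
  set q : Set V → V := fun κ => if hκ : ∃ u, π u ≠ c ∧ κ = π' (p (π u)) then p' (π hκ.choose) else p' κ with hq
  set q' : Set V → V := fun κ => if hκ : ∃ u, π u ≠ c ∧ κ = π' (p (π u)) then p (π hκ.choose) else p κ with hq'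
  have key : ∀ u, π u ≠ c → q (π' (p (π u))) = p' (π u) ∧ q' (π' (p (π u))) = p (π u) := by
    intro u hu
    have hκ : ∃ v, π v ≠ c ∧ π' (p (π u)) = π' (p (π v)) := ⟨u, hu, rfl⟩
    have e1 : π hκ.choose = π u := by
      by_contra hne
      exact h.sep _ _ hκ.choose_spec.1 hu hne hκ.choose_spec.2.symm
    have e2 : q (π' (p (π u))) = p' (π hκ.choose) := dif_pos hκ
    have e3 : q' (π' (p (π u))) = p (π hκ.choose) := dif_pos hκ
    rw [e2, e3, e1]
    exact ⟨rfl, rfl⟩
  refine ⟨q, q', ?_, key⟩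
  refine
    { pp := h.pp'
      st := h.st'
      ch := ⟨?_, ?_, ?_⟩
      pp' := h.pp
      st' := h.st
      sep := ?_
      out := ?_
      inn := ?_
      rr' := ?_
      onto := ?_ }
  · intro v hv
    obtain ⟨u, hu, e⟩ := h.onto v hv
    rw [e, (key u hu).1]
    exact h.inn _ (by rw [h.ch.hp' u hu]; exact hu)
  · intro v hv
    obtain ⟨u, hu, e⟩ := h.onto v hv
    rw [e, (key u hu).2]
  · intro v hv
    obtain ⟨u, hu, e⟩ := h.onto v hv
    rw [e, (key u hu).1, (key u hu).2]
    exact (h.rr' u hu).symm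
  · intro u v hu hv huv
    obtain ⟨a, ha, ea⟩ := h.onto u hu
    obtain ⟨b, hb, eb⟩ := h.onto v hv
    rw [ea, eb, (key a ha).1, (key b hb).1, h.ch.hp' a ha, h.ch.hp' b hb]
    intro e
    apply huv
    rw [ea, eb, e]
  · intro u hu
    obtain ⟨a, ha, ea⟩ := h.onto u hu
    rw [ea, (key a ha).1, h.ch.hp' a ha]
    exact ha
  · intro v hv
    by_contra hne
    exact hv (h.inn v hne)
  · intro u hu
    obtain ⟨a, ha, ea⟩ := h.onto u hu
    rw [ea, (key a ha).1, (key a ha).2]
    exact (h.ch.rr a ha).symm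
  · intro v hv
    refine ⟨p (π v), h.out v hv, ?_⟩
    rw [(key v hv).1, h.ch.hp' v hv]

/-- PROOF: tw_match for the exchanged situation: u := p_u, r := s', r' := s. -/
theorem tw_match' (hw : Sk w) (h : Tw G w π π' c c' p p') {s s' u : V} (hu : π u ≠ c) (hs : π s = c) (hs' : π s' = π u)
    (hrr : RR G π s s') : π' s = π' (p (π u)) := by
  obtain ⟨q, q', h', key⟩ := tw_symm h
  refine tw_match hw h' (r := s') (r' := s) (u := p (π u)) (h.out u hu) ?_ hs hrr.symm
  rw [(key u hu).1, h.ch.hp' u hu, hs']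

end Pool.Agent.SOW
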